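import Mathlib

/-! The scalar differential inequality. -/

open Set Filter Topology

namespace Pool.Agent.H4ac

theorem toIci {τ t f' : ℝ} {f : ℝ → ℝ} (ht : t ∈ Ico 0 τ)
    (h : HasDerivWithinAt f f' (Icc 0 τ) t) : HasDerivWithinAt f f' (Ici t) t :=
  h.mono_of_mem_nhdsWithin (Icc_mem_nhdsGE_of_mem ht)

theorem decay {τ c : ℝ} {s φ ρ tr g : ℝ → ℝ}
    (hs : ∀ t ∈ Icc 0 τ, HasDerivWithinAt s ((-2 * tr t + 6 * c) * s t) (Icc 0 τ) t)
    (hφ : ∀ t ∈ Icc 0 τ, HasDerivWithinAt φ (-2 * g t + 6 * c * φ t) (Icc 0 τ) t)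
    (hρ : ∀ t ∈ Icc 0 τ, HasDerivWithinAt ρ (-6 + 6 * c * ρ t) (Icc 0 τ) t)
    (hs0 : ∀ t ∈ Icc 0 τ, 0 < s t) (hφ0 : ∀ t ∈ Icc 0 τ, 0 ≤ φ t)
    (hsρ : ∀ t ∈ Icc 0 τ, s t ≤ ρ t)
    (hgap : ∀ t ∈ Icc 0 τ, φ t < 10 * s t →
      (tr t + (12 / (φ t / s t + 2) - 1) / s t) * φ t ≤ g t)
    (h0 : φ 0 < 10 * s 0) :
    ∀ t ∈ Icc 0 τ, φ t / s t ≤ φ 0 / s 0 ∧
      φ t / s t ≤ φ 0 / s 0 * Real.exp (-(2 * c * (12 / (φ 0 / s 0 + 2) - 1)) * t
        + (12 / (φ 0 / s 0 + 2) - 1) / 3 * (Real.log (ρ t) - Real.log (ρ 0))) := by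
  intro t1 ht1
  have hτ : 0 ≤ τ := ht1.1.trans ht1.2
  have m0 : (0 : ℝ) ∈ Icc 0 τ := ⟨le_rfl, hτ⟩
  have hρ0 : ∀ t ∈ Icc 0 τ, 0 < ρ t := fun t ht => (hs0 t ht).trans_le (hsρ t ht)
  have hw0 : ∀ t ∈ Icc 0 τ, 0 ≤ φ t / s t := fun t ht => div_nonneg (hφ0 t ht) (hs0 t ht).le
  set w0 := φ 0 / s 0 with hw0d
  have hw10 : w0 < 10 := by
    rw [hw0d, div_lt_iff₀ (hs0 0 m0)]
    exact h0
  -- the derivative of the quotient
  have hw : ∀ t ∈ Icc 0 τ, HasDerivWithinAt (fun t => φ t / s t)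
      (-2 * (g t - tr t * φ t) / s t) (Icc 0 τ) t := fun t ht => by
    have h1 := (hφ t ht).div (hs t ht) (hs0 t ht).ne'
    refine h1.congr_deriv ?_
    have := (hs0 t ht).ne'
    field_simp
    ring
  have hwc : ContinuousOn (fun t => φ t / s t) (Icc 0 τ) := fun t ht =>
    (hw t ht).continuousWithinAt
  -- the derivative is at most `- 2 delta w / s`
  have hder : ∀ t ∈ Icc 0 τ, φ t / s t < 10 →
      -2 * (g t - tr t * φ t) / s t ≤ -2 * (12 / (φ t / s t + 2) - 1) * (φ t / s t) / s t := by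
    intro t ht h10
    have hst := hs0 t ht
    have h1 := hgap t ht (by rwa [div_lt_iff₀ hst] at h10)
    refine div_le_div_of_nonneg_right ?_ hst.le
    have e : (tr t + (12 / (φ t / s t + 2) - 1) / s t) * φ t
        = tr t * φ t + (12 / (φ t / s t + 2) - 1) * (φ t / s t) := by
      ring
    rw [e] at h1
    linarith
  have step1 : ∀ K : ℝ, w0 < K → K < 10 → ∀ t ∈ Icc 0 τ, φ t / s t ≤ K := by
    intro K hK hK10 t ht
    refine image_le_of_deriv_right_lt_deriv_boundary' hwc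
      (fun t ht => toIci ht (hw t (Ico_subset_Icc_self ht))) (B := fun _ => K)
      (B' := fun _ => 0) hK.le continuousOn_const
      (fun t _ => hasDerivWithinAt_const _ _ _) (fun t ht he => ?_) ht
    have htm := Ico_subset_Icc_self ht
    have hst := hs0 t htm
    have he' : φ t / s t = K := he
    have h2 := hder t htm (by rw [he']; exact hK10)
    rw [he'] at h2
    refine lt_of_le_of_lt h2 ?_
    have hKpos : 0 < K := (hw0 0 m0).trans_lt hK
    have hd : 0 < 12 / (K + 2) - 1 := by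
      rw [sub_pos, lt_div_iff₀ (by linarith)]
      linarith
    have : 0 < 2 * (12 / (K + 2) - 1) * K / s t := by positivity
    have e2 : -2 * (12 / (K + 2) - 1) * K / s t = -(2 * (12 / (K + 2) - 1) * K / s t) := by ring
    rw [e2]
    linarith
  have step2 : ∀ t ∈ Icc 0 τ, φ t / s t ≤ w0 := by
    intro t ht
    refine le_of_forall_gt_imp_ge_of_dense fun K hK => ?_
    rcases lt_or_ge K 10 with h | h
    · exact step1 K hK h t ht
    · exact (step1 ((w0 + 10) / 2) (by linarith) (by linarith) t ht).trans (by linarith)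
  refine ⟨step2 t1 ht1, ?_⟩
  set δ := 12 / (w0 + 2) - 1 with hδ
  have hw00 : 0 ≤ w0 := hw0 0 m0
  have hδ0 : 0 < δ := by
    rw [hδ, sub_pos, lt_div_iff₀ (by linarith)]
    linarith
  have hder2 : ∀ t ∈ Icc 0 τ,
      -2 * (g t - tr t * φ t) / s t ≤ -2 * δ * (φ t / s t) / ρ t := by
    intro t ht
    have hst := hs0 t ht
    have hwt := hw0 t ht
    have hw1 := step2 t ht
    have hdl : δ ≤ 12 / (φ t / s t + 2) - 1 := by
      rw [hδ]
      have : 12 / (w0 + 2) ≤ 12 / (φ t / s t + 2) :=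
        div_le_div_of_nonneg_left (by norm_num) (by linarith) (by linarith)
      linarith
    refine (hder t ht (by linarith)).trans ?_
    have e1 : -2 * (12 / (φ t / s t + 2) - 1) * (φ t / s t) / s t
        = -(2 * ((12 / (φ t / s t + 2) - 1) * (φ t / s t) / s t)) := by ring
    have e2 : -2 * δ * (φ t / s t) / ρ t = -(2 * (δ * (φ t / s t) / ρ t)) := by ring
    rw [e1, e2]
    have e3 : δ * (φ t / s t) / ρ t ≤ (12 / (φ t / s t + 2) - 1) * (φ t / s t) / s t := by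
      refine div_le_div₀ (mul_nonneg (by linarith) hwt) (mul_le_mul_of_nonneg_right hdl hwt) hst
        (hsρ t ht)
    linarith
  have hG : ∀ t ∈ Icc 0 τ, HasDerivWithinAt
      (fun t => φ t / s t * Real.exp (2 * c * δ * t - δ / 3 * Real.log (ρ t)))
      (Real.exp (2 * c * δ * t - δ / 3 * Real.log (ρ t))
        * (-2 * (g t - tr t * φ t) / s t + 2 * δ * (φ t / s t) / ρ t)) (Icc 0 τ) t := by
    intro t ht
    have h1 := ((hρ t ht).log (hρ0 t ht).ne').const_mul (δ / 3)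
    have h2 := ((hasDerivWithinAt_id t (Icc 0 τ)).const_mul (2 * c * δ)).sub h1
    have h3 := (hw t ht).mul h2.exp
    refine (h3.congr_deriv ?_)
    have := (hρ0 t ht).ne'
    have := (hs0 t ht).ne'
    simp only [id, Pi.sub_apply]
    field_simp
    ring
  have hGc : ContinuousOn
      (fun t => φ t / s t * Real.exp (2 * c * δ * t - δ / 3 * Real.log (ρ t))) (Icc 0 τ) :=
    fun t ht => (hG t ht).continuousWithinAt
  have fin := image_le_of_deriv_right_le_deriv_boundary hGc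
    (fun t ht => toIci ht (hG t (Ico_subset_Icc_self ht)))
    (B := fun _ => w0 * Real.exp (2 * c * δ * 0 - δ / 3 * Real.log (ρ 0)))
    (B' := fun _ => 0) le_rfl continuousOn_const (fun t _ => hasDerivWithinAt_const _ _ _)
    (fun t ht => by
      have := hder2 t (Ico_subset_Icc_self ht)
      refine mul_nonpos_of_nonneg_of_nonpos (Real.exp_pos _).le ?_
      have e : -2 * δ * (φ t / s t) / ρ t = -(2 * δ * (φ t / s t) / ρ t) := by ring
      linarith) ht1
  have hE : 0 < Real.exp (2 * c * δ * t1 - δ / 3 * Real.log (ρ t1)) := Real.exp_pos _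
  have e1 : w0 * Real.exp (-(2 * c * δ) * t1 + δ / 3 * (Real.log (ρ t1) - Real.log (ρ 0)))
      * Real.exp (2 * c * δ * t1 - δ / 3 * Real.log (ρ t1))
      = w0 * Real.exp (2 * c * δ * 0 - δ / 3 * Real.log (ρ 0)) := by
    rw [mul_assoc, ← Real.exp_add]
    congr 2
    ring
  rw [← e1] at fin
  exact le_of_mul_le_mul_right fin hE

end Pool.Agent.H4ac
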