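import Mathlib

/-! The explicitly solvable scalar equation `rho' = - 6 + 6 c rho`. -/

open Set Filter Topology

namespace Pool.Agent.H4ac

/-- The explicit solution of `rho' = - 6 + 6 c rho`. -/
noncomputable def rhoF (c ρ0 t : ℝ) : ℝ :=
  if c = 0 then ρ0 - 6 * t else 1 / c + (ρ0 - 1 / c) * Real.exp (6 * c * t)

private theorem LinB_deriv (c ρ0 t : ℝ) :
    HasDerivAt (rhoF c ρ0) (-6 + 6 * c * rhoF c ρ0 t) t := by
  by_cases hc : c = 0
  · subst hc
    have h1 : rhoF 0 ρ0 = fun t => ρ0 - 6 * t := by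
      funext t
      simp [rhoF]
    rw [h1]
    have h2 := ((hasDerivAt_id t).const_mul (6 : ℝ)).const_sub ρ0
    refine h2.congr_deriv ?_
    ring
  · have h1 : rhoF c ρ0 = fun t => 1 / c + (ρ0 - 1 / c) * Real.exp (6 * c * t) := by
      funext t
      simp [rhoF, hc]
    rw [h1]
    have h0 : HasDerivAt (fun t : ℝ => 6 * c * t) (6 * c) t := by
      simpa using (hasDerivAt_id t).const_mul (6 * c)
    have h2 := (h0.exp.const_mul (ρ0 - 1 / c)).const_add (1 / c)
    refine h2.congr_deriv ?_
    field_simp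
    ring

private theorem LinB_zero (c ρ0 : ℝ) : rhoF c ρ0 0 = ρ0 := by
  unfold rhoF
  split_ifs <;> simp

theorem rho_unique {c τ : ℝ} {ρ : ℝ → ℝ}
    (h : ∀ t ∈ Icc 0 τ, HasDerivWithinAt ρ (-6 + 6 * c * ρ t) (Icc 0 τ) t) :
    ∀ t ∈ Icc 0 τ, ρ t = rhoF c (ρ 0) t := by
  intro t ht
  let f : ℝ → ℝ := fun t => (ρ t - rhoF c (ρ 0) t) * Real.exp (-(6 * c * t))
  have hd : ∀ s ∈ Icc 0 τ, HasDerivWithinAt f 0 (Icc 0 τ) s := by
    intro s hs
    have h00 : HasDerivAt (fun t : ℝ => 6 * c * t) (6 * c) s := by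
      simpa using (hasDerivAt_id s).const_mul (6 * c)
    have h0 : HasDerivAt (fun t : ℝ => -(6 * c * t)) (-(6 * c)) s := h00.neg
    have h1 := ((h s hs).sub (LinB_deriv c (ρ 0) s).hasDerivWithinAt).mul
      (h0.exp.hasDerivWithinAt (s := Icc 0 τ))
    refine h1.congr_deriv ?_
    simp only [Pi.sub_apply]
    ring
  have hc : f t = f 0 := by
    refine constant_of_has_deriv_right_zero (a := 0) (b := τ) ?_ ?_ t ht
    · intro s hs
      exact (hd s hs).continuousWithinAt
    · intro s hs
      exact (hd s (Ico_subset_Icc_self hs)).mono_of_mem_nhdsWithin (Icc_mem_nhdsGE_of_mem hs)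
  have h0 : f 0 = 0 := by
    simp only [f]
    rw [LinB_zero, sub_self, zero_mul]
  rw [h0] at hc
  rcases mul_eq_zero.1 hc with h1 | h1
  · linarith
  · exact absurd h1 (Real.exp_pos _).ne'

theorem exists_T {c ρ0 : ℝ} (hρ : 0 < ρ0) (hc : c * ρ0 < 1) :
    ∃ T M : ℝ, 0 < T ∧ 0 ≤ M ∧ (∀ t, 0 < rhoF c ρ0 t ↔ t < T) ∧
      Real.exp (6 * c * T) * (1 - c * ρ0) = 1 ∧
      (∀ t, t ≤ T → |Real.exp (3 * c * t) - Real.exp (3 * c * T)| ≤ M * rhoF c ρ0 t) ∧
      Tendsto (rhoF c ρ0) (𝓝[<] T) (𝓝 0) := by
  have hcont : Continuous (rhoF c ρ0) :=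
    continuous_iff_continuousAt.2 fun t => (LinB_deriv c ρ0 t).continuousAt
  have hlim : ∀ T, rhoF c ρ0 T = 0 → Tendsto (rhoF c ρ0) (𝓝[<] T) (𝓝 0) := by
    intro T hT
    have := hcont.tendsto T
    rw [hT] at this
    exact this.mono_left nhdsWithin_le_nhds
  by_cases h0 : c = 0
  · subst h0
    have h1 : ∀ t, rhoF 0 ρ0 t = ρ0 - 6 * t := by
      intro t
      simp [rhoF]
    refine ⟨ρ0 / 6, 0, by positivity, le_rfl, ?_, by simp, ?_, ?_⟩
    · intro t
      rw [h1]
      constructor <;> intro h <;> linarith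
    · intro t _
      simp
    · apply hlim
      rw [h1]
      ring
  · have h1 : 0 < 1 - c * ρ0 := by linarith
    obtain ⟨T, hT⟩ : ∃ T, T = -Real.log (1 - c * ρ0) / (6 * c) := ⟨_, rfl⟩
    have h6 : 6 * c * T = -Real.log (1 - c * ρ0) := by
      rw [hT]
      field_simp
    have hexp : Real.exp (6 * c * T) * (1 - c * ρ0) = 1 := by
      rw [h6, Real.exp_neg, Real.exp_log h1, inv_mul_cancel₀ h1.ne']
    have hform : ∀ t, c * rhoF c ρ0 t = 1 - Real.exp (3 * c * (t - T)) ^ 2 := by
      intro t
      have e1 : Real.exp (3 * c * (t - T)) ^ 2 = Real.exp (6 * c * t) * (1 - c * ρ0) := by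
        rw [← Real.exp_nat_mul]
        have e2 : ((2 : ℕ) : ℝ) * (3 * c * (t - T)) = 6 * c * t - 6 * c * T := by
          push_cast
          ring
        rw [e2, Real.exp_sub, div_eq_iff (Real.exp_pos _).ne']
        linear_combination (-Real.exp (6 * c * t)) * hexp
      rw [e1]
      unfold rhoF
      rw [if_neg h0]
      field_simp
      ring
    have hTpos : 0 < T := by
      rcases lt_or_gt_of_ne h0 with hneg | hpos
      · have : 0 < Real.log (1 - c * ρ0) := Real.log_pos (by nlinarith [mul_pos_of_neg_of_neg hneg (neg_neg_of_pos hρ)])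
        rw [hT]
        exact div_pos_of_neg_of_neg (by linarith) (by linarith)
      · have : Real.log (1 - c * ρ0) < 0 := Real.log_neg h1 (by nlinarith [mul_pos hpos hρ])
        rw [hT]
        exact div_pos (by linarith) (by linarith)
    have hiff : ∀ t, 0 < rhoF c ρ0 t ↔ t < T := by
      intro t
      have hf := hform t
      have hE := Real.exp_pos (3 * c * (t - T))
      rcases lt_or_gt_of_ne h0 with hneg | hpos
      · constructor
        · intro h
          by_contra hlt
          have h2 : 3 * c * (t - T) ≤ 0 := by nlinarith [not_lt.1 hlt]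
          have h3 := Real.exp_le_one_iff.2 h2
          have h4 : c * rhoF c ρ0 t < 0 := mul_neg_of_neg_of_pos hneg h
          nlinarith
        · intro h
          by_contra hle
          have h2 : 0 < 3 * c * (t - T) := by nlinarith
          have h3 := Real.one_lt_exp_iff.2 h2
          have h4 : 0 ≤ c * rhoF c ρ0 t := mul_nonneg_of_nonpos_of_nonpos hneg.le (not_lt.1 hle)
          nlinarith
      · constructor
        · intro h
          by_contra hlt
          have h2 : 0 ≤ 3 * c * (t - T) := by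
            have := not_lt.1 hlt
            have h5 : 0 ≤ t - T := by linarith
            positivity
          have h3 := Real.one_le_exp_iff.2 h2
          have h4 : 0 < c * rhoF c ρ0 t := mul_pos hpos h
          nlinarith
        · intro h
          by_contra hle
          have h2 : 3 * c * (t - T) < 0 := by nlinarith
          have h3 := Real.exp_lt_one_iff.2 h2
          have h4 : c * rhoF c ρ0 t ≤ 0 := mul_nonpos_of_nonneg_of_nonpos hpos.le (not_lt.1 hle)
          nlinarith
    have hT0 : rhoF c ρ0 T = 0 := by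
      have := hform T
      rw [sub_self, mul_zero, Real.exp_zero, one_pow, sub_self] at this
      exact (mul_eq_zero.1 this).resolve_left h0
    refine ⟨T, Real.exp (3 * c * T) * |c|, hTpos, by positivity, hiff, hexp, ?_, hlim T hT0⟩
    intro t ht
    have hnn : 0 ≤ rhoF c ρ0 t := by
      rcases ht.eq_or_lt with h | h
      · rw [h, hT0]
      · exact ((hiff t).2 h).le
    have hE := Real.exp_pos (3 * c * (t - T))
    have e1 : Real.exp (3 * c * t) - Real.exp (3 * c * T)
        = Real.exp (3 * c * T) * (Real.exp (3 * c * (t - T)) - 1) := by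
      rw [mul_sub, ← Real.exp_add, mul_one]
      congr 2
      ring
    have e2 : |c| * rhoF c ρ0 t
        = |Real.exp (3 * c * (t - T)) - 1| * (1 + Real.exp (3 * c * (t - T))) := by
      have e3 : |c| * rhoF c ρ0 t = |c * rhoF c ρ0 t| := by
        rw [abs_mul, abs_of_nonneg hnn]
      have e4 : 1 - Real.exp (3 * c * (t - T)) ^ 2
          = -((Real.exp (3 * c * (t - T)) - 1) * (1 + Real.exp (3 * c * (t - T)))) := by ring
      rw [e3, hform t, e4, abs_neg, abs_mul, abs_of_pos (show 0 < 1 + Real.exp (3 * c * (t - T)) by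
        linarith)]
    rw [e1, abs_mul, abs_of_pos (Real.exp_pos _), mul_assoc (Real.exp (3 * c * T)), e2]
    apply mul_le_mul_of_nonneg_left _ (Real.exp_pos _).le
    have := abs_nonneg (Real.exp (3 * c * (t - T)) - 1)
    nlinarith

end Pool.Agent.H4ac
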