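import Pool.Agent.H.MP_4ac55f_gt.OdeB

/-! Existence and uniqueness for an autonomous differential equation on an open set, with
a priori bounds (see the imported files). -/
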