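import Pool.Agent.H.MP_4ac55f_gt.Gap
import Pool.Agent.H.MP_4ac55f_gt.Decay
import Pool.Agent.H.MP_4ac55f_gt.Lin
import Pool.Agent.H.MP_4ac55f_gt.Ode

/-! A priori estimates for the flow. -/

open scoped InnerProductSpace Topology
open Filter Set

namespace Pool.Agent.H4ac

variable {E : Type} [NormedAddCommGroup E] [InnerProductSpace ℝ E] [FiniteDimensional ℝ E]
variable {A : Fin 3 → E →ₗ[ℝ] E} {c : ℝ}
set_option linter.unusedSectionVars false

theorem continuous_A (A : Fin 3 → E →ₗ[ℝ] E) (a : Fin 3) : Continuous (fun x => A a x) :=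
  (A a).continuous_of_finiteDimensional

theorem continuous_gram (A : Fin 3 → E →ₗ[ℝ] E) : Continuous (fun x => gram A x) :=
  continuous_matrix fun a b => (continuous_A A a).inner (continuous_A A b)

theorem continuousOn_trace (A : Fin 3 → E →ₗ[ℝ] E) :
    ContinuousOn (fun x => ((gram A x)⁻¹).trace) (Om A) := by
  have h : ∀ x ∈ Om A, ((gram A x)⁻¹).trace
      = (gram A x).det⁻¹ * (gram A x).adjugate.trace := fun x _ => by
    rw [Matrix.inv_def, Matrix.trace_smul, Ring.inverse_eq_inv', smul_eq_mul]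
  refine ContinuousOn.congr ?_ h
  refine ContinuousOn.mul (ContinuousOn.inv₀ ?_ fun x hx => (gram_det_pos hx).ne') ?_
  · exact (continuous_gram A).matrix_det.continuousOn
  · exact (continuous_gram A).matrix_adjugate.matrix_trace.continuousOn

theorem continuous_sq1 (A : Fin 3 → E →ₗ[ℝ] E) : Continuous (fun x => sq1 A x) :=
  ((p1 A).continuous.norm).pow 2

theorem continuous_rho (A : Fin 3 → E →ₗ[ℝ] E) : Continuous (fun x => rho A x) :=
  (continuous_sq1 A).add (((p2 A).continuous.norm).pow 2)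

theorem norm_sq_split (hA : IsSU2 A) (x : E) : ‖x‖ ^ 2 = ‖p0 A x‖ ^ 2 + rho A x := by
  have h0 : inner ℝ (p0 A x) (p1 A x) = 0 := inner_01 hA (p0_mem x) (p1_mem x)
  have h1 : inner ℝ (p0 A x) (p2 A x) = 0 := inner_02 (p0_mem x) (p2_mem x)
  have h2 : inner ℝ (p1 A x) (p2 A x) = 0 := inner_12 (p1_mem x) (p2_mem x)
  conv_lhs => rw [← p_sum hA x]
  rw [norm_add_sq_real, norm_add_sq_real, inner_add_left, h0, h1, h2, rho, sq1]
  ring

theorem rho_le (hA : IsSU2 A) {x : E} (h : 0 < sq1 A x) {w : ℝ}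
    (hw : phi A x / sq1 A x ≤ w) : rho A x ≤ (1 + w / 8) * sq1 A x := by
  rw [div_le_iff₀ h] at hw
  have := norm_p2_le hA x
  unfold rho
  linarith

/-- The a priori estimates. -/
theorem apri (hA : IsSU2 A) {τ : ℝ} {p : ℝ → E} (hτ : 0 ≤ τ)
    (hp : Sol (Om A) (vf c A) (Icc 0 τ) p) (h1 : 0 < sq1 A (p 0))
    (h2 : phi A (p 0) < 10 * sq1 A (p 0)) :
    ∀ t ∈ Icc 0 τ, p0 A (p t) = Real.exp (3 * c * t) • p0 A (p 0) ∧
      (∃ b : ℝ, 0 < b ∧ p1 A (p t) = b • p1 A (p 0)) ∧ 0 < sq1 A (p t) ∧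
      rho A (p t) = rhoF c (rho A (p 0)) t ∧
      phi A (p t) / sq1 A (p t) ≤ phi A (p 0) / sq1 A (p 0) ∧
      phi A (p t) / sq1 A (p t) ≤ phi A (p 0) / sq1 A (p 0)
        * Real.exp (-(2 * c * (12 / (phi A (p 0) / sq1 A (p 0) + 2) - 1)) * t
          + (12 / (phi A (p 0) / sq1 A (p 0) + 2) - 1) / 3
            * (Real.log (rho A (p t)) - Real.log (rho A (p 0)))) := by
  have hpc : ContinuousOn p (Icc 0 τ) := fun t ht => (hp t ht).2.continuousWithinAt
  have htr : ContinuousOn (fun t => -((gram A (p t))⁻¹).trace + 3 * c) (Icc 0 τ) :=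
    ((continuousOn_trace A).comp hpc fun t ht => (hp t ht).1).neg.add continuousOn_const
  obtain ⟨b, hb⟩ := lin_sol hτ htr (y := fun t => p1 A (p t)) fun t ht => der_p1 hA (hp t ht).2
  have e0 := lin_sol_const (τ := τ) (k := 3 * c) (y := fun t => p0 A (p t))
    fun t ht => der_p0 hA (hp t ht).2
  have er := rho_unique (c := c) (τ := τ) (ρ := fun t => rho A (p t))
    fun t ht => der_rho hA (hp t ht).1 (hp t ht).2
  have hs : ∀ t ∈ Icc 0 τ, 0 < sq1 A (p t) := fun t ht => by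
    have := hb t ht
    rw [sq1, this.2, norm_smul, mul_pow]
    exact mul_pos (by rw [Real.norm_eq_abs, sq_abs]; exact pow_pos this.1 2) h1
  have hd := decay (τ := τ) (c := c) (s := fun t => sq1 A (p t)) (φ := fun t => phi A (p t))
    (ρ := fun t => rho A (p t)) (tr := fun t => ((gram A (p t))⁻¹).trace)
    (g := fun t => inner ℝ (dop A (gram A (p t))⁻¹ (p2 A (p t))) (cas A (p2 A (p t))))
    (fun t ht => der_sq1 hA (hp t ht).2) (fun t ht => der_phi hA (hp t ht).2)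
    (fun t ht => der_rho hA (hp t ht).1 (hp t ht).2) hs (fun t _ => phi_nonneg hA _)
    (fun t _ => by
      unfold rho
      have := sq_nonneg ‖p2 A (p t)‖
      linarith)
    (fun t ht h => gap hA (hs t ht) h) h2
  intro t ht
  exact ⟨e0 t ht, ⟨b t, (hb t ht).1, (hb t ht).2⟩, hs t ht, er t ht, (hd t ht).1, (hd t ht).2⟩

theorem continuous_rhoF (c ρ0 : ℝ) : Continuous (rhoF c ρ0) := by
  unfold rhoF
  split_ifs <;> fun_prop

/-- Compact sets containing all solutions. -/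
theorem exists_K (hA : IsSU2 A) {x0 : E} {τ : ℝ} (hτ : 0 ≤ τ) (h1 : 0 < sq1 A x0)
    (h2 : phi A x0 < 10 * sq1 A x0) (hpos : ∀ t ∈ Icc 0 τ, 0 < rhoF c (rho A x0) t) :
    ∃ K : Set E, IsCompact K ∧ K ⊆ Om A ∧ ∀ τ' ∈ Icc 0 τ, ∀ p : ℝ → E, p 0 = x0 →
      Sol (Om A) (vf c A) (Icc 0 τ') p → ∀ t ∈ Icc 0 τ', p t ∈ K := by
  have hne : (Icc 0 τ).Nonempty := ⟨0, le_rfl, hτ⟩
  obtain ⟨t1, ht1, hmin⟩ := isCompact_Icc.exists_isMinOn hne
    (continuous_rhoF c (rho A x0)).continuousOn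
  obtain ⟨t2, ht2, hmax⟩ := isCompact_Icc.exists_isMaxOn hne
    (continuous_rhoF c (rho A x0)).continuousOn
  obtain ⟨t3, ht3, hmax3⟩ := isCompact_Icc.exists_isMaxOn hne
    (f := fun t => ‖Real.exp (3 * c * t) • p0 A x0‖) (by fun_prop)
  set m := rhoF c (rho A x0) t1 with hm
  set M := rhoF c (rho A x0) t2 with hM
  set N := ‖Real.exp (3 * c * t3) • p0 A x0‖ with hN
  have hmpos : 0 < m := hpos t1 ht1
  set w := phi A x0 / sq1 A x0 with hw
  have hw0 : 0 ≤ w := div_nonneg (phi_nonneg hA x0) h1.le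
  refine ⟨{x | ‖p0 A x‖ ≤ N ∧ m ≤ (1 + w / 8) * sq1 A x ∧ rho A x ≤ M}, ?_, ?_, ?_⟩
  · refine Metric.isCompact_of_isClosed_isBounded ?_ ?_
    · refine IsClosed.inter (isClosed_le (p0 A).continuous.norm continuous_const)
        (IsClosed.inter (isClosed_le continuous_const ((continuous_sq1 A).const_mul _))
          (isClosed_le (continuous_rho A) continuous_const))
    · refine (Metric.isBounded_closedBall (x := (0 : E)) (r := Real.sqrt (N ^ 2 + M))).subset ?_
      intro x hx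
      rw [mem_closedBall_zero_iff]
      refine Real.le_sqrt_of_sq_le ?_
      rw [norm_sq_split hA]
      have h3 : ‖p0 A x‖ ^ 2 ≤ N ^ 2 := pow_le_pow_left₀ (norm_nonneg _) hx.1 2
      linarith [hx.2.2]
  · intro x hx
    refine Om_of_sq1 hA ?_
    by_contra hcon
    have h3 : (1 + w / 8) * sq1 A x ≤ 0 :=
      mul_nonpos_of_nonneg_of_nonpos (by positivity) (not_lt.1 hcon)
    linarith [hx.2.1]
  · intro τ' hτ' p hp0 hp t ht
    have ha := apri hA hτ'.1 hp (by rw [hp0]; exact h1) (by rw [hp0]; exact h2) t ht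
    rw [hp0] at ha
    have htτ : t ∈ Icc 0 τ := ⟨ht.1, ht.2.trans hτ'.2⟩
    refine ⟨?_, ?_, ?_⟩
    · rw [ha.1]
      exact hmax3 htτ
    · refine le_trans ?_ (rho_le hA ha.2.2.1 ha.2.2.2.2.1)
      rw [ha.2.2.2.1]
      exact hmin htτ
    · rw [ha.2.2.2.1]
      exact hmax htτ

end Pool.Agent.H4ac
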