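import Pool.Agent.H.MP_4ac55f_gt.Defs

/-! The Casimir operator and the operators `dop A Q`. -/

open scoped InnerProductSpace Topology
open Filter

namespace Pool.Agent.H4ac

variable {E : Type} [NormedAddCommGroup E] [InnerProductSpace ℝ E] [FiniteDimensional ℝ E]
variable {A : Fin 3 → E →ₗ[ℝ] E}
set_option linter.unusedSectionVars false

theorem cas_apply (A : Fin 3 → E →ₗ[ℝ] E) (x : E) : cas A x = -∑ a, A a (A a x) := by
  simp [cas]

theorem dop_apply (A : Fin 3 → E →ₗ[ℝ] E) (Q : Matrix (Fin 3) (Fin 3) ℝ) (x : E) :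
    dop A Q x = -∑ a, ∑ b, Q a b • A a (A b x) := by
  simp [dop]

theorem skew' (hA : IsSU2 A) (a : Fin 3) (x y : E) :
    inner ℝ x (A a y) = -inner ℝ (A a x) y := by
  rw [hA.skew, neg_neg]

theorem inner_self_zero (hA : IsSU2 A) (a : Fin 3) (x : E) : inner ℝ (A a x) x = 0 := by
  have h := hA.skew a x x
  rw [real_inner_comm] at h
  rw [real_inner_comm]
  linarith

theorem inner_dop (hA : IsSU2 A) (Q : Matrix (Fin 3) (Fin 3) ℝ) (x y : E) :
    inner ℝ (dop A Q x) y = ∑ a, ∑ b, Q a b * inner ℝ (A b x) (A a y) := by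
  rw [dop_apply, inner_neg_left, sum_inner, ← Finset.sum_neg_distrib]
  refine Finset.sum_congr rfl fun a _ => ?_
  rw [sum_inner, ← Finset.sum_neg_distrib]
  refine Finset.sum_congr rfl fun b _ => ?_
  rw [real_inner_smul_left, hA.skew]
  ring

theorem cas_eq_dop (A : Fin 3 → E →ₗ[ℝ] E) : cas A = dop A 1 := by
  ext x
  rw [cas_apply, dop_apply]
  congr 1
  refine Finset.sum_congr rfl fun a _ => ?_
  simp [Matrix.one_apply, ite_smul]

theorem dop_symm (hA : IsSU2 A) {Q : Matrix (Fin 3) (Fin 3) ℝ} (hQ : Q.transpose = Q) (x y : E) :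
    inner ℝ (dop A Q x) y = inner ℝ x (dop A Q y) := by
  rw [inner_dop hA, real_inner_comm, inner_dop hA, Finset.sum_comm]
  refine Finset.sum_congr rfl fun a _ => Finset.sum_congr rfl fun b _ => ?_
  have h : Q b a = Q a b := by
    conv_lhs => rw [← hQ]
    rfl
  rw [h, real_inner_comm]

theorem cas_symm (hA : IsSU2 A) (x y : E) :
    inner ℝ (cas A x) y = inner ℝ x (cas A y) := by
  rw [cas_eq_dop]
  exact dop_symm hA (by simp) x y

theorem inner_cas (hA : IsSU2 A) (x : E) : inner ℝ (cas A x) x = ∑ a, ‖A a x‖ ^ 2 := by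
  rw [cas_eq_dop, inner_dop hA]
  refine Finset.sum_congr rfl fun a _ => ?_
  simp [Matrix.one_apply]

theorem inner_cas' (hA : IsSU2 A) (x y : E) :
    inner ℝ (cas A x) y = ∑ a, inner ℝ (A a x) (A a y) := by
  rw [cas_eq_dop, inner_dop hA]
  refine Finset.sum_congr rfl fun a _ => ?_
  simp [Matrix.one_apply]

theorem cas_comm (hA : IsSU2 A) (a : Fin 3) (x : E) : cas A (A a x) = A a (cas A x) := by
  rw [cas_apply, cas_apply]
  simp only [Fin.sum_univ_three, map_neg, map_add]
  have e01 := hA.c01 x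
  have e12 := hA.c12 x
  have e20 := hA.c20 x
  fin_cases a
  · have f1 := hA.c01 (A 1 x)
    have f2 := congrArg (A 1) e01
    have f3 := hA.c20 (A 2 x)
    have f4 := congrArg (A 2) e20
    simp only [map_sub, map_smul] at f2 f4
    simp only [Fin.zero_eta, Fin.isValue]
    linear_combination (norm := module) f1 + f2 - f3 - f4
  · have f1 := hA.c12 (A 2 x)
    have f2 := congrArg (A 2) e12
    have f3 := hA.c01 (A 0 x)
    have f4 := congrArg (A 0) e01
    simp only [map_sub, map_smul] at f2 f4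
    simp only [Fin.mk_one, Fin.isValue]
    linear_combination (norm := module) f1 + f2 - f3 - f4
  · have f1 := hA.c20 (A 0 x)
    have f2 := congrArg (A 0) e20
    have f3 := hA.c12 (A 1 x)
    have f4 := congrArg (A 1) e12
    simp only [map_sub, map_smul] at f2 f4
    simp only [Fin.reduceFinMk, Fin.isValue]
    linear_combination (norm := module) f1 + f2 - f3 - f4

theorem dop_cas (hA : IsSU2 A) (Q : Matrix (Fin 3) (Fin 3) ℝ) (x : E) :
    dop A Q (cas A x) = cas A (dop A Q x) := by
  rw [dop_apply, dop_apply, map_neg, map_sum]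
  congr 1
  refine Finset.sum_congr rfl fun a _ => ?_
  rw [map_sum]
  refine Finset.sum_congr rfl fun b _ => ?_
  rw [map_smul, cas_comm hA, cas_comm hA]

end Pool.Agent.H4ac
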