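import Pool.Agent.H.MP_4ac55f_gt.Lim

/-! The two alternatives. -/

open scoped InnerProductSpace Topology
open Filter Set

namespace Pool.Agent.H4ac

variable {E : Type} [NormedAddCommGroup E] [InnerProductSpace ℝ E] [FiniteDimensional ℝ E]
variable {A : Fin 3 → E →ₗ[ℝ] E} {c : ℝ}
set_option linter.unusedSectionVars false

/-- The size of the part of spin at least one. -/
theorem norm_p2_div (hA : IsSU2 A) {x : E} (h : 0 < sq1 A x) :
    ‖p1 A x‖⁻¹ * ‖p2 A x‖ ≤ Real.sqrt (phi A x / sq1 A x / 8) := by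
  refine Real.le_sqrt_of_sq_le ?_
  have h1 := norm_p2_le hA x
  rw [mul_pow, inv_pow, ← sq1, inv_mul_eq_div, div_div, div_le_div_iff₀ h (by positivity)]
  nlinarith

theorem norm_p1_pos {x : E} (h : 0 < sq1 A x) : 0 < ‖p1 A x‖ := by
  refine lt_of_le_of_ne (norm_nonneg _) fun h0 => ?_
  rw [sq1, ← h0] at h
  simp at h

/-- The direction of the part of spin one half is constant. -/
theorem dir_const {y y0 : E} {b : ℝ} (hb : 0 < b) (h : y = b • y0) :
    ‖y‖⁻¹ • y = ‖y0‖⁻¹ • y0 := by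
  rw [h, norm_smul, Real.norm_eq_abs, abs_of_pos hb, smul_smul, mul_inv, mul_comm b⁻¹, mul_assoc,
    inv_mul_cancel₀ hb.ne', mul_one]

/-- The limit of the normalised flow at a finite extinction time. -/
theorem dir_a (hA : IsSU2 A) {P : ℝ → E × ℝ} {T M : ℝ} (hT0 : 0 < T) (hM : 0 ≤ M)
    (h : IsMCF c A (Ico 0 T) P) (h1 : 0 < sq1 A (P 0).1)
    (h2 : phi A (P 0).1 < 10 * sq1 A (P 0).1)
    (hT : ∀ t, 0 < rhoF c (rho A (P 0).1) t ↔ t < T)
    (hTM : ∀ t, t ≤ T → |Real.exp (3 * c * t) - Real.exp (3 * c * T)|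
      ≤ M * rhoF c (rho A (P 0).1) t)
    (hlim : Tendsto (rhoF c (rho A (P 0).1)) (𝓝[<] T) (𝓝 0)) :
    Tendsto (fun t => ‖p1 A (P t).1‖⁻¹ •
        (P t - (Real.exp (3 * c * T) • p0 A (P 0).1, Real.exp (3 * c * T) * (P 0).2)))
      (𝓝[<] T) (𝓝 (‖p1 A (P 0).1‖⁻¹ • p1 A (P 0).1, 0)) := by
  have hJ : ∀ t ∈ Ico 0 T, 0 ≤ t ∧ Icc 0 t ⊆ Ico 0 T := fun t ht =>
    ⟨ht.1, fun s hs => ⟨hs.1, hs.2.trans_lt ht.2⟩⟩
  have facts := flow_facts hA hJ h h1 h2
  have hev : ∀ᶠ t in 𝓝[<] T, t ∈ Ico 0 T := by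
    have := Ico_mem_nhdsLT hT0
    exact this
  set w0 := phi A (P 0).1 / sq1 A (P 0).1 with hw0
  have hw00 : 0 ≤ w0 := div_nonneg (phi_nonneg hA _) h1.le
  have hw10 : w0 < 10 := by
    rw [hw0, div_lt_iff₀ h1]
    exact h2
  set δ := 12 / (w0 + 2) - 1 with hδ
  have hδ0 : 0 < δ := by
    rw [hδ, sub_pos, lt_div_iff₀ (by linarith)]
    linarith
  set ρF := rhoF c (rho A (P 0).1) with hρF
  -- the decay
  have hw : Tendsto (fun t => phi A (P t).1 / sq1 A (P t).1) (𝓝[<] T) (𝓝 0) := by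
    refine squeeze_zero' ?_ ?_ (tendsto_a (w0 := w0) (ρ0 := rho A (P 0).1) hδ0 hT hlim)
    · filter_upwards [hev] with t ht
      exact div_nonneg (phi_nonneg hA _) (facts t ht).2.2.1.le
    · filter_upwards [hev] with t ht
      have := (facts t ht).2.2.2.2.2.1
      rw [(facts t ht).2.2.2.1] at this
      exact this
  have hsw : Tendsto (fun t => Real.sqrt (phi A (P t).1 / sq1 A (P t).1 / 8)) (𝓝[<] T)
      (𝓝 0) := by
    have := (hw.div_const 8).sqrt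
    simpa using this
  -- bound of rho by the square norm of the first part
  have hrn : ∀ t ∈ Ico 0 T, ‖p1 A (P t).1‖⁻¹ * ρF t
      ≤ Real.sqrt (1 + w0 / 8) * Real.sqrt (ρF t) := by
    intro t ht
    obtain ⟨-, -, f3, f4, f5, -⟩ := facts t ht
    have hle := rho_le hA f3 f5
    rw [f4] at hle
    have hρ0 : 0 ≤ ρF t := ((hT t).2 ht.2).le
    rw [← Real.sqrt_mul (by positivity)]
    refine Real.le_sqrt_of_sq_le ?_
    rw [mul_pow, inv_pow, ← sq1, inv_mul_eq_div, div_le_iff₀ f3]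
    nlinarith
  have hsr : Tendsto (fun t => Real.sqrt (1 + w0 / 8) * Real.sqrt (ρF t)) (𝓝[<] T) (𝓝 0) := by
    simpa using (hlim.sqrt).const_mul (Real.sqrt (1 + w0 / 8))
  set x0 := (P 0).1 with hx0
  have hfst : Tendsto (fun t => ‖p1 A (P t).1‖⁻¹ •
      ((P t).1 - Real.exp (3 * c * T) • p0 A x0)) (𝓝[<] T)
      (𝓝 (‖p1 A x0‖⁻¹ • p1 A x0)) := by
    rw [tendsto_iff_norm_sub_tendsto_zero]
    have hb : Tendsto (fun t => M * ‖p0 A x0‖ * (Real.sqrt (1 + w0 / 8) * Real.sqrt (ρF t))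
        + Real.sqrt (phi A (P t).1 / sq1 A (P t).1 / 8)) (𝓝[<] T) (𝓝 0) := by
      simpa using (hsr.const_mul (M * ‖p0 A x0‖)).add hsw
    refine squeeze_zero' (Eventually.of_forall fun _ => norm_nonneg _) ?_ hb
    filter_upwards [hev] with t ht
    obtain ⟨f1, ⟨b, hb0, f2⟩, f3, f4, f5, -⟩ := facts t ht
    have hn := norm_p1_pos f3
    have e1 : ‖p1 A (P t).1‖⁻¹ • ((P t).1 - Real.exp (3 * c * T) • p0 A x0)
        - ‖p1 A x0‖⁻¹ • p1 A x0
        = ‖p1 A (P t).1‖⁻¹ • ((Real.exp (3 * c * t) - Real.exp (3 * c * T)) • p0 A x0)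
          + ‖p1 A (P t).1‖⁻¹ • p2 A (P t).1 := by
      rw [← dir_const hb0 f2]
      have e2 := p_sum hA (P t).1
      rw [f1] at e2
      nth_rewrite 2 [← e2]
      module
    rw [e1]
    refine (norm_add_le _ _).trans (add_le_add ?_ ?_)
    · rw [norm_smul, norm_smul, norm_inv, norm_norm, Real.norm_eq_abs]
      calc ‖p1 A (P t).1‖⁻¹ * (|Real.exp (3 * c * t) - Real.exp (3 * c * T)| * ‖p0 A x0‖)
          ≤ ‖p1 A (P t).1‖⁻¹ * ((M * ρF t) * ‖p0 A x0‖) := by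
            gcongr
            exact hTM t ht.2.le
        _ = M * ‖p0 A x0‖ * (‖p1 A (P t).1‖⁻¹ * ρF t) := by ring
        _ ≤ _ := mul_le_mul_of_nonneg_left (hrn t ht) (by positivity)
    · rw [norm_smul, norm_inv, norm_norm]
      exact norm_p2_div hA f3
  have hsnd : Tendsto (fun t => ‖p1 A (P t).1‖⁻¹ *
      ((P t).2 - Real.exp (3 * c * T) * (P 0).2)) (𝓝[<] T) (𝓝 0) := by
    have hb : Tendsto (fun t => M * |(P 0).2| * (Real.sqrt (1 + w0 / 8) * Real.sqrt (ρF t)))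
        (𝓝[<] T) (𝓝 0) := by
      simpa using hsr.const_mul (M * |(P 0).2|)
    refine squeeze_zero_norm' ?_ hb
    filter_upwards [hev] with t ht
    obtain ⟨-, -, -, -, -, -, f7⟩ := facts t ht
    rw [f7, ← sub_mul, norm_mul, norm_mul, norm_inv, norm_norm, Real.norm_eq_abs,
      Real.norm_eq_abs]
    calc ‖p1 A (P t).1‖⁻¹ * (|Real.exp (3 * c * t) - Real.exp (3 * c * T)| * |(P 0).2|)
        ≤ ‖p1 A (P t).1‖⁻¹ * ((M * ρF t) * |(P 0).2|) := by
          gcongr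
          exact hTM t ht.2.le
      _ = M * |(P 0).2| * (‖p1 A (P t).1‖⁻¹ * ρF t) := by ring
      _ ≤ _ := mul_le_mul_of_nonneg_left (hrn t ht) (by positivity)
  exact hfst.prodMk_nhds hsnd

end Pool.Agent.H4ac
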