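import Pool.Agent.H.MP_4ac55f_gt.CaseA

/-! The two alternatives, assembled. -/

open scoped InnerProductSpace Topology
open Filter Set

namespace Pool.Agent.H4ac

variable {E : Type} [NormedAddCommGroup E] [InnerProductSpace ℝ E] [FiniteDimensional ℝ E]
variable {A : Fin 3 → E →ₗ[ℝ] E} {c : ℝ}
set_option linter.unusedSectionVars false

theorem sq1_le_rho (x : E) : sq1 A x ≤ rho A x := by
  unfold rho
  have := sq_nonneg ‖p2 A x‖
  linarith

/-- The first alternative. -/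
theorem caseA (hA : IsSU2 A) {P0 : E × ℝ} (hP : IsPoint c P0) (h1 : 0 < sq1 A P0.1)
    (h2 : phi A P0.1 < 10 * sq1 A P0.1) (hc : c * rho A P0.1 < 1) :
    ∃ T : ℝ, 0 < T ∧ ∃ P : ℝ → E × ℝ, P 0 = P0 ∧ IsMCF c A (Ico 0 T) P ∧
      (∀ T' : ℝ, 0 < T' → ∀ Q : ℝ → E × ℝ, Q 0 = P0 → IsMCF c A (Ico 0 T') Q →
        T' ≤ T ∧ ∀ t ∈ Ico 0 T', Q t = P t) ∧
      ∃ (L : E × ℝ) (w : E), IsPoint c L ∧ (∀ a, A a L.1 = 0) ∧
        Tendsto P (𝓝[<] T) (𝓝 L) ∧ IsRound A w ∧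
        Tendsto (fun t => ‖(P t - L).1‖⁻¹ • (P t - L)) (𝓝[<] T) (𝓝 (w, 0)) := by
  have hρ0 : 0 < rho A P0.1 := h1.trans_le (sq1_le_rho _)
  obtain ⟨T, M, hT0, hM, hT, hTe, hTM, hlim⟩ := exists_T hρ0 hc
  have hJ : ∀ T : ℝ, ∀ t ∈ Ico 0 T, 0 ≤ t ∧ Icc 0 t ⊆ Ico 0 T := fun T t ht =>
    ⟨ht.1, fun s hs => ⟨hs.1, hs.2.trans_lt ht.2⟩⟩
  obtain ⟨P, hP0, hPf⟩ := exists_flow hA hP h1 h2 (J := Ico 0 T) ⟨le_rfl, hT0⟩ (hJ T)
    (fun t ht => ⟨(t + T) / 2, ⟨by linarith [ht.1, ht.2], by linarith [ht.2]⟩,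
      by linarith [ht.2]⟩)
    (fun t ht => (hT t).2 ht.2)
  refine ⟨T, hT0, P, hP0, hPf, ?_, ?_⟩
  · intro T' hT' Q hQ0 hQ
    have hle : T' ≤ T := by
      by_contra hcon
      rw [not_le] at hcon
      have hmem : T ∈ Ico 0 T' := ⟨hT0.le, hcon⟩
      obtain ⟨-, -, f3, f4, -⟩ := flow_facts hA (hJ T') hQ (by rw [hQ0]; exact h1)
        (by rw [hQ0]; exact h2) T hmem
      have : 0 < rhoF c (rho A P0.1) T := by
        rw [← hQ0, ← f4]
        exact f3.trans_le (sq1_le_rho _)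
      exact absurd ((hT T).1 this) (lt_irrefl _)
    exact ⟨hle, fun t ht => flow_unique hA (hJ T) (hJ T') hPf hQ (by rw [hQ0, hP0])
      ⟨ht.1, ht.2.trans_le hle⟩ ht⟩
  · have hd := dir_a hA hT0 hM hPf (by rw [hP0]; exact h1) (by rw [hP0]; exact h2)
      (by rw [hP0]; exact hT) (by rw [hP0]; exact hTM) (by rw [hP0]; exact hlim)
    have facts := flow_facts hA (hJ T) hPf (by rw [hP0]; exact h1) (by rw [hP0]; exact h2)
    rw [hP0] at hd facts
    set L : E × ℝ := (Real.exp (3 * c * T) • p0 A P0.1, Real.exp (3 * c * T) * P0.2) with hL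
    have hev : ∀ᶠ t in 𝓝[<] T, t ∈ Ico 0 T := Ico_mem_nhdsLT hT0
    have hp1 : p1 A P0.1 ≠ 0 := norm_ne_zero_iff.1 (norm_p1_pos h1).ne'
    have hr := isRound_of_V1 hA (p1_mem P0.1) hp1
    refine ⟨L, ‖p1 A P0.1‖⁻¹ • p1 A P0.1, ?_, ?_, ?_, hr, ?_⟩
    · refine ⟨fun hc0 => ?_, fun hc0 => ?_, fun hc0 => ?_⟩
      · have h3 := hP.1 hc0
        unfold form at h3 ⊢
        rw [real_inner_self_eq_norm_sq, norm_sq_split hA] at h3
        rw [hL, real_inner_self_eq_norm_sq, norm_smul, Real.norm_eq_abs, mul_pow, sq_abs]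
        have e : Real.exp (6 * c * T) = Real.exp (3 * c * T) ^ 2 := by
          rw [← Real.exp_nat_mul]
          congr 1
          push_cast
          ring
        rw [e] at hTe
        set X := Real.exp (3 * c * T)
        linear_combination X ^ 2 * h3 + hTe
      · change Real.exp (3 * c * T) * P0.2 = 0
        rw [hP.2.1 hc0, mul_zero]
      · exact mul_pos (Real.exp_pos _) (hP.2.2 hc0)
    · intro a
      change A a (Real.exp (3 * c * T) • p0 A P0.1) = 0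
      rw [map_smul, A_V0 hA (p0_mem _), smul_zero]
    · have hn : Tendsto (fun t => ‖p1 A (P t).1‖) (𝓝[<] T) (𝓝 0) := by
        have hs : Tendsto (fun t => Real.sqrt (rhoF c (rho A P0.1) t)) (𝓝[<] T) (𝓝 0) := by
          simpa using hlim.sqrt
        refine squeeze_zero' (Eventually.of_forall fun _ => norm_nonneg _) ?_ hs
        filter_upwards [hev] with t ht
        obtain ⟨-, -, f3, f4, -⟩ := facts t ht
        rw [← f4]
        exact Real.le_sqrt_of_sq_le (sq1_le_rho _)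
      have h3 := hn.smul hd
      rw [zero_smul] at h3
      have h4 : Tendsto (fun t => P t - L) (𝓝[<] T) (𝓝 0) := by
        refine h3.congr' ?_
        filter_upwards [hev] with t ht
        obtain ⟨-, -, f3, -⟩ := facts t ht
        rw [smul_smul, mul_inv_cancel₀ (norm_p1_pos f3).ne', one_smul]
      simpa using h4.add_const L
    · refine tendsto_dir hr.1 ?_ hd
      filter_upwards [hev] with t ht
      obtain ⟨-, -, f3, -⟩ := facts t ht
      exact norm_p1_pos f3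

/-- The second alternative. -/
theorem caseB (hA : IsSU2 A) {P0 : E × ℝ} (hP : IsPoint c P0) (h1 : 0 < sq1 A P0.1)
    (h2 : phi A P0.1 < 10 * sq1 A P0.1) (hc : 1 ≤ c * rho A P0.1) :
    0 < c ∧ ∃ P : ℝ → E × ℝ, P 0 = P0 ∧ IsMCF c A (Ici 0) P ∧
      (∀ T' : ℝ, 0 < T' → ∀ Q : ℝ → E × ℝ, Q 0 = P0 → IsMCF c A (Ico 0 T') Q →
        ∀ t ∈ Ico 0 T', Q t = P t) ∧
      ∃ w : E, IsRound A w ∧ Tendsto P atTop (𝓝 ((Real.sqrt c)⁻¹ • w, 0)) := by
  have hρ0 : 0 < rho A P0.1 := h1.trans_le (sq1_le_rho _)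
  have hc0 : 0 < c := by
    by_contra hcon
    have := mul_nonpos_of_nonpos_of_nonneg (not_lt.1 hcon) hρ0.le
    linarith
  have hP2 : P0.2 = 0 := hP.2.1 hc0.le
  have h3 := hP.1 hc0.ne'
  unfold form at h3
  rw [real_inner_self_eq_norm_sq, norm_sq_split hA, hP2] at h3
  have hp0 : ‖p0 A P0.1‖ ^ 2 = 0 := by
    have h4 : c * ‖p0 A P0.1‖ ^ 2 ≤ 0 := by nlinarith
    have h5 := sq_nonneg ‖p0 A P0.1‖
    nlinarith
  have hcρ : c * rho A P0.1 = 1 := by rw [hp0] at h3; linarith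
  have hρc : rho A P0.1 = 1 / c := by
    rw [eq_div_iff hc0.ne', mul_comm]
    exact hcρ
  have hp00 : p0 A P0.1 = 0 := by simpa using hp0
  have hF : ∀ t, rhoF c (rho A P0.1) t = 1 / c := fun t => by
    rw [rhoF, if_neg hc0.ne', hρc, sub_self, zero_mul, add_zero]
  have hJ : ∀ t ∈ Ici (0 : ℝ), 0 ≤ t ∧ Icc 0 t ⊆ Ici 0 := fun t ht =>
    ⟨ht, fun s hs => hs.1⟩
  have hJ' : ∀ T : ℝ, ∀ t ∈ Ico 0 T, 0 ≤ t ∧ Icc 0 t ⊆ Ico 0 T := fun T t ht =>
    ⟨ht.1, fun s hs => ⟨hs.1, hs.2.trans_lt ht.2⟩⟩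
  obtain ⟨P, hP0, hPf⟩ := exists_flow hA hP h1 h2 (J := Ici 0) (mem_Ici.2 le_rfl) hJ
    (fun t ht => ⟨t + 1, mem_Ici.2 (by have := mem_Ici.1 ht; linarith), by linarith⟩)
    (fun t _ => by rw [hF]; positivity)
  refine ⟨hc0, P, hP0, hPf, ?_, ?_⟩
  · intro T' _ Q hQ0 hQ t ht
    exact flow_unique hA hJ (hJ' T') hPf hQ (by rw [hQ0, hP0]) (mem_Ici.2 ht.1) ht
  · have facts := flow_facts hA hJ hPf (by rw [hP0]; exact h1) (by rw [hP0]; exact h2)
    rw [hP0] at facts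
    have hp1 : p1 A P0.1 ≠ 0 := norm_ne_zero_iff.1 (norm_p1_pos h1).ne'
    have hr := isRound_of_V1 hA (p1_mem P0.1) hp1
    refine ⟨‖p1 A P0.1‖⁻¹ • p1 A P0.1, hr, ?_⟩
    set w := ‖p1 A P0.1‖⁻¹ • p1 A P0.1 with hwd
    set w0 := phi A P0.1 / sq1 A P0.1 with hw0
    have hw00 : 0 ≤ w0 := div_nonneg (phi_nonneg hA _) h1.le
    have hw10 : w0 < 10 := by
      rw [hw0, div_lt_iff₀ h1]
      exact h2
    set δ := 12 / (w0 + 2) - 1 with hδ
    have hδ0 : 0 < δ := by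
      rw [hδ, sub_pos, lt_div_iff₀ (by linarith)]
      linarith
    have hev : ∀ᶠ t : ℝ in atTop, t ∈ Ici (0 : ℝ) := Ici_mem_atTop 0
    have hw : Tendsto (fun t => phi A (P t).1 / sq1 A (P t).1) atTop (𝓝 0) := by
      refine squeeze_zero' ?_ ?_ (tendsto_b (w0 := w0) hc0 hδ0)
      · filter_upwards [hev] with t ht
        exact div_nonneg (phi_nonneg hA _) (facts t ht).2.2.1.le
      · filter_upwards [hev] with t ht
        have := (facts t ht).2.2.2.2.2.1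
        rw [(facts t ht).2.2.2.1, hF, hρc, sub_self, mul_zero, add_zero] at this
        exact this
    have hb : ∀ t ∈ Ici (0 : ℝ), ‖p2 A (P t).1‖ ^ 2
        ≤ phi A (P t).1 / sq1 A (P t).1 * (1 / (8 * c)) := by
      intro t ht
      obtain ⟨-, -, f3, f4, -⟩ := facts t ht
      have h5 := norm_p2_le hA (P t).1
      have h6 : sq1 A (P t).1 ≤ 1 / c := by
        rw [← hF t, ← f4]
        exact sq1_le_rho _
      have h7 : phi A (P t).1 = phi A (P t).1 / sq1 A (P t).1 * sq1 A (P t).1 :=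
        (div_mul_cancel₀ _ f3.ne').symm
      have h8 : 0 ≤ phi A (P t).1 / sq1 A (P t).1 := div_nonneg (phi_nonneg hA _) f3.le
      have h9 : 8 * ‖p2 A (P t).1‖ ^ 2 ≤ phi A (P t).1 / sq1 A (P t).1 * (1 / c) := by
        refine h5.trans ?_
        conv_lhs => rw [h7]
        exact mul_le_mul_of_nonneg_left h6 h8
      have e : (1 : ℝ) / (8 * c) = 1 / c / 8 := by
        rw [div_div, mul_comm]
      rw [e]
      linarith
    have hp2s : Tendsto (fun t => ‖p2 A (P t).1‖ ^ 2) atTop (𝓝 0) := by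
      have hz : Tendsto (fun t => phi A (P t).1 / sq1 A (P t).1 * (1 / (8 * c))) atTop
          (𝓝 0) := by
        have := hw.mul_const (1 / (8 * c))
        rwa [zero_mul] at this
      refine squeeze_zero' (Eventually.of_forall fun _ => sq_nonneg _) ?_ hz
      filter_upwards [hev] with t ht
      exact hb t ht
    have hp2 : Tendsto (fun t => p2 A (P t).1) atTop (𝓝 0) := by
      rw [tendsto_zero_iff_norm_tendsto_zero]
      have := hp2s.sqrt
      simpa [Real.sqrt_sq (norm_nonneg _)] using this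
    have hp1t : Tendsto (fun t => ‖p1 A (P t).1‖) atTop (𝓝 (Real.sqrt c)⁻¹) := by
      have h5 : Tendsto (fun t => Real.sqrt (1 / c - ‖p2 A (P t).1‖ ^ 2)) atTop
          (𝓝 (Real.sqrt c)⁻¹) := by
        have := (hp2s.const_sub (1 / c)).sqrt
        rw [sub_zero] at this
        have e : Real.sqrt (1 / c) = (Real.sqrt c)⁻¹ := by rw [one_div, Real.sqrt_inv]
        rwa [e] at this
      refine h5.congr' ?_
      filter_upwards [hev] with t ht
      obtain ⟨-, -, f3, f4, -⟩ := facts t ht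
      rw [hF, rho] at f4
      have : 1 / c - ‖p2 A (P t).1‖ ^ 2 = ‖p1 A (P t).1‖ ^ 2 := by
        rw [← f4, sq1]
        ring
      rw [this, Real.sqrt_sq (norm_nonneg _)]
    have hfst : Tendsto (fun t => (P t).1) atTop (𝓝 ((Real.sqrt c)⁻¹ • w)) := by
      have h5 := (hp1t.smul_const w).add hp2
      rw [add_zero] at h5
      refine h5.congr' ?_
      filter_upwards [hev] with t ht
      obtain ⟨f1, ⟨b, hb0, f2⟩, f3, -⟩ := facts t ht
      have e2 := p_sum hA (P t).1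
      rw [f1, hp00, smul_zero, zero_add] at e2
      rw [hwd, ← dir_const hb0 f2, smul_smul, mul_inv_cancel₀ (norm_p1_pos f3).ne', one_smul]
      exact e2
    have hsnd : Tendsto (fun t => (P t).2) atTop (𝓝 0) := by
      refine tendsto_const_nhds.congr' ?_
      filter_upwards [hev] with t ht
      obtain ⟨-, -, -, -, -, -, f7⟩ := facts t ht
      rw [f7, hP2, mul_zero]
    exact hfst.prodMk_nhds hsnd

end Pool.Agent.H4ac
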