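import Mathlib

/-!
# Homogeneous submanifolds of dimension three: definitions

`A 0, A 1, A 2` are the infinitesimal generators of an isometric action of SU(2) on the
Euclidean space `E` (extended trivially to `E x R`).  The space form of curvature `c` sits in
`E x R` with the form `<u,v> - u' v'`:
* `c = 0`: the points with second coordinate zero;
* `c > 0`: the points of norm square `1/c` with second coordinate zero;
* `c < 0`: the points of form square `1/c` with positive second coordinate.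
-/

open scoped InnerProductSpace Topology
open Filter

noncomputable section

namespace Pool.Agent.H4ac

variable {E : Type} [NormedAddCommGroup E] [InnerProductSpace ℝ E] [FiniteDimensional ℝ E]

/-- Generators of an isometric action of SU(2) on `E`: skew maps with `[A_0, A_1] = 2 A_2`,
`[A_1, A_2] = 2 A_0`, `[A_2, A_0] = 2 A_1`. -/
structure IsSU2 (A : Fin 3 → E →ₗ[ℝ] E) : Prop where
  skew : ∀ a x y, inner ℝ (A a x) y = -inner ℝ x (A a y)
  c01 : ∀ x, A 0 (A 1 x) - A 1 (A 0 x) = (2 : ℝ) • A 2 x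
  c12 : ∀ x, A 1 (A 2 x) - A 2 (A 1 x) = (2 : ℝ) • A 0 x
  c20 : ∀ x, A 2 (A 0 x) - A 0 (A 2 x) = (2 : ℝ) • A 1 x

/-- The form of the ambient vector space `E x R`. -/
def form (u v : E × ℝ) : ℝ := inner ℝ u.1 v.1 - u.2 * v.2

/-- `P` lies in the space form of curvature `c`. -/
def IsPoint (c : ℝ) (P : E × ℝ) : Prop :=
  (c ≠ 0 → c * form P P = 1) ∧ (0 ≤ c → P.2 = 0) ∧ (c < 0 → 0 < P.2)

/-- The induced metric of the orbit at `x`, in the frame `A_a x`. -/
def gram (A : Fin 3 → E →ₗ[ℝ] E) (x : E) : Matrix (Fin 3) (Fin 3) ℝ :=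
  Matrix.of fun a b => inner ℝ (A a x) (A b x)

/-- The tangent space of the orbit. -/
def tangent (A : Fin 3 → E →ₗ[ℝ] E) (x : E) : Submodule ℝ E :=
  Submodule.span ℝ (Set.range fun a => A a x)

/-- The second fundamental form of the orbit of `P` in the space form of curvature `c`, on the
tangent vectors `A_a P`, `A_b P`: the second derivative `A_a A_b P`, minus its tangential part,
plus `c g_ab P`. -/
def sff (c : ℝ) (A : Fin 3 → E →ₗ[ℝ] E) (P : E × ℝ) (a b : Fin 3) : E × ℝ :=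
  (A a (A b P.1) - (tangent A P.1).starProjection (A a (A b P.1))
      + (c * gram A P.1 a b) • P.1,
    c * gram A P.1 a b * P.2)

/-- The mean curvature vector (the trace of the second fundamental form). -/
def mcv (c : ℝ) (A : Fin 3 → E →ₗ[ℝ] E) (P : E × ℝ) : E × ℝ :=
  ∑ a, ∑ b, (gram A P.1)⁻¹ a b • sff c A P a b

/-- The square length of the tangent vector `sum X_a A_a P`. -/
def lenSq (A : Fin 3 → E →ₗ[ℝ] E) (P : E × ℝ) (X : Fin 3 → ℝ) : ℝ :=
  ∑ a, ∑ b, X a * X b * gram A P.1 a b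

/-- The Ricci curvature of the orbit on the tangent vector `sum X_a A_a P` (Gauss equation). -/
def ric (c : ℝ) (A : Fin 3 → E →ₗ[ℝ] E) (P : E × ℝ) (X : Fin 3 → ℝ) : ℝ :=
  2 * c * lenSq A P X
    + (∑ a, ∑ b, X a * X b * form (sff c A P a b) (mcv c A P))
    - ∑ a, ∑ b, ∑ d, ∑ e, X a * X b * (gram A P.1)⁻¹ d e
        * form (sff c A P a d) (sff c A P b e)

/-- The pinching condition `Ric > (9/10) (c + |H|^2/9)` (weaker than the one of the problem,
which has the factor one). -/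
def Pinched (c : ℝ) (A : Fin 3 → E →ₗ[ℝ] E) (P : E × ℝ) : Prop :=
  ∀ X : Fin 3 → ℝ, X ≠ 0 →
    9 / 10 * (c + form (mcv c A P) (mcv c A P) / 9) * lenSq A P X < ric c A P X

/-- `P` moves by mean curvature flow on the time interval `I`, with three dimensional orbits. -/
def IsMCF (c : ℝ) (A : Fin 3 → E →ₗ[ℝ] E) (I : Set ℝ) (P : ℝ → E × ℝ) : Prop :=
  ∀ t ∈ I, IsPoint c (P t) ∧ LinearIndependent ℝ (fun a => A a (P t).1) ∧
    HasDerivWithinAt P (mcv c A (P t)) I t

/-- The orbit of `w` is the unit sphere of the four dimensional space spanned by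
`w, A_0 w, A_1 w, A_2 w`. -/
def IsRound (A : Fin 3 → E →ₗ[ℝ] E) (w : E) : Prop :=
  ‖w‖ = 1 ∧ ∀ u : Fin 3 → ℝ, ∑ a, u a • A a (∑ b, u b • A b w) = -(∑ a, u a ^ 2) • w

/-! ## Working definitions -/

/-- The Casimir operator `- sum A_a A_a`. -/
def cas (A : Fin 3 → E →ₗ[ℝ] E) : E →ₗ[ℝ] E := -∑ a, A a ∘ₗ A a

/-- The operator `- sum Q_ab A_a A_b`. -/
def dop (A : Fin 3 → E →ₗ[ℝ] E) (Q : Matrix (Fin 3) (Fin 3) ℝ) : E →ₗ[ℝ] E :=
  -∑ a, ∑ b, Q a b • (A a ∘ₗ A b)

/-- The fixed vectors. -/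
def V0 (A : Fin 3 → E →ₗ[ℝ] E) : Submodule ℝ E := LinearMap.ker (cas A)

/-- The part of spin one half. -/
def V1 (A : Fin 3 → E →ₗ[ℝ] E) : Submodule ℝ E :=
  LinearMap.ker (cas A - (3 : ℝ) • LinearMap.id)

/-- The part of spin at least one. -/
def V2 (A : Fin 3 → E →ₗ[ℝ] E) : Submodule ℝ E := (V0 A ⊔ V1 A)ᗮ

/-- Projection to the fixed vectors. -/
def p0 (A : Fin 3 → E →ₗ[ℝ] E) : E →L[ℝ] E := (V0 A).starProjection

/-- Projection to the part of spin one half. -/
def p1 (A : Fin 3 → E →ₗ[ℝ] E) : E →L[ℝ] E := (V1 A).starProjection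

/-- Projection to the part of spin at least one. -/
def p2 (A : Fin 3 → E →ₗ[ℝ] E) : E →L[ℝ] E := (V2 A).starProjection

/-- The square norm of the part of spin one half. -/
def sq1 (A : Fin 3 → E →ₗ[ℝ] E) (x : E) : ℝ := ‖p1 A x‖ ^ 2

/-- The Casimir energy of the part of spin at least one. -/
def phi (A : Fin 3 → E →ₗ[ℝ] E) (x : E) : ℝ :=
  inner ℝ (cas A (p2 A x)) (p2 A x)

/-- The frame `B` is the frame `A` rotated by `R`. -/
def IsRot (R : Matrix (Fin 3) (Fin 3) ℝ) (A B : Fin 3 → E →ₗ[ℝ] E) : Prop :=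
  R * R.transpose = 1 ∧ R.det = 1 ∧ ∀ i x, B i x = ∑ j, R i j • A j x

end Pool.Agent.H4ac
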