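import Pool.Agent.H.MP_4ac55f_gt.Cas

/-! The Ricci curvature of an orbit with a diagonal metric. -/

open scoped InnerProductSpace Topology
open Filter

namespace Pool.Agent.H4ac

variable {E : Type} [NormedAddCommGroup E] [InnerProductSpace ℝ E] [FiniteDimensional ℝ E]
variable {A : Fin 3 → E →ₗ[ℝ] E}
set_option linter.unusedSectionVars false

theorem SffB_proj {x : E} {d : Fin 3 → ℝ} (hd : gram A x = Matrix.diagonal d)
    (hpos : ∀ i, 0 < d i) (v : E) :
    (tangent A x).starProjection v = ∑ e, (inner ℝ (A e x) v / d e) • A e x := by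
  have hg : ∀ a b, inner ℝ (A a x) (A b x) = if a = b then d a else 0 := by
    intro a b
    have := congrFun (congrFun hd a) b
    rw [gram, Matrix.of_apply, Matrix.diagonal_apply] at this
    exact this
  apply Submodule.eq_starProjection_of_mem_of_inner_eq_zero
  · exact Submodule.sum_mem _ fun e _ => Submodule.smul_mem _ _ (Submodule.subset_span ⟨e, rfl⟩)
  · intro w hw
    refine Submodule.span_induction (p := fun w _ =>
      inner ℝ (v - ∑ e, (inner ℝ (A e x) v / d e) • A e x) w = 0) ?_ ?_ ?_ ?_ hw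
    · rintro _ ⟨a, rfl⟩
      have hda : d a ≠ 0 := (hpos a).ne'
      simp only [inner_sub_left, sum_inner, real_inner_smul_left, hg]
      rw [Finset.sum_eq_single a]
      · rw [if_pos rfl, real_inner_comm, div_mul_cancel₀ _ hda, sub_self]
      · intro b _ hb
        rw [if_neg hb, mul_zero]
      · simp
    · simp
    · intro y z _ _ hy hz
      rw [inner_add_right, hy, hz, add_zero]
    · intro t y _ hy
      rw [inner_smul_right, hy, mul_zero]

theorem SffB_inner {x : E} {d : Fin 3 → ℝ} (hd : gram A x = Matrix.diagonal d)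
    (hpos : ∀ i, 0 < d i) (v w : E) :
    inner ℝ (v - (tangent A x).starProjection v) (w - (tangent A x).starProjection w) =
      inner ℝ v w - ∑ e, inner ℝ (A e x) v * inner ℝ (A e x) w / d e := by
  have h1 : inner ℝ (v - (tangent A x).starProjection v) ((tangent A x).starProjection w) = 0 :=
    Submodule.inner_left_of_mem_orthogonal (Submodule.starProjection_apply_mem _ _)
      (Submodule.sub_starProjection_mem_orthogonal v)
  rw [inner_sub_right, h1, sub_zero, inner_sub_left, SffB_proj hd hpos, sum_inner]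
  congr 1
  refine Finset.sum_congr rfl fun e _ => ?_
  rw [real_inner_smul_left]
  ring

/-- the normal part of `A_a A_b x` -/
noncomputable def SffBn (A : Fin 3 → E →ₗ[ℝ] E) (x : E) (a b : Fin 3) : E :=
  A a (A b x) - (tangent A x).starProjection (A a (A b x))

theorem SffBn_inner_self (hA : IsSU2 A) (x : E) (a b : Fin 3) :
    inner ℝ (SffBn A x a b) x = -gram A x a b := by
  have h1 : inner ℝ ((tangent A x).starProjection (A a (A b x))) x = 0 := by
    have hx : x ∈ (tangent A x)ᗮ := by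
      rw [Submodule.mem_orthogonal]
      intro u hu
      refine Submodule.span_induction (p := fun u _ => inner ℝ u x = 0) ?_ ?_ ?_ ?_ hu
      · rintro _ ⟨e, rfl⟩
        exact inner_self_zero hA e x
      · simp
      · intro y z _ _ hy hz
        rw [inner_add_left, hy, hz, add_zero]
      · intro t y _ hy
        rw [real_inner_smul_left, hy, mul_zero]
    exact Submodule.inner_right_of_mem_orthogonal (Submodule.starProjection_apply_mem _ _) hx
  rw [SffBn, inner_sub_left, h1, sub_zero, hA.skew, gram, Matrix.of_apply, real_inner_comm]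

theorem SffB_form (hA : IsSU2 A) {c : ℝ} {P : E × ℝ} (hP : IsPoint c P) (a b a' b' : Fin 3) :
    form (sff c A P a b) (sff c A P a' b') =
      inner ℝ (SffBn A P.1 a b) (SffBn A P.1 a' b') - c * gram A P.1 a b * gram A P.1 a' b' := by
  have h1 := SffBn_inner_self hA P.1 a b
  have h2 := SffBn_inner_self hA P.1 a' b'
  have hc : c ^ 2 * (inner ℝ P.1 P.1 - P.2 * P.2) = c := by
    by_cases h0 : c = 0
    · rw [h0]; ring
    · have := hP.1 h0
      unfold form at this
      calc c ^ 2 * (inner ℝ P.1 P.1 - P.2 * P.2) = c * (c * (inner ℝ P.1 P.1 - P.2 * P.2)) := by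
            ring
        _ = c := by rw [this, mul_one]
  have e1 : (sff c A P a b).1 = SffBn A P.1 a b + (c * gram A P.1 a b) • P.1 := rfl
  have e2 : (sff c A P a' b').1 = SffBn A P.1 a' b' + (c * gram A P.1 a' b') • P.1 := rfl
  have e3 : (sff c A P a b).2 = c * gram A P.1 a b * P.2 := rfl
  have e4 : (sff c A P a' b').2 = c * gram A P.1 a' b' * P.2 := rfl
  rw [form, e1, e2, e3, e4, inner_add_left, inner_add_right, inner_add_right,
    real_inner_smul_left, real_inner_smul_right, real_inner_smul_left, real_inner_smul_right, h1,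
    real_inner_comm (SffBn A P.1 a' b') P.1, h2]
  linear_combination (gram A P.1 a b * gram A P.1 a' b') * hc

theorem SffB_mcv {c : ℝ} {P : E × ℝ} {d : Fin 3 → ℝ}
    (hd : gram A P.1 = Matrix.diagonal d) (hpos : ∀ i, 0 < d i) (u : E × ℝ) :
    form u (mcv c A P) = ∑ a, (d a)⁻¹ * form u (sff c A P a a) := by
  have hQ : (gram A P.1)⁻¹ = Matrix.diagonal fun i => (d i)⁻¹ := by
    rw [hd]
    apply Matrix.inv_eq_right_inv
    rw [Matrix.diagonal_mul_diagonal, ← Matrix.diagonal_one]
    congr 1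
    funext i
    exact mul_inv_cancel₀ (hpos i).ne'
  rw [mcv, hQ]
  simp only [Matrix.diagonal_apply, ite_smul, zero_smul, Finset.sum_ite_eq, Finset.mem_univ,
    if_true, form, Prod.fst_sum, Prod.snd_sum, Prod.smul_fst, Prod.smul_snd, inner_sum,
    real_inner_smul_right, smul_eq_mul, Finset.mul_sum]
  rw [← Finset.sum_sub_distrib]
  refine Finset.sum_congr rfl fun a _ => ?_
  ring

/-- Milnor's formula for the Ricci curvature of a left invariant metric, from the Gauss
equation. -/
theorem ric_diag (hA : IsSU2 A) {c : ℝ} {P : E × ℝ} (hP : IsPoint c P) {d : Fin 3 → ℝ}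
    (hd : gram A P.1 = Matrix.diagonal d) (hpos : ∀ i, 0 < d i) :
    ric c A P (Pi.single 2 1) = 2 * (d 2 ^ 2 - (d 0 - d 1) ^ 2) / (d 0 * d 1) := by
  obtain ⟨x, hx⟩ : ∃ x, x = P.1 := ⟨_, rfl⟩
  have hg : ∀ a b, inner ℝ (A a x) (A b x) = if a = b then d a else 0 := by
    intro a b
    have := congrFun (congrFun hd a) b
    rw [gram, Matrix.of_apply, Matrix.diagonal_apply, ← hx] at this
    exact this
  have hG : ∀ a b, gram A P.1 a b = if a = b then d a else 0 := by
    intro a b
    rw [hd, Matrix.diagonal_apply]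
  have hQ : (gram A P.1)⁻¹ = Matrix.diagonal fun i => (d i)⁻¹ := by
    rw [hd]
    apply Matrix.inv_eq_right_inv
    rw [Matrix.diagonal_mul_diagonal, ← Matrix.diagonal_one]
    congr 1
    funext i
    exact mul_inv_cancel₀ (hpos i).ne'
  -- the numbers `K e a b`
  have hK : ∀ e a b, inner ℝ (A e x) (A a (A b x)) = -inner ℝ (A b x) (A a (A e x)) := by
    intro e a b
    rw [real_inner_comm, hA.skew]
  have hK0 : ∀ a b, inner ℝ (A b x) (A a (A b x)) = 0 := by
    intro a b
    have := hK b a b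
    linarith
  have c01 : ∀ e, inner ℝ (A e x) (A 0 (A 1 x)) - inner ℝ (A e x) (A 1 (A 0 x)) =
      2 * inner ℝ (A e x) (A 2 x) := by
    intro e
    rw [← inner_sub_right, hA.c01, real_inner_smul_right]
  have c12 : ∀ e, inner ℝ (A e x) (A 1 (A 2 x)) - inner ℝ (A e x) (A 2 (A 1 x)) =
      2 * inner ℝ (A e x) (A 0 x) := by
    intro e
    rw [← inner_sub_right, hA.c12, real_inner_smul_right]
  have c20 : ∀ e, inner ℝ (A e x) (A 2 (A 0 x)) - inner ℝ (A e x) (A 0 (A 2 x)) =
      2 * inner ℝ (A e x) (A 1 x) := by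
    intro e
    rw [← inner_sub_right, hA.c20, real_inner_smul_right]
  have k220 : inner ℝ (A 2 x) (A 2 (A 0 x)) = 0 := by
    have h := c20 2
    rw [hK0, hg, if_neg (by decide)] at h
    linarith
  have k221 : inner ℝ (A 2 x) (A 2 (A 1 x)) = 0 := by
    have h := c12 2
    rw [hK0, hg, if_neg (by decide)] at h
    linarith
  have k022 : inner ℝ (A 0 x) (A 2 (A 2 x)) = 0 := by rw [hK, k220, neg_zero]
  have k122 : inner ℝ (A 1 x) (A 2 (A 2 x)) = 0 := by rw [hK, k221, neg_zero]
  have k222 := hK0 2 2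
  have k020 := hK0 2 0
  have k121 := hK0 2 1
  have hp := c01 2
  have hq := c12 0
  have hr := c20 1
  rw [hg, if_pos rfl] at hp hq hr
  rw [hK 0 2 1] at hq
  rw [hK 2 1 0] at hp
  rw [hK 1 0 2] at hr
  -- the two products
  have m0 : inner ℝ (A 2 (A 2 x)) (A 0 (A 0 x)) = inner ℝ (A 2 (A 0 x)) (A 2 (A 0 x))
      - 2 * inner ℝ (A 1 x) (A 2 (A 0 x)) + 2 * inner ℝ (A 0 x) (A 1 (A 2 x)) := by
    have e1 : A 2 (A 0 (A 0 x)) = A 0 (A 2 (A 0 x)) + (2 : ℝ) • A 1 (A 0 x) := by
      rw [← hA.c20 (A 0 x)]; abel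
    have e2 : A 0 (A 2 x) = A 2 (A 0 x) - (2 : ℝ) • A 1 x := by
      rw [← hA.c20 x]; abel
    rw [hA.skew, e1, inner_add_right, real_inner_smul_right, hK 2 1 0,
      skew' hA 0 (A 2 x) (A 2 (A 0 x)), e2, inner_sub_left, real_inner_smul_left]
    ring
  have m1 : inner ℝ (A 2 (A 2 x)) (A 1 (A 1 x)) = inner ℝ (A 2 (A 1 x)) (A 2 (A 1 x))
      - 2 * inner ℝ (A 1 x) (A 2 (A 0 x)) + 2 * inner ℝ (A 2 x) (A 0 (A 1 x)) := by
    have e1 : A 2 (A 1 (A 1 x)) = A 1 (A 2 (A 1 x)) - (2 : ℝ) • A 0 (A 1 x) := by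
      rw [← hA.c12 (A 1 x)]; abel
    have e2 : A 1 (A 2 x) = A 2 (A 1 x) + (2 : ℝ) • A 0 x := by
      rw [← hA.c12 x]; abel
    rw [hA.skew, e1, inner_sub_right, real_inner_smul_right,
      skew' hA 1 (A 2 x) (A 2 (A 1 x)), e2, inner_add_left, real_inner_smul_left, hK 0 2 1]
    ring
  -- the Gauss equation
  have hI := fun a b a' b' => SffB_inner hd hpos (A a (A b P.1)) (A a' (A b' P.1))
  have hF : ∀ a b a' b', form (sff c A P a b) (sff c A P a' b') =
      inner ℝ (A a (A b x)) (A a' (A b' x))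
      - (∑ e, inner ℝ (A e x) (A a (A b x)) * inner ℝ (A e x) (A a' (A b' x)) / d e)
      - c * gram A P.1 a b * gram A P.1 a' b' := by
    intro a b a' b'
    rw [SffB_form hA hP, SffBn, SffBn, hI, hx]
  have d0 := (hpos 0).ne'
  have d1 := (hpos 1).ne'
  have d2 := (hpos 2).ne'
  have n01 : (0 : Fin 3) ≠ 1 := by decide
  have n02 : (0 : Fin 3) ≠ 2 := by decide
  have n12 : (1 : Fin 3) ≠ 2 := by decide
  have hmain : ric c A P (Pi.single 2 1) = 2 * c * d 2 + form (sff c A P 2 2) (mcv c A P)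
      - ∑ e, (d e)⁻¹ * form (sff c A P 2 e) (sff c A P 2 e) := by
    rw [ric, lenSq, hQ]
    simp only [Fin.sum_univ_three, Pi.single_apply, Matrix.diagonal_apply, hG]
    simp [n01, n02, n12, n01.symm, n02.symm, n12.symm]
  rw [hmain, SffB_mcv hd hpos]
  simp only [Fin.sum_univ_three, hF, hG, k220, k221, k022, k122, k222, k020, k121, m0, m1]
  simp only [n01, n02, n12, n01.symm, n02.symm, n12.symm, if_false, if_true, hK 0 2 1]
  generalize inner ℝ (A 2 (A 0 x)) (A 2 (A 0 x)) = u at *
  generalize inner ℝ (A 2 (A 1 x)) (A 2 (A 1 x)) = v at *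
  generalize inner ℝ (A 2 (A 2 x)) (A 2 (A 2 x)) = w at *
  generalize inner ℝ (A 1 x) (A 2 (A 0 x)) = r at *
  generalize inner ℝ (A 2 x) (A 0 (A 1 x)) = p at *
  generalize inner ℝ (A 0 x) (A 1 (A 2 x)) = q at *
  have ep : p = d 2 + d 1 - d 0 := by linarith
  have eq : q = d 2 + d 0 - d 1 := by linarith
  have er : r = d 0 + d 1 - d 2 := by linarith
  rw [ep, eq, er]
  field_simp
  ring

end Pool.Agent.H4ac
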