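import Pool.Agent.H.MP_4ac55f_gt.SffA
import Pool.Agent.H.MP_4ac55f_gt.SffB

/-! The mean curvature vector and the Ricci curvature of an orbit (see the two imported files). -/
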