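import Pool.Agent.H.MP_4ac55f_gt.Spin
import Pool.Agent.H.MP_4ac55f_gt.Sff

/-! The evolution of the quadratic quantities (part B of Dyn). -/

open scoped InnerProductSpace Topology
open Filter

namespace Pool.Agent.H4ac

variable {E : Type} [NormedAddCommGroup E] [InnerProductSpace ℝ E] [FiniteDimensional ℝ E]
variable {A : Fin 3 → E →ₗ[ℝ] E} {c : ℝ}
set_option linter.unusedSectionVars false

/-- The vector field. -/
noncomputable def vf (c : ℝ) (A : Fin 3 → E →ₗ[ℝ] E) (x : E) : E :=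
  -(dop A (gram A x)⁻¹ x) + (3 * c) • x

/-- The points with three dimensional orbit. -/
def Om (A : Fin 3 → E →ₗ[ℝ] E) : Set E := {x | LinearIndependent ℝ (fun a => A a x)}

/-- On the part of spin one half the operator `dop A Q` is the trace of `Q`. -/
theorem dop_V1 (hA : IsSU2 A) {Q : Matrix (Fin 3) (Fin 3) ℝ} (hQ : Q.transpose = Q) {x : E}
    (hx : x ∈ V1 A) : dop A Q x = Q.trace • x := by
  have hs : ∀ a b, Q b a = Q a b := by
    intro a b
    conv_lhs => rw [← hQ]
    rfl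
  have hd : ∀ a, A a (A a x) = -x := by
    intro a
    have h := V1_anti hA hx a a
    rw [if_pos rfl, ← two_smul ℝ (A a (A a x))] at h
    have h2 : (2 : ℝ) • A a (A a x) = (2 : ℝ) • (-x) := by rw [h]; module
    exact (smul_right_injective E (two_ne_zero (α := ℝ))) h2
  have hn : ∀ a b, a ≠ b → A b (A a x) = -A a (A b x) := by
    intro a b hab
    have h := V1_anti hA hx a b
    rw [if_neg hab, zero_smul] at h
    exact eq_neg_of_add_eq_zero_right h
  rw [dop_apply]
  simp only [Fin.sum_univ_three, Matrix.trace, Matrix.diag_apply, hd, hn 0 1 (by decide),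
    hn 0 2 (by decide), hn 1 2 (by decide), hs 0 1, hs 0 2, hs 1 2]
  module

theorem dop_V0 (hA : IsSU2 A) (Q : Matrix (Fin 3) (Fin 3) ℝ) {x : E} (hx : x ∈ V0 A) :
    dop A Q x = 0 := by
  rw [dop_apply]
  simp only [A_V0 hA hx, map_zero, smul_zero, Finset.sum_const_zero, neg_zero]

theorem gram_trace (hA : IsSU2 A) (x : E) : (gram A x).trace = 3 * sq1 A x + phi A x := by
  have h1 : (gram A x).trace = ∑ a, (‖A a (p1 A x)‖ ^ 2 + ‖A a (p2 A x)‖ ^ 2) := by
    unfold Matrix.trace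
    refine Finset.sum_congr rfl fun a _ => ?_
    change inner ℝ (A a x) (A a x) = _
    rw [inner_A_split hA, real_inner_self_eq_norm_sq, real_inner_self_eq_norm_sq]
  rw [h1, Finset.sum_add_distrib, ← inner_cas hA, ← inner_cas hA, mem_V1.1 (p1_mem x),
    real_inner_smul_left, real_inner_self_eq_norm_sq]
  rfl

/-- The square norm of the non fixed part. -/
noncomputable def rho (A : Fin 3 → E →ₗ[ℝ] E) (x : E) : ℝ := sq1 A x + ‖p2 A x‖ ^ 2

variable {p : ℝ → E} {I : Set ℝ} {t : ℝ}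

private theorem DynB_clm (L : E →L[ℝ] E) {v : E} (h : HasDerivWithinAt p v I t) :
    HasDerivWithinAt (fun t => L (p t)) (L v) I t := by
  have h1 := L.hasFDerivAt (x := p t)
  exact h1.comp_hasDerivWithinAt t h

theorem der_p0 (hA : IsSU2 A) (h : HasDerivWithinAt p (vf c A (p t)) I t) :
    HasDerivWithinAt (fun t => p0 A (p t)) ((3 * c) • p0 A (p t)) I t := by
  have h1 := DynB_clm (p0 A) h
  have h2 : p0 A (vf c A (p t)) = (3 * c) • p0 A (p t) := by
    rw [vf, map_add, map_neg, p0_dop hA, dop_V0 hA _ (p0_mem _), neg_zero, zero_add, map_smul]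
  rwa [h2] at h1

theorem der_p1 (hA : IsSU2 A) (h : HasDerivWithinAt p (vf c A (p t)) I t) :
    HasDerivWithinAt (fun t => p1 A (p t))
      ((-(gram A (p t))⁻¹.trace + 3 * c) • p1 A (p t)) I t := by
  have h1 := DynB_clm (p1 A) h
  have h2 : p1 A (vf c A (p t)) = (-(gram A (p t))⁻¹.trace + 3 * c) • p1 A (p t) := by
    rw [vf, map_add, map_neg, p1_dop hA, dop_V1 hA (gram_inv_symm A (p t)) (p1_mem _), map_smul]
    module
  rwa [h2] at h1

private theorem DynB_p2 (hA : IsSU2 A) (h : HasDerivWithinAt p (vf c A (p t)) I t) :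
    HasDerivWithinAt (fun t => p2 A (p t))
      (-(dop A (gram A (p t))⁻¹ (p2 A (p t))) + (3 * c) • p2 A (p t)) I t := by
  have h1 := DynB_clm (p2 A) h
  have h2 : p2 A (vf c A (p t)) =
      -(dop A (gram A (p t))⁻¹ (p2 A (p t))) + (3 * c) • p2 A (p t) := by
    rw [vf, map_add, map_neg, p2_dop hA, map_smul]
  rwa [h2] at h1

theorem der_sq1 (hA : IsSU2 A) (h : HasDerivWithinAt p (vf c A (p t)) I t) :
    HasDerivWithinAt (fun t => sq1 A (p t))
      ((-2 * (gram A (p t))⁻¹.trace + 6 * c) * sq1 A (p t)) I t := by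
  have h1 := (der_p1 hA h).norm_sq
  have h2 : 2 * inner ℝ (p1 A (p t)) ((-(gram A (p t))⁻¹.trace + 3 * c) • p1 A (p t)) =
      (-2 * (gram A (p t))⁻¹.trace + 6 * c) * sq1 A (p t) := by
    rw [real_inner_smul_right, real_inner_self_eq_norm_sq, sq1]
    ring
  rw [h2] at h1
  exact h1

theorem der_phi (hA : IsSU2 A) (h : HasDerivWithinAt p (vf c A (p t)) I t) :
    HasDerivWithinAt (fun t => phi A (p t))
      (-2 * inner ℝ (dop A (gram A (p t))⁻¹ (p2 A (p t))) (cas A (p2 A (p t)))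
        + 6 * c * phi A (p t)) I t := by
  have h1 := DynB_p2 hA h
  have h2 : HasDerivWithinAt (fun t => cas A (p2 A (p t)))
      (cas A (-(dop A (gram A (p t))⁻¹ (p2 A (p t))) + (3 * c) • p2 A (p t))) I t := by
    have h3 := (LinearMap.toContinuousLinearMap (cas A)).hasFDerivAt (x := p2 A (p t))
    exact h3.comp_hasDerivWithinAt t h1
  have h4 := h2.inner ℝ h1
  have h5 : inner ℝ (cas A (p2 A (p t)))
        (-(dop A (gram A (p t))⁻¹ (p2 A (p t))) + (3 * c) • p2 A (p t)) +
      inner ℝ (cas A (-(dop A (gram A (p t))⁻¹ (p2 A (p t))) + (3 * c) • p2 A (p t)))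
        (p2 A (p t)) =
      -2 * inner ℝ (dop A (gram A (p t))⁻¹ (p2 A (p t))) (cas A (p2 A (p t)))
        + 6 * c * phi A (p t) := by
    rw [cas_symm hA (-(dop A (gram A (p t))⁻¹ (p2 A (p t))) + (3 * c) • p2 A (p t)) (p2 A (p t)),
      real_inner_comm (cas A (p2 A (p t)))
        (-(dop A (gram A (p t))⁻¹ (p2 A (p t))) + (3 * c) • p2 A (p t)),
      inner_add_right, inner_neg_right, real_inner_smul_right, phi,
      real_inner_comm (dop A (gram A (p t))⁻¹ (p2 A (p t))) (cas A (p2 A (p t)))]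
    ring
  rw [h5] at h4
  exact h4

theorem der_rho (hA : IsSU2 A) (hp : p t ∈ Om A)
    (h : HasDerivWithinAt p (vf c A (p t)) I t) :
    HasDerivWithinAt (fun t => rho A (p t)) (-6 + 6 * c * rho A (p t)) I t := by
  have h1 := (der_sq1 hA h).add (DynB_p2 hA h).norm_sq
  have h3 := inner_dop_self hA hp
  have h4 : inner ℝ (dop A (gram A (p t))⁻¹ (p t)) (p t) =
      (gram A (p t))⁻¹.trace * ‖p1 A (p t)‖ ^ 2 +
        inner ℝ (dop A (gram A (p t))⁻¹ (p2 A (p t))) (p2 A (p t)) := by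
    obtain ⟨x, hx⟩ : ∃ x, x = p t := ⟨_, rfl⟩
    obtain ⟨Q, hQ⟩ : ∃ Q, Q = (gram A (p t))⁻¹ := ⟨_, rfl⟩
    have hQs : Q.transpose = Q := by rw [hQ]; exact gram_inv_symm A (p t)
    rw [← hQ, ← hx]
    have e1 : dop A Q x = Q.trace • p1 A x + dop A Q (p2 A x) := by
      conv_lhs => rw [← p_sum hA x]
      rw [map_add, map_add, dop_V0 hA Q (p0_mem x), dop_V1 hA hQs (p1_mem x), zero_add]
    have hd2 : dop A Q (p2 A x) ∈ V2 A := dop_mem (fun a y hy => A_mem_V2 hA a hy) Q (p2_mem x)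
    have e2 : inner ℝ (p1 A x) x = ‖p1 A x‖ ^ 2 := by
      conv_lhs => rw [← p_sum hA x]
      rw [inner_add_right, inner_add_right]
      have a1 : inner ℝ (p1 A (p0 A x + p1 A x + p2 A x)) (p0 A x) = 0 := by
        rw [p_sum hA, real_inner_comm]
        exact inner_01 hA (p0_mem x) (p1_mem x)
      have a2 : inner ℝ (p1 A (p0 A x + p1 A x + p2 A x)) (p2 A x) = 0 := by
        rw [p_sum hA]
        exact inner_12 (p1_mem x) (p2_mem x)
      rw [a1, a2, p_sum hA, real_inner_self_eq_norm_sq, zero_add, add_zero]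
    have e3 : inner ℝ (dop A Q (p2 A x)) x = inner ℝ (dop A Q (p2 A x)) (p2 A x) := by
      have b1 : inner ℝ (dop A Q (p2 A x)) (p0 A x) = 0 := by
        rw [real_inner_comm]
        exact inner_02 (p0_mem x) hd2
      have b2 : inner ℝ (dop A Q (p2 A x)) (p1 A x) = 0 := by
        rw [real_inner_comm]
        exact inner_12 (p1_mem x) hd2
      have b3 : inner ℝ (dop A Q (p2 A x)) (p0 A x + p1 A x + p2 A x) =
          inner ℝ (dop A Q (p2 A x)) (p2 A x) := by
        rw [inner_add_right, inner_add_right, b1, b2, zero_add, zero_add]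
      rwa [p_sum hA x] at b3
    rw [e1, inner_add_left, real_inner_smul_left, e2, e3]
  have h2 : (-2 * (gram A (p t))⁻¹.trace + 6 * c) * sq1 A (p t) +
      2 * inner ℝ (p2 A (p t)) (-(dop A (gram A (p t))⁻¹ (p2 A (p t))) + (3 * c) • p2 A (p t)) =
      -6 + 6 * c * rho A (p t) := by
    rw [inner_add_right, inner_neg_right, real_inner_smul_right, real_inner_self_eq_norm_sq,
      real_inner_comm (dop A (gram A (p t))⁻¹ (p2 A (p t))) (p2 A (p t)), rho, sq1]
    rw [h3] at h4
    linear_combination 2 * h4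
  rw [h2] at h1
  exact h1

end Pool.Agent.H4ac
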