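import Pool.Agent.H.MP_4ac55f_gt.DynA
import Pool.Agent.H.MP_4ac55f_gt.DynB

/-! The vector field of the mean curvature flow and the evolution of the quadratic
quantities (see the two imported files). -/
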