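import Pool.Agent.H.MP_4ac55f_gt.DynB

/-! The vector field of the mean curvature flow: the points with three dimensional orbit form an
open set, and the vector field is continuously differentiable there. -/

open scoped InnerProductSpace Topology
open Filter

namespace Pool.Agent.H4ac

variable {E : Type} [NormedAddCommGroup E] [InnerProductSpace ℝ E] [FiniteDimensional ℝ E]
variable {A : Fin 3 → E →ₗ[ℝ] E} {c : ℝ}
set_option linter.unusedSectionVars false

theorem isOpen_Om (A : Fin 3 → E →ₗ[ℝ] E) : IsOpen (Om A) := by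
  have h : Continuous fun x : E => fun a : Fin 3 => A a x :=
    continuous_pi fun a => LinearMap.continuous_of_finiteDimensional (A a)
  exact (isOpen_setOfPred_linearIndependent (𝕜 := ℝ) (E := E) (ι := Fin 3)).preimage h

private theorem DynA_det {M : E → Matrix (Fin 3) (Fin 3) ℝ}
    (h : ∀ i j, ContDiff ℝ 1 fun x => M x i j) : ContDiff ℝ 1 fun x => (M x).det := by
  have e : (fun x => (M x).det) = fun x => M x 0 0 * M x 1 1 * M x 2 2 - M x 0 0 * M x 1 2 * M x 2 1 -
      M x 0 1 * M x 1 0 * M x 2 2 + M x 0 1 * M x 1 2 * M x 2 0 + M x 0 2 * M x 1 0 * M x 2 1 -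
      M x 0 2 * M x 1 1 * M x 2 0 := funext fun x => Matrix.det_fin_three (M x)
  rw [e]
  have m : ∀ i j k l p q, ContDiff ℝ 1 fun x => M x i j * M x k l * M x p q :=
    fun i j k l p q => ((h i j).mul (h k l)).mul (h p q)
  exact (((((m _ _ _ _ _ _).sub (m _ _ _ _ _ _)).sub (m _ _ _ _ _ _)).add
    (m _ _ _ _ _ _)).add (m _ _ _ _ _ _)).sub (m _ _ _ _ _ _)

theorem contDiffOn_vf (c : ℝ) (A : Fin 3 → E →ₗ[ℝ] E) : ContDiffOn ℝ 1 (vf c A) (Om A) := by
  have hA : ∀ a, ContDiff ℝ 1 fun x => A a x :=
    fun a => (LinearMap.toContinuousLinearMap (A a)).contDiff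
  have hAA : ∀ a b, ContDiff ℝ 1 fun x => A a (A b x) := fun a b => (hA a).comp (hA b)
  have hg : ∀ a b, ContDiff ℝ 1 fun x => gram A x a b := fun a b => (hA a).inner ℝ (hA b)
  have hQ : ∀ a b, ContDiffOn ℝ 1 (fun x => (gram A x)⁻¹ a b) (Om A) := by
    intro a b
    have e : (fun x => (gram A x)⁻¹ a b) =
        fun x => (gram A x).det⁻¹ * ((gram A x).updateRow b (Pi.single a 1)).det := by
      funext x
      rw [Matrix.inv_def, Matrix.smul_apply, Matrix.adjugate_apply, Ring.inverse_eq_inv',
        smul_eq_mul]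
    rw [e]
    refine ContDiffOn.mul ((DynA_det hg).contDiffOn.inv fun x hx => (gram_det_pos hx).ne')
      (ContDiff.contDiffOn (DynA_det fun i j => ?_))
    by_cases hi : i = b
    · subst hi
      simp only [Matrix.updateRow_self]
      exact contDiff_const
    · simp only [Matrix.updateRow_ne hi]
      exact hg i j
  have e : vf c A = fun x => -(-∑ a, ∑ b, (gram A x)⁻¹ a b • A a (A b x)) + (3 * c) • x :=
    funext fun x => by rw [vf, dop_apply]
  rw [e]
  refine ContDiffOn.add (ContDiffOn.neg (ContDiffOn.neg (ContDiffOn.sum fun a _ =>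
    ContDiffOn.sum fun b _ => (hQ a b).smul (hAA a b).contDiffOn))) ?_
  exact (contDiff_const.smul contDiff_id).contDiffOn

end Pool.Agent.H4ac
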