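import Pool.Agent.H.MP_4ac55f_gt.Apri

/-! Existence and uniqueness of the flow. -/

open scoped InnerProductSpace Topology
open Filter Set

namespace Pool.Agent.H4ac

variable {E : Type} [NormedAddCommGroup E] [InnerProductSpace ℝ E] [FiniteDimensional ℝ E]
variable {A : Fin 3 → E →ₗ[ℝ] E} {c : ℝ}
set_option linter.unusedSectionVars false

theorem deriv_fst {I : Set ℝ} {P : ℝ → E × ℝ} {v : E × ℝ} {t : ℝ}
    (h : HasDerivWithinAt P v I t) : HasDerivWithinAt (fun t => (P t).1) v.1 I t :=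
  (ContinuousLinearMap.fst ℝ E ℝ).hasFDerivAt.comp_hasDerivWithinAt t h

theorem deriv_snd {I : Set ℝ} {P : ℝ → E × ℝ} {v : E × ℝ} {t : ℝ}
    (h : HasDerivWithinAt P v I t) : HasDerivWithinAt (fun t => (P t).2) v.2 I t :=
  (ContinuousLinearMap.snd ℝ E ℝ).hasFDerivAt.comp_hasDerivWithinAt t h

theorem mcf_sol (hA : IsSU2 A) {I : Set ℝ} {P : ℝ → E × ℝ} (h : IsMCF c A I P) :
    Sol (Om A) (vf c A) I (fun t => (P t).1) := fun t ht => by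
  obtain ⟨-, h2, h3⟩ := h t ht
  refine ⟨h2, ?_⟩
  have := deriv_fst h3
  rw [mcv_eq hA c (P t) h2] at this
  exact this

theorem mcf_snd (hA : IsSU2 A) {I : Set ℝ} {P : ℝ → E × ℝ} (h : IsMCF c A I P) :
    ∀ t ∈ I, HasDerivWithinAt (fun t => (P t).2) ((3 * c) • (P t).2) I t := fun t ht => by
  obtain ⟨-, h2, h3⟩ := h t ht
  have := deriv_snd h3
  rw [mcv_eq hA c (P t) h2] at this
  exact this

theorem mcf_mono {I J : Set ℝ} {P : ℝ → E × ℝ} (hIJ : I ⊆ J) (h : IsMCF c A J P) :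
    IsMCF c A I P := fun t ht =>
  ⟨(h t (hIJ ht)).1, (h t (hIJ ht)).2.1, (h t (hIJ ht)).2.2.mono hIJ⟩

/-- `IsPoint` is preserved. -/
theorem point_flow (hA : IsSU2 A) {P0 : E × ℝ} (hP : IsPoint c P0) {x : E} {t : ℝ}
    (e0 : p0 A x = Real.exp (3 * c * t) • p0 A P0.1)
    (er : rho A x = rhoF c (rho A P0.1) t) :
    IsPoint c (x, Real.exp (3 * c * t) * P0.2) := by
  refine ⟨fun hc => ?_, fun hc => ?_, fun hc => ?_⟩
  · have h1 := hP.1 hc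
    unfold form at h1 ⊢
    rw [real_inner_self_eq_norm_sq, norm_sq_split hA] at h1 ⊢
    change c * (‖p0 A x‖ ^ 2 + rho A x
      - Real.exp (3 * c * t) * P0.2 * (Real.exp (3 * c * t) * P0.2)) = 1
    rw [e0, er, norm_smul, rhoF, if_neg hc, Real.norm_eq_abs, mul_pow, sq_abs]
    have e : Real.exp (6 * c * t) = Real.exp (3 * c * t) ^ 2 := by
      rw [← Real.exp_nat_mul]
      congr 1
      push_cast
      ring
    rw [e]
    set X := Real.exp (3 * c * t)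
    have hcc : c * (1 / c) = 1 := mul_one_div_cancel hc
    linear_combination X ^ 2 * h1 + (1 - X ^ 2) * hcc
  · change Real.exp (3 * c * t) * P0.2 = 0
    rw [hP.2.1 hc, mul_zero]
  · exact mul_pos (Real.exp_pos _) (hP.2.2 hc)

/-- Existence as long as the explicit function is positive. -/
theorem exists_flow (hA : IsSU2 A) {P0 : E × ℝ} (hP : IsPoint c P0) (h1 : 0 < sq1 A P0.1)
    (h2 : phi A P0.1 < 10 * sq1 A P0.1) {J : Set ℝ} (hJ0 : (0 : ℝ) ∈ J)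
    (hJ : ∀ t ∈ J, 0 ≤ t ∧ Icc 0 t ⊆ J) (hJn : ∀ t ∈ J, ∃ τ ∈ J, t < τ)
    (hpos : ∀ t ∈ J, 0 < rhoF c (rho A P0.1) t) :
    ∃ P : ℝ → E × ℝ, P 0 = P0 ∧ IsMCF c A J P := by
  have hK : ∀ τ ∈ J, ∃ K : Set E, IsCompact K ∧ K ⊆ Om A ∧ ∀ τ' ∈ Icc 0 τ, ∀ p : ℝ → E,
      p 0 = P0.1 → Sol (Om A) (vf c A) (Icc 0 τ') p → ∀ t ∈ Icc 0 τ', p t ∈ K :=
    fun τ hτ => exists_K hA (hJ τ hτ).1 h1 h2 fun t ht => hpos t ((hJ τ hτ).2 ht)
  choose! K hKc hKs hKa using hK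
  obtain ⟨p, hp0, hp⟩ := sol_exists (isOpen_Om A) (contDiffOn_vf c A) (Om_of_sq1 hA h1) hJ0 hJ
    hJn K (fun τ hτ => ⟨hKc τ hτ, hKs τ hτ⟩) hKa
  refine ⟨fun t => (p t, Real.exp (3 * c * t) * P0.2), ?_, fun t ht => ?_⟩
  · refine Prod.ext hp0 ?_
    simp
  · have hsub := (hJ t ht).2
    have hsol : Sol (Om A) (vf c A) (Icc 0 t) p := fun s hs =>
      ⟨(hp s (hsub hs)).1, (hp s (hsub hs)).2.mono hsub⟩
    have ha := apri hA (hJ t ht).1 hsol (by rw [hp0]; exact h1) (by rw [hp0]; exact h2) t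
      ⟨(hJ t ht).1, le_rfl⟩
    rw [hp0] at ha
    refine ⟨point_flow hA hP ha.1 ha.2.2.2.1, (hp t ht).1, ?_⟩
    rw [mcv_eq hA c (p t, Real.exp (3 * c * t) * P0.2) (hp t ht).1]
    refine (hp t ht).2.prodMk ?_
    have : HasDerivAt (fun t => Real.exp (3 * c * t) * P0.2)
        (3 * c * (Real.exp (3 * c * t) * P0.2)) t := by
      have h3 := (((hasDerivAt_id t).const_mul (3 * c)).exp).mul_const P0.2
      refine h3.congr_deriv ?_
      simp only [id]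
      ring
    exact this.hasDerivWithinAt

/-- All estimates for a solution. -/
theorem flow_facts (hA : IsSU2 A) {J : Set ℝ} (hJ : ∀ t ∈ J, 0 ≤ t ∧ Icc 0 t ⊆ J)
    {P : ℝ → E × ℝ} (h : IsMCF c A J P) (h1 : 0 < sq1 A (P 0).1)
    (h2 : phi A (P 0).1 < 10 * sq1 A (P 0).1) :
    ∀ t ∈ J, p0 A (P t).1 = Real.exp (3 * c * t) • p0 A (P 0).1 ∧
      (∃ b : ℝ, 0 < b ∧ p1 A (P t).1 = b • p1 A (P 0).1) ∧ 0 < sq1 A (P t).1 ∧
      rho A (P t).1 = rhoF c (rho A (P 0).1) t ∧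
      phi A (P t).1 / sq1 A (P t).1 ≤ phi A (P 0).1 / sq1 A (P 0).1 ∧
      phi A (P t).1 / sq1 A (P t).1 ≤ phi A (P 0).1 / sq1 A (P 0).1
        * Real.exp (-(2 * c * (12 / (phi A (P 0).1 / sq1 A (P 0).1 + 2) - 1)) * t
          + (12 / (phi A (P 0).1 / sq1 A (P 0).1 + 2) - 1) / 3
            * (Real.log (rho A (P t).1) - Real.log (rho A (P 0).1))) ∧
      (P t).2 = Real.exp (3 * c * t) * (P 0).2 := by
  intro t ht
  have hm := mcf_mono (hJ t ht).2 h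
  have htt : t ∈ Icc 0 t := ⟨(hJ t ht).1, le_rfl⟩
  obtain ⟨f1, f2, f3, f4, f5, f6⟩ := apri hA (hJ t ht).1 (mcf_sol hA hm) h1 h2 t htt
  exact ⟨f1, f2, f3, f4, f5, f6, lin_sol_const (mcf_snd hA hm) t htt⟩

/-- Uniqueness. -/
theorem flow_unique (hA : IsSU2 A) {J J' : Set ℝ} (hJ : ∀ t ∈ J, 0 ≤ t ∧ Icc 0 t ⊆ J)
    (hJ' : ∀ t ∈ J', 0 ≤ t ∧ Icc 0 t ⊆ J') {P Q : ℝ → E × ℝ} (hP : IsMCF c A J P)
    (hQ : IsMCF c A J' Q) (h0 : Q 0 = P 0) {t : ℝ} (ht : t ∈ J) (ht' : t ∈ J') :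
    Q t = P t := by
  have hm := mcf_mono (hJ t ht).2 hP
  have hm' := mcf_mono (hJ' t ht').2 hQ
  have htt : t ∈ Icc 0 t := ⟨(hJ t ht).1, le_rfl⟩
  refine Prod.ext ?_ ?_
  · exact sol_unique (isOpen_Om A) (contDiffOn_vf c A) (hJ t ht).1 (mcf_sol hA hm')
      (mcf_sol hA hm) (by rw [h0]) t htt
  · rw [lin_sol_const (mcf_snd hA hm) t htt, lin_sol_const (mcf_snd hA hm') t htt, h0]

end Pool.Agent.H4ac
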