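import Pool.Agent.H.MP_4ac55f_gt.Cas

/-! Rotation of the frame: mean curvature and pinching (part B of the module Frame). -/

open scoped InnerProductSpace Topology
open Filter

namespace Pool.Agent.H4ac

variable {E : Type} [NormedAddCommGroup E] [InnerProductSpace ℝ E] [FiniteDimensional ℝ E]
variable {A B : Fin 3 → E →ₗ[ℝ] E} {R : Matrix (Fin 3) (Fin 3) ℝ}
set_option linter.unusedSectionVars false

private theorem FB_tr (hR : IsRot R A B) : R.transpose * R = 1 :=
  mul_eq_one_comm.1 hR.1

private theorem FB_tr_apply (hR : IsRot R A B) (a b : Fin 3) :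
    ∑ i, R i a * R i b = if a = b then 1 else 0 := by
  have h := congrFun (congrFun (FB_tr hR) a) b
  rw [Matrix.mul_apply, Matrix.one_apply] at h
  rw [← h]
  rfl

private theorem FB_symm (hR : IsRot R A B) : IsRot R.transpose B A := by
  refine ⟨?_, ?_, fun i x => ?_⟩
  · rw [Matrix.transpose_transpose]
    exact FB_tr hR
  · rw [Matrix.det_transpose]
    exact hR.2.1
  · have h1 : ∑ j, R.transpose i j • B j x = ∑ j, ∑ k, (R j i * R j k) • A k x := by
      refine Finset.sum_congr rfl fun j _ => ?_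
      rw [hR.2.2, Finset.smul_sum]
      refine Finset.sum_congr rfl fun k _ => ?_
      rw [smul_smul, Matrix.transpose_apply]
    rw [h1, Finset.sum_comm]
    have h2 : ∀ k, ∑ j, (R j i * R j k) • A k x = (if i = k then (1 : ℝ) else 0) • A k x := by
      intro k
      rw [← Finset.sum_smul, FB_tr_apply hR]
    simp only [h2, ite_smul, one_smul, zero_smul, Finset.sum_ite_eq, Finset.mem_univ, if_true]

private theorem FB_gram (hR : IsRot R A B) (x : E) : gram B x = R * gram A x * R.transpose := by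
  ext i j
  rw [Matrix.mul_apply]
  simp only [Matrix.mul_apply, Matrix.transpose_apply, gram, Matrix.of_apply]
  rw [hR.2.2, hR.2.2, inner_sum]
  refine Finset.sum_congr rfl fun k _ => ?_
  rw [sum_inner, Finset.sum_mul]
  refine Finset.sum_congr rfl fun l _ => ?_
  rw [real_inner_smul_left, real_inner_smul_right]
  ring

private theorem FB_gram_apply (hR : IsRot R A B) (x : E) (i j : Fin 3) :
    gram B x i j = ∑ a, ∑ b, R i a * R j b * gram A x a b := by
  rw [FB_gram hR, Matrix.mul_apply, Finset.sum_comm]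
  refine Finset.sum_congr rfl fun b _ => ?_
  rw [Matrix.mul_apply, Finset.sum_mul]
  refine Finset.sum_congr rfl fun a _ => ?_
  rw [Matrix.transpose_apply]
  ring

private theorem FB_ginv (hR : IsRot R A B) (x : E) :
    (gram B x)⁻¹ = R * (gram A x)⁻¹ * R.transpose := by
  have h1 : R⁻¹ = R.transpose := Matrix.inv_eq_right_inv hR.1
  have h2 : R.transpose⁻¹ = R := Matrix.inv_eq_right_inv (FB_tr hR)
  rw [FB_gram hR, Matrix.mul_inv_rev, Matrix.mul_inv_rev, h1, h2, Matrix.mul_assoc]

private theorem FB_tangent_le (hR : IsRot R A B) (x : E) : tangent B x ≤ tangent A x := by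
  unfold tangent
  rw [Submodule.span_le]
  rintro _ ⟨i, rfl⟩
  simp only
  rw [hR.2.2]
  exact Submodule.sum_mem _ fun j _ => Submodule.smul_mem _ _
    (Submodule.subset_span ⟨j, rfl⟩)

private theorem FB_tangent (hR : IsRot R A B) (x : E) : tangent B x = tangent A x :=
  le_antisymm (FB_tangent_le hR x) (FB_tangent_le (FB_symm hR) x)

private theorem FB_proj (hR : IsRot R A B) (x y : E) :
    (tangent B x).starProjection y = (tangent A x).starProjection y := by
  have key : ∀ U V : Submodule ℝ E, U = V → U.starProjection y = V.starProjection y := by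
    rintro U _ rfl
    rfl
  exact key _ _ (FB_tangent hR x)

private theorem FB_BB (hR : IsRot R A B) (i j : Fin 3) (x : E) :
    B i (B j x) = ∑ a, ∑ b, (R i a * R j b) • A a (A b x) := by
  rw [hR.2.2 i, hR.2.2 j]
  refine Finset.sum_congr rfl fun a _ => ?_
  rw [map_sum, Finset.smul_sum]
  refine Finset.sum_congr rfl fun b _ => ?_
  rw [map_smul, smul_smul]

private theorem FB_sff (hR : IsRot R A B) (c : ℝ) (P : E × ℝ) (i j : Fin 3) :
    sff c B P i j = ∑ a, ∑ b, (R i a * R j b) • sff c A P a b := by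
  ext1
  · simp only [sff, Prod.fst_sum, Prod.smul_fst]
    rw [FB_proj hR, FB_BB hR, FB_gram_apply hR, map_sum]
    simp only [map_sum, map_smul, Finset.mul_sum, Finset.sum_smul, smul_add, smul_sub,
      Finset.sum_add_distrib, Finset.sum_sub_distrib, smul_smul]
    congr 1
    refine Finset.sum_congr rfl fun a _ => Finset.sum_congr rfl fun b _ => ?_
    congr 1
    ring
  · simp only [sff, Prod.snd_sum, Prod.smul_snd, smul_eq_mul]
    rw [FB_gram_apply hR, Finset.mul_sum, Finset.sum_mul]
    refine Finset.sum_congr rfl fun a _ => ?_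
    rw [Finset.mul_sum, Finset.sum_mul]
    refine Finset.sum_congr rfl fun b _ => ?_
    ring

private theorem FB_contract {W : Type*} [AddCommGroup W] [Module ℝ W] (hR : IsRot R A B)
    (M : Matrix (Fin 3) (Fin 3) ℝ) (s : Fin 3 → Fin 3 → W) :
    ∑ i, ∑ j, (R * M * R.transpose) i j • ∑ a, ∑ b, (R i a * R j b) • s a b
      = ∑ a, ∑ b, M a b • s a b := by
  have h0 : R.transpose * (R * M * R.transpose) * R = M := by
    have : R.transpose * (R * M * R.transpose) * R
        = (R.transpose * R) * M * (R.transpose * R) := by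
      simp only [Matrix.mul_assoc]
    rw [this, FB_tr hR, Matrix.one_mul, Matrix.mul_one]
  have h1 : ∀ a b, M a b = ∑ i, ∑ j, (R * M * R.transpose) i j * (R i a * R j b) := by
    intro a b
    conv_lhs => rw [← h0]
    rw [Matrix.mul_apply, Finset.sum_comm]
    refine Finset.sum_congr rfl fun j _ => ?_
    rw [Matrix.mul_apply, Finset.sum_mul]
    refine Finset.sum_congr rfl fun i _ => ?_
    rw [Matrix.transpose_apply]
    ring
  have h2 : ∀ a b, M a b • s a b
      = ∑ i, ∑ j, (R * M * R.transpose) i j • (R i a * R j b) • s a b := by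
    intro a b
    conv_lhs => rw [h1 a b, Finset.sum_smul]
    refine Finset.sum_congr rfl fun i _ => ?_
    rw [Finset.sum_smul]
    refine Finset.sum_congr rfl fun j _ => ?_
    rw [smul_smul]
  have h3 : ∑ a, ∑ b, M a b • s a b = ∑ a, ∑ b, ∑ i, ∑ j,
      (R * M * R.transpose) i j • (R i a * R j b) • s a b :=
    Finset.sum_congr rfl fun a _ => Finset.sum_congr rfl fun b _ => h2 a b
  rw [h3]
  have h4 : ∀ i j, (R * M * R.transpose) i j • ∑ a, ∑ b, (R i a * R j b) • s a b
      = ∑ a, ∑ b, (R * M * R.transpose) i j • (R i a * R j b) • s a b := by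
    intro i j
    rw [Finset.smul_sum]
    refine Finset.sum_congr rfl fun a _ => ?_
    rw [Finset.smul_sum]
  simp only [h4]
  -- exchange the order of summation
  calc ∑ i, ∑ j, ∑ a, ∑ b, (R * M * R.transpose) i j • (R i a * R j b) • s a b
      = ∑ i, ∑ a, ∑ j, ∑ b, (R * M * R.transpose) i j • (R i a * R j b) • s a b :=
        Finset.sum_congr rfl fun i _ => Finset.sum_comm
    _ = ∑ a, ∑ i, ∑ j, ∑ b, (R * M * R.transpose) i j • (R i a * R j b) • s a b :=
        Finset.sum_comm
    _ = ∑ a, ∑ i, ∑ b, ∑ j, (R * M * R.transpose) i j • (R i a * R j b) • s a b :=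
        Finset.sum_congr rfl fun a _ => Finset.sum_congr rfl fun i _ => Finset.sum_comm
    _ = ∑ a, ∑ b, ∑ i, ∑ j, (R * M * R.transpose) i j • (R i a * R j b) • s a b :=
        Finset.sum_congr rfl fun a _ => Finset.sum_comm

theorem rot_mcv (hR : IsRot R A B) (c : ℝ) (P : E × ℝ) : mcv c B P = mcv c A P := by
  unfold mcv
  rw [FB_ginv hR]
  simp only [FB_sff hR]
  exact FB_contract hR _ _

/-! ### the form -/

private theorem FB_form_sum_left (f : Fin 3 → E × ℝ) (v : E × ℝ) :
    form (∑ i, f i) v = ∑ i, form (f i) v := by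
  simp only [form, Prod.fst_sum, Prod.snd_sum, sum_inner, Finset.sum_mul,
    Finset.sum_sub_distrib]

private theorem FB_form_sum_right (f : Fin 3 → E × ℝ) (v : E × ℝ) :
    form v (∑ i, f i) = ∑ i, form v (f i) := by
  simp only [form, Prod.fst_sum, Prod.snd_sum, inner_sum, Finset.mul_sum,
    Finset.sum_sub_distrib]

private theorem FB_form_smul_left (r : ℝ) (u v : E × ℝ) : form (r • u) v = r * form u v := by
  simp only [form, Prod.smul_fst, Prod.smul_snd, real_inner_smul_left, smul_eq_mul]
  ring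

private theorem FB_form_smul_right (r : ℝ) (u v : E × ℝ) : form u (r • v) = r * form u v := by
  simp only [form, Prod.smul_fst, Prod.smul_snd, real_inner_smul_right, smul_eq_mul]
  ring

/-- the contraction of the second fundamental form with `X` -/
private noncomputable def FB_S (c : ℝ) (A : Fin 3 → E →ₗ[ℝ] E) (P : E × ℝ) (X : Fin 3 → ℝ)
    (d : Fin 3) : E × ℝ := ∑ a, X a • sff c A P a d

private theorem FB_ric_eq (c : ℝ) (A : Fin 3 → E →ₗ[ℝ] E) (P : E × ℝ) (X : Fin 3 → ℝ) :
    ric c A P X = 2 * c * lenSq A P X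
      + form (∑ b, X b • FB_S c A P X b) (mcv c A P)
      - ∑ d, ∑ e, (gram A P.1)⁻¹ d e • form (FB_S c A P X d) (FB_S c A P X e) := by
  unfold ric
  congr 1
  · congr 1
    rw [FB_form_sum_left, Finset.sum_comm]
    refine Finset.sum_congr rfl fun b _ => ?_
    rw [FB_form_smul_left, FB_S, FB_form_sum_left, Finset.mul_sum]
    refine Finset.sum_congr rfl fun a _ => ?_
    rw [FB_form_smul_left]
    ring
  · have h1 : ∀ d e, (gram A P.1)⁻¹ d e • form (FB_S c A P X d) (FB_S c A P X e)
        = ∑ a, ∑ b, X a * X b * (gram A P.1)⁻¹ d e * form (sff c A P a d) (sff c A P b e) := by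
      intro d e
      rw [FB_S, FB_form_sum_left, smul_eq_mul, Finset.mul_sum]
      refine Finset.sum_congr rfl fun a _ => ?_
      rw [FB_form_smul_left, FB_S, FB_form_sum_right, Finset.mul_sum, Finset.mul_sum]
      refine Finset.sum_congr rfl fun b _ => ?_
      rw [FB_form_smul_right]
      ring
    simp only [h1]
    calc ∑ a, ∑ b, ∑ d, ∑ e, X a * X b * (gram A P.1)⁻¹ d e
          * form (sff c A P a d) (sff c A P b e)
        = ∑ a, ∑ d, ∑ b, ∑ e, X a * X b * (gram A P.1)⁻¹ d e
          * form (sff c A P a d) (sff c A P b e) :=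
          Finset.sum_congr rfl fun i _ => Finset.sum_comm
      _ = ∑ d, ∑ a, ∑ b, ∑ e, X a * X b * (gram A P.1)⁻¹ d e
          * form (sff c A P a d) (sff c A P b e) := Finset.sum_comm
      _ = ∑ d, ∑ a, ∑ e, ∑ b, X a * X b * (gram A P.1)⁻¹ d e
          * form (sff c A P a d) (sff c A P b e) :=
          Finset.sum_congr rfl fun a _ => Finset.sum_congr rfl fun i _ => Finset.sum_comm
      _ = ∑ d, ∑ e, ∑ a, ∑ b, X a * X b * (gram A P.1)⁻¹ d e
          * form (sff c A P a d) (sff c A P b e) :=
          Finset.sum_congr rfl fun a _ => Finset.sum_comm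

/-- the rotated vector -/
private noncomputable def FB_Y (R : Matrix (Fin 3) (Fin 3) ℝ) (X : Fin 3 → ℝ) (a : Fin 3) : ℝ :=
  ∑ i, R i a * X i

private theorem FB_S_rot (hR : IsRot R A B) (c : ℝ) (P : E × ℝ) (X : Fin 3 → ℝ) (j : Fin 3) :
    FB_S c B P X j = ∑ b, R j b • FB_S c A P (FB_Y R X) b := by
  unfold FB_S FB_Y
  simp only [FB_sff hR, Finset.smul_sum, Finset.sum_smul, smul_smul]
  calc ∑ i, ∑ a, ∑ b, (X i * (R i a * R j b)) • sff c A P a b
      = ∑ i, ∑ b, ∑ a, (X i * (R i a * R j b)) • sff c A P a b :=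
        Finset.sum_congr rfl fun i _ => Finset.sum_comm
    _ = ∑ b, ∑ i, ∑ a, (X i * (R i a * R j b)) • sff c A P a b := Finset.sum_comm
    _ = ∑ b, ∑ a, ∑ i, (X i * (R i a * R j b)) • sff c A P a b :=
        Finset.sum_congr rfl fun i _ => Finset.sum_comm
    _ = ∑ b, ∑ a, ∑ i, (R j b * (R i a * X i)) • sff c A P a b := by
        refine Finset.sum_congr rfl fun b _ => Finset.sum_congr rfl fun a _ =>
          Finset.sum_congr rfl fun i _ => ?_
        congr 1
        ring

private theorem FB_sum_rot {W : Type*} [AddCommGroup W] [Module ℝ W]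
    (X : Fin 3 → ℝ) (s : Fin 3 → W) :
    ∑ j, X j • ∑ b, R j b • s b = ∑ b, FB_Y R X b • s b := by
  unfold FB_Y
  simp only [Finset.smul_sum, Finset.sum_smul, smul_smul]
  rw [Finset.sum_comm]
  refine Finset.sum_congr rfl fun b _ => Finset.sum_congr rfl fun i _ => ?_
  rw [mul_comm]

private theorem FB_lenSq (hR : IsRot R A B) (P : E × ℝ) (X : Fin 3 → ℝ) :
    lenSq B P X = lenSq A P (FB_Y R X) := by
  have h1 : ∀ (A : Fin 3 → E →ₗ[ℝ] E) (X : Fin 3 → ℝ),
      lenSq A P X = inner ℝ (∑ a, X a • A a P.1) (∑ a, X a • A a P.1) := by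
    intro A X
    unfold lenSq
    rw [sum_inner]
    refine Finset.sum_congr rfl fun a _ => ?_
    rw [inner_sum]
    refine Finset.sum_congr rfl fun b _ => ?_
    rw [real_inner_smul_left, real_inner_smul_right, gram, Matrix.of_apply]
    ring
  have h2 : ∑ a, X a • B a P.1 = ∑ a, FB_Y R X a • A a P.1 := by
    simp only [hR.2.2]
    exact FB_sum_rot X _
  rw [h1, h1, h2]

private theorem FB_ric (hR : IsRot R A B) (c : ℝ) (P : E × ℝ) (X : Fin 3 → ℝ) :
    ric c B P X = ric c A P (FB_Y R X) := by
  rw [FB_ric_eq, FB_ric_eq, FB_lenSq hR, rot_mcv hR, FB_ginv hR]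
  congr 1
  · congr 1
    congr 1
    simp only [FB_S_rot hR]
    exact FB_sum_rot X _
  · simp only [FB_S_rot hR]
    have h1 : ∀ i j, form (∑ b, R i b • FB_S c A P (FB_Y R X) b)
        (∑ b, R j b • FB_S c A P (FB_Y R X) b)
        = ∑ a, ∑ b, (R i a * R j b) •
          form (FB_S c A P (FB_Y R X) a) (FB_S c A P (FB_Y R X) b) := by
      intro i j
      rw [FB_form_sum_left]
      refine Finset.sum_congr rfl fun a _ => ?_
      rw [FB_form_smul_left, FB_form_sum_right, Finset.mul_sum]
      refine Finset.sum_congr rfl fun b _ => ?_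
      rw [FB_form_smul_right, smul_eq_mul]
      ring
    simp only [h1]
    exact FB_contract hR _ _

private theorem FB_Y_ne (hR : IsRot R A B) {X : Fin 3 → ℝ} (hX : X ≠ 0) : FB_Y R X ≠ 0 := by
  intro h
  apply hX
  have h1 : R.transpose.mulVec X = 0 := by
    funext a
    have := congrFun h a
    simp only [FB_Y, Pi.zero_apply] at this
    simpa [Matrix.mulVec, dotProduct] using this
  have h2 : R.mulVec (R.transpose.mulVec X) = X := by
    rw [Matrix.mulVec_mulVec, hR.1, Matrix.one_mulVec]
  rw [← h2, h1, Matrix.mulVec_zero]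

theorem rot_pinched (hR : IsRot R A B) {c : ℝ} {P : E × ℝ} (h : Pinched c A P) :
    Pinched c B P := by
  intro X hX
  have h1 := h (FB_Y R X) (FB_Y_ne hR hX)
  rw [rot_mcv hR, FB_lenSq hR, FB_ric hR]
  exact h1

end Pool.Agent.H4ac
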