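import Pool.Agent.H.MP_4ac55f_gt.FrameA
import Pool.Agent.H.MP_4ac55f_gt.FrameB

/-! Rotation of the frame, and frames diagonalising the induced metric (see the two imported
files). -/
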