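import Pool.Agent.H.MP_4ac55f_gt.Cas

/-! Rotation of the frame: structure equations, Casimir operators, induced metric; a frame which
diagonalises the induced metric. -/

open scoped InnerProductSpace Topology
open Filter

namespace Pool.Agent.H4ac

variable {E : Type} [NormedAddCommGroup E] [InnerProductSpace ℝ E] [FiniteDimensional ℝ E]
variable {A B : Fin 3 → E →ₗ[ℝ] E} {R : Matrix (Fin 3) (Fin 3) ℝ}
set_option linter.unusedSectionVars false

/-- the rows of a rotation matrix are a positively oriented orthonormal basis -/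
theorem frameA_adj (h1 : R * R.transpose = 1) (h2 : R.det = 1) : R.adjugate = R.transpose := by
  have h3 : R.transpose * R = 1 := mul_eq_one_comm.1 h1
  calc R.adjugate = (R.transpose * R) * R.adjugate := by rw [h3, one_mul]
    _ = R.transpose * (R * R.adjugate) := by rw [Matrix.mul_assoc]
    _ = R.transpose := by rw [Matrix.mul_adjugate, h2, one_smul, mul_one]

theorem rot_isSU2 (hR : IsRot R A B) (hA : IsSU2 A) : IsSU2 B := by
  obtain ⟨h1, h2, h3⟩ := hR
  have hadj := frameA_adj h1 h2
  rw [Matrix.adjugate_fin_three] at hadj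
  have g : ∀ i j, _ := fun i j => congrFun (congrFun hadj i) j
  have g00 := g 0 0
  have g01 := g 0 1
  have g02 := g 0 2
  have g10 := g 1 0
  have g11 := g 1 1
  have g12 := g 1 2
  have g20 := g 2 0
  have g21 := g 2 1
  have g22 := g 2 2
  clear g hadj
  simp [Matrix.transpose_apply] at g00 g01 g02 g10 g11 g12 g20 g21 g22
  constructor
  · intro a x y
    rw [h3, h3, sum_inner, inner_sum, ← Finset.sum_neg_distrib]
    refine Finset.sum_congr rfl fun j _ => ?_
    rw [real_inner_smul_left, real_inner_smul_right, hA.skew]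
    ring
  · intro x
    have e01 := hA.c01 x
    have e12 := hA.c12 x
    have e20 := hA.c20 x
    simp only [h3, Fin.sum_univ_three, map_add, map_smul]
    linear_combination (norm := module) (R 0 0 * R 1 1 - R 0 1 * R 1 0) • e01 +
      (R 0 1 * R 1 2 - R 0 2 * R 1 1) • e12 + (R 0 2 * R 1 0 - R 0 0 * R 1 2) • e20 +
      g22 • ((2 : ℝ) • A 2 x) + g02 • ((2 : ℝ) • A 0 x) + g12 • ((2 : ℝ) • A 1 x)
  · intro x
    have e01 := hA.c01 x
    have e12 := hA.c12 x
    have e20 := hA.c20 x
    simp only [h3, Fin.sum_univ_three, map_add, map_smul]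
    linear_combination (norm := module) (R 1 0 * R 2 1 - R 1 1 * R 2 0) • e01 +
      (R 1 1 * R 2 2 - R 1 2 * R 2 1) • e12 + (R 1 2 * R 2 0 - R 1 0 * R 2 2) • e20 +
      g20 • ((2 : ℝ) • A 2 x) + g00 • ((2 : ℝ) • A 0 x) + g10 • ((2 : ℝ) • A 1 x)
  · intro x
    have e01 := hA.c01 x
    have e12 := hA.c12 x
    have e20 := hA.c20 x
    simp only [h3, Fin.sum_univ_three, map_add, map_smul]
    linear_combination (norm := module) (R 2 0 * R 0 1 - R 2 1 * R 0 0) • e01 +
      (R 2 1 * R 0 2 - R 2 2 * R 0 1) • e12 + (R 2 2 * R 0 0 - R 2 0 * R 0 2) • e20 +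
      g21 • ((2 : ℝ) • A 2 x) + g01 • ((2 : ℝ) • A 0 x) + g11 • ((2 : ℝ) • A 1 x)

private theorem frameA_dop (h3 : ∀ i x, B i x = ∑ j, R i j • A j x)
    (Q : Matrix (Fin 3) (Fin 3) ℝ) : dop B Q = dop A (R.transpose * Q * R) := by
  ext x
  rw [dop_apply, dop_apply]
  congr 1
  simp only [h3, map_sum, map_smul, Finset.smul_sum, smul_smul, Matrix.mul_apply,
    Matrix.transpose_apply, Finset.sum_smul, Finset.sum_mul]
  simp only [Fin.sum_univ_three]
  module

theorem rot_dop (hR : IsRot R A B) (Q : Matrix (Fin 3) (Fin 3) ℝ) :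
    dop B (R * Q * R.transpose) = dop A Q := by
  obtain ⟨h1, h2, h3⟩ := hR
  have h4 : R.transpose * R = 1 := mul_eq_one_comm.1 h1
  rw [frameA_dop h3]
  congr 1
  calc R.transpose * (R * Q * R.transpose) * R
      = (R.transpose * R) * Q * (R.transpose * R) := by simp only [Matrix.mul_assoc]
    _ = Q := by rw [h4, one_mul, mul_one]

theorem rot_cas (hR : IsRot R A B) : cas B = cas A := by
  rw [cas_eq_dop, cas_eq_dop, ← rot_dop hR 1, mul_one, hR.1]

theorem rot_gram (hR : IsRot R A B) (x : E) : gram B x = R * gram A x * R.transpose := by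
  obtain ⟨h1, h2, h3⟩ := hR
  ext i j
  simp only [gram, Matrix.of_apply, Matrix.mul_apply, Matrix.transpose_apply, h3, sum_inner,
    inner_sum, real_inner_smul_left, real_inner_smul_right, Finset.sum_mul]
  refine Finset.sum_congr rfl fun a _ => Finset.sum_congr rfl fun b _ => ?_
  ring

theorem rot_linInd (hR : IsRot R A B) {x : E} (h : LinearIndependent ℝ (fun a => A a x)) :
    LinearIndependent ℝ (fun a => B a x) := by
  obtain ⟨h1, h2, h3⟩ := hR
  rw [Fintype.linearIndependent_iff] at h ⊢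
  intro g hg
  have h5 : Matrix.vecMul g R = 0 := by
    funext j
    refine h (fun j => Matrix.vecMul g R j) ?_ j
    simp only [h3, Finset.smul_sum, smul_smul] at hg
    rw [Finset.sum_comm] at hg
    rw [← hg]
    refine Finset.sum_congr rfl fun a _ => ?_
    rw [Matrix.vecMul, dotProduct, Finset.sum_smul]
  have h6 : g = 0 := by
    calc g = Matrix.vecMul g (R * R.transpose) := by rw [h1, Matrix.vecMul_one]
      _ = Matrix.vecMul (Matrix.vecMul g R) R.transpose := by rw [Matrix.vecMul_vecMul]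
      _ = 0 := by rw [h5, Matrix.zero_vecMul]
  intro i
  rw [h6]
  rfl

private theorem frameA_diag (G : Matrix (Fin 3) (Fin 3) ℝ) (hG : G.IsHermitian) :
    ∃ (R : Matrix (Fin 3) (Fin 3) ℝ) (d : Fin 3 → ℝ), R * R.transpose = 1 ∧
      R * G * R.transpose = Matrix.diagonal d := by
  have h1 := hG.conjStarAlgAut_star_eigenvectorUnitary
  set U := hG.eigenvectorUnitary
  have h2 : star (U : Matrix (Fin 3) (Fin 3) ℝ) = (U : Matrix (Fin 3) (Fin 3) ℝ).transpose := by
    rw [Matrix.star_eq_conjTranspose, Matrix.conjTranspose_eq_transpose_of_trivial]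
  refine ⟨(U : Matrix (Fin 3) (Fin 3) ℝ).transpose, hG.eigenvalues, ?_, ?_⟩
  · rw [Matrix.transpose_transpose, ← h2]
    exact Unitary.coe_star_mul_self U
  · rw [Matrix.transpose_transpose, ← h2]
    rw [Unitary.conjStarAlgAut_star_apply] at h1
    rw [h1]
    rfl

/-- A rotated frame in which the metric is diagonal, with smallest entry the last one. -/
theorem exists_frame (A : Fin 3 → E →ₗ[ℝ] E) {x : E}
    (h : LinearIndependent ℝ (fun a => A a x)) :
    ∃ (R : Matrix (Fin 3) (Fin 3) ℝ) (B : Fin 3 → E →ₗ[ℝ] E) (d : Fin 3 → ℝ),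
      IsRot R A B ∧ gram B x = Matrix.diagonal d ∧ 0 < d 2 ∧ d 2 ≤ d 0 ∧ d 2 ≤ d 1 := by
  have hG : (gram A x).IsHermitian := by
    ext i j
    simp [gram, real_inner_comm]
  obtain ⟨R0, e, hR0, hd0⟩ := frameA_diag _ hG
  -- the sign
  obtain ⟨R1, hR1, hdet1, hd1⟩ : ∃ R1 : Matrix (Fin 3) (Fin 3) ℝ, R1 * R1.transpose = 1 ∧
      R1.det = 1 ∧ R1 * gram A x * R1.transpose = Matrix.diagonal e := by
    have h2 : R0.det * R0.det = 1 := by
      have := congrArg Matrix.det hR0
      rwa [Matrix.det_mul, Matrix.det_transpose, Matrix.det_one] at this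
    rcases mul_self_eq_one_iff.1 h2 with h3 | h3
    · exact ⟨R0, hR0, h3, hd0⟩
    · refine ⟨-R0, ?_, ?_, ?_⟩
      · rw [Matrix.transpose_neg, neg_mul_neg, hR0]
      · rw [Matrix.det_neg, h3]
        norm_num
      · rw [Matrix.transpose_neg, neg_mul, neg_mul_neg, hd0]
  -- the permutation
  obtain ⟨k, hk⟩ : ∃ k, ∀ i, e k ≤ e i := Finite.exists_min e
  set σ : Equiv.Perm (Fin 3) := Equiv.addRight (k - 2) with hσ
  have hσ2 : σ 2 = k := by
    rw [hσ, Equiv.coe_addRight]
    exact add_sub_cancel 2 k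
  have hsign : Equiv.Perm.sign σ = 1 := by
    have : ∀ j : Fin 3, Equiv.Perm.sign (Equiv.addRight j : Equiv.Perm (Fin 3)) = 1 := by decide
    exact this _
  set R : Matrix (Fin 3) (Fin 3) ℝ := R1.submatrix σ id with hR
  have hRT : R.transpose = R1.transpose.submatrix id σ := rfl
  have hrot : IsRot R A (fun i => ∑ j, R i j • A j) := by
    refine ⟨?_, ?_, fun i x => by simp⟩
    · rw [hRT, hR]
      refine (Matrix.submatrix_mul_equiv R1 R1.transpose σ (Equiv.refl _) σ).trans ?_
      rw [hR1, Matrix.submatrix_one_equiv]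
    · rw [hR, Matrix.det_permute, hsign, hdet1]
      simp
  have hgram := rot_gram hrot x
  have hdiag : R * gram A x * R.transpose = Matrix.diagonal (e ∘ σ) := by
    have h4 : R * gram A x * R.transpose =
        (R1 * gram A x * R1.transpose).submatrix σ σ := by
      ext i j
      simp [hR, Matrix.mul_apply, Matrix.submatrix_apply]
    rw [h4, hd1, Matrix.submatrix_diagonal_equiv]
  refine ⟨R, _, e ∘ σ, hrot, hgram.trans hdiag, ?_, ?_, ?_⟩
  · have h5 := congrFun (congrFun (hgram.trans hdiag) 2) 2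
    rw [Matrix.diagonal_apply_eq] at h5
    rw [← h5, gram, Matrix.of_apply]
    exact real_inner_self_pos.2 ((rot_linInd hrot h).ne_zero 2)
  · rw [Function.comp_apply, hσ2]
    exact hk _
  · rw [Function.comp_apply, hσ2]
    exact hk _

end Pool.Agent.H4ac
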