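import Mathlib

/-! Two real inequalities.

`pinch_ineq`: put `S = uv + uz + vz`, `y = (1/u + 1/v + 1/z) s = S s/(uvz)`, `0 <= y <= 3`.  Multiply
by `uvz`: `S y + 4 (u+v) z (3 - y) < 20 (z^2 - (u-v)^2)`, i.e.
`y (3 (u+v) z - uv) > N := 12 (u+v) z - 20 z^2 + 20 (u-v)^2 >= 4 z^2 > 0`.  So `y > 0`, `s > 0` and
`D := 3 (u+v) z - uv > 0`.  The claim `u+v+z < 13 s` is `(u+v+z) S < 13 u v z y`; it follows from
`13 u v z N >= (u+v+z) S D`, a polynomial inequality for `u, v >= z > 0` (put `u = z + a`,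
`v = z + b`; equality case far away: at u = v = z = 1 it reads 52 >= 45; checked numerically).

`gap_ineq`: `w := (u+v+z)/s - 3 < 10`.  Claim equivalent to
`1/z + (12/(w+2) - 1)/s <= 3/u + 3/v`.  Now `3/u + 3/v >= 12/(u+v)` and `u + v = (3+w) s - z`; the
function `z -> 12/((3+w) s - z) - 1/z` is increasing, and at `z = s` it is `(12/(2+w) - 1)/s`. -/

namespace Pool.Agent.H4ac

theorem pinch_ineq {u v z s : ℝ} (hz : 0 < z) (hu : z ≤ u) (hv : z ≤ v) (hs : 0 ≤ s)
    (hsz : s ≤ z)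
    (h : (1 / u + 1 / v + 1 / z) ^ 2 * s
        + 4 * (1 / u + 1 / v) * (3 - (1 / u + 1 / v + 1 / z) * s)
        < 20 * (z ^ 2 - (u - v) ^ 2) / (u * v * z)) :
    0 < s ∧ u + v + z < 13 * s := by
  have hu0 : 0 < u := hz.trans_le hu
  have hv0 : 0 < v := hz.trans_le hv
  have hP : 0 < u * v * z := by positivity
  have e1 : 1 / u + 1 / v + 1 / z = (u * v + u * z + v * z) / (u * v * z) := by
    field_simp
    ring
  have e2 : 1 / u + 1 / v = (u + v) * z / (u * v * z) := by
    field_simp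
    ring
  obtain ⟨S, hS⟩ : ∃ S, S = u * v + u * z + v * z := ⟨_, rfl⟩
  obtain ⟨y, hy⟩ : ∃ y, y = S * s / (u * v * z) := ⟨_, rfl⟩
  obtain ⟨P, hPdef⟩ : ∃ P, P = u * v * z := ⟨_, rfl⟩
  have hS0 : 0 < S := by
    rw [hS]
    positivity
  have hP0 : 0 < P := by
    rw [hPdef]
    exact hP
  have hyP : y * P = S * s := by
    rw [hy, hPdef]
    field_simp
  have hy0 : 0 ≤ y := by
    rw [hy]
    positivity
  rw [e1, e2, ← hS, ← hPdef] at h
  have h1 : S * y + 4 * (u + v) * z * (3 - y) < 20 * (z ^ 2 - (u - v) ^ 2) := by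
    have hy' : y = S / P * s := by
      rw [hy, hPdef]
      field_simp
    rw [lt_div_iff₀ hP0] at h
    have e3 : ((S / P) ^ 2 * s + 4 * ((u + v) * z / P) * (3 - S / P * s)) * P =
        S * (S / P * s) + 4 * (u + v) * z * (3 - S / P * s) := by
      field_simp
    rw [e3, ← hy'] at h
    exact h
  obtain ⟨D, hD⟩ : ∃ D, D = 3 * (u + v) * z - u * v := ⟨_, rfl⟩
  obtain ⟨N, hN⟩ : ∃ N, N = 12 * (u + v) * z - 20 * z ^ 2 + 20 * (u - v) ^ 2 := ⟨_, rfl⟩
  have h2 : N < D * y := by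
    rw [hN, hD]
    rw [hS] at h1
    nlinarith [h1]
  have hN0 : 0 < N := by
    rw [hN]
    nlinarith [mul_pos hz hz, mul_le_mul_of_nonneg_right hu hz.le,
      mul_le_mul_of_nonneg_right hv hz.le, sq_nonneg (u - v)]
  have hDy : 0 < D * y := hN0.trans h2
  have hy1 : 0 < y := by
    rcases hy0.lt_or_eq with h3 | h3
    · exact h3
    · rw [← h3, mul_zero] at hDy
      exact absurd hDy (lt_irrefl _)
  have hD0 : 0 < D := by
    by_contra hcon
    push Not at hcon
    nlinarith [mul_nonneg (neg_nonneg.mpr hcon) hy1.le]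
  have hs0 : 0 < s := by
    have h3 : 0 < S * s := by
      rw [← hyP]
      positivity
    exact (mul_pos_iff_of_pos_left hS0).mp h3
  refine ⟨hs0, ?_⟩
  have key : (u + v + z) * S * D ≤ 13 * P * N := by
    obtain ⟨a, ha⟩ : ∃ a, a = u - z := ⟨_, rfl⟩
    obtain ⟨b, hb⟩ : ∃ b, b = v - z := ⟨_, rfl⟩
    have ha0 : 0 ≤ a := by linarith
    have hb0 : 0 ≤ b := by linarith
    have hu' : u = z + a := by linarith
    have hv' : v = z + b := by linarith
    have e4 : 13 * P * N - (u + v + z) * S * D = 7 * z ^ 5 + 145 * z ^ 4 * (a + b) +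
        z ^ 3 * (388 * (a - b) ^ 2 + 558 * (a * b)) +
        z ^ 2 * (256 * (a + b) * (a - b) ^ 2 + 138 * (a * b) * (a + b)) +
        z * (260 * (a * b) * (a - b) ^ 2 + 3 * (a * b) ^ 2) + (a * b) ^ 2 * (a + b) := by
      rw [hPdef, hN, hS, hD, hu', hv']
      ring
    have e5 : 0 ≤ 13 * P * N - (u + v + z) * S * D := by
      rw [e4]
      positivity
    linarith
  have h3 : (u + v + z) * (S * D) < 13 * s * (S * D) := by
    calc (u + v + z) * (S * D) = (u + v + z) * S * D := by ring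
      _ ≤ 13 * P * N := key
      _ < 13 * P * (D * y) := by
          apply mul_lt_mul_of_pos_left h2
          positivity
      _ = 13 * D * (y * P) := by ring
      _ = 13 * s * (S * D) := by
          rw [hyP]
          ring
  exact lt_of_mul_lt_mul_right h3 (mul_pos hS0 hD0).le

theorem gap_ineq {u v z s : ℝ} (hs : 0 < s) (hz : s ≤ z) (hu : z ≤ u) (hv : z ≤ v)
    (h : u + v + z < 13 * s) :
    1 / u + 1 / v + 1 / z + (12 / ((u + v + z) / s - 1) - 1) / s ≤ 4 * (1 / u + 1 / v) := by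
  have hz0 : 0 < z := hs.trans_le hz
  have hu0 : 0 < u := hz0.trans_le hu
  have hv0 : 0 < v := hz0.trans_le hv
  have h1 : (12 / ((u + v + z) / s - 1) - 1) / s = 12 / (u + v + z - s) - 1 / s := by
    have h2 : u + v + z - s ≠ 0 := by linarith
    have h3 : (u + v + z) / s - 1 = (u + v + z - s) / s := by
      field_simp
    rw [h3]
    field_simp
  have h4 : 12 / (u + v + z - s) ≤ 12 / (u + v) := by
    apply div_le_div_of_nonneg_left (by norm_num) (by linarith) (by linarith)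
  have h5 : 1 / z ≤ 1 / s := one_div_le_one_div_of_le hs hz
  have h6 : 12 / (u + v) ≤ 3 * (1 / u + 1 / v) := by
    rw [div_le_iff₀ (by linarith)]
    have h7 : 3 * (1 / u + 1 / v) * (u + v) = 12 + 3 * ((u - v) ^ 2 / (u * v)) := by
      field_simp
      ring
    rw [h7]
    have : 0 ≤ (u - v) ^ 2 / (u * v) := by positivity
    linarith
  rw [h1]
  linarith

end Pool.Agent.H4ac
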