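import Pool.Agent.H.MP_4ac55f_gt.V2
import Pool.Agent.H.MP_4ac55f_gt.Frame
import Pool.Agent.H.MP_4ac55f_gt.Dyn
import Pool.Agent.H.MP_4ac55f_gt.Ineq

/-! The two pointwise inequalities: the pinching condition, and the spectral gap. -/

open scoped InnerProductSpace Topology
open Filter

namespace Pool.Agent.H4ac

variable {E : Type} [NormedAddCommGroup E] [InnerProductSpace ℝ E] [FiniteDimensional ℝ E]
variable {A B : Fin 3 → E →ₗ[ℝ] E} {R : Matrix (Fin 3) (Fin 3) ℝ} {c : ℝ}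
set_option linter.unusedSectionVars false

theorem gram_V1 (hA : IsSU2 A) {x : E} (hx : x ∈ V1 A) (a b : Fin 3) :
    inner ℝ (A a x) (A b x) = if a = b then ‖x‖ ^ 2 else 0 := by
  have h := congrArg (fun v => inner ℝ v x) (V1_anti hA hx a b)
  simp only [inner_add_left, real_inner_smul_left, real_inner_self_eq_norm_sq] at h
  rw [hA.skew a (A b x) x, hA.skew b (A a x) x, real_inner_comm (A a x) (A b x)] at h
  by_cases hab : a = b
  · rw [if_pos hab] at h ⊢
    subst hab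
    linarith
  · rw [if_neg hab] at h ⊢
    linarith

theorem norm_A_V1 (hA : IsSU2 A) {x : E} (hx : x ∈ V1 A) (a : Fin 3) :
    ‖A a x‖ ^ 2 = ‖x‖ ^ 2 := by
  rw [← real_inner_self_eq_norm_sq (A a x), gram_V1 hA hx, if_pos rfl]

theorem norm_comb_V1 (hA : IsSU2 A) {x : E} (hx : x ∈ V1 A) (u : Fin 3 → ℝ) :
    ‖∑ a, u a • A a x‖ ^ 2 = (∑ a, u a ^ 2) * ‖x‖ ^ 2 := by
  rw [← real_inner_self_eq_norm_sq, sum_inner, Finset.sum_mul]
  refine Finset.sum_congr rfl fun a _ => ?_
  rw [inner_sum, Finset.sum_eq_single a]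
  · rw [real_inner_smul_left, real_inner_smul_right, gram_V1 hA hx, if_pos rfl]
    ring
  · intro b _ hb
    rw [real_inner_smul_left, real_inner_smul_right, gram_V1 hA hx, if_neg (Ne.symm hb)]
    ring
  · simp

theorem inner_psum (hA : IsSU2 A) (v x : E) :
    inner ℝ v x = inner ℝ v (p0 A x) + inner ℝ v (p1 A x) + inner ℝ v (p2 A x) := by
  rw [← inner_add_right, ← inner_add_right, p_sum hA]

theorem sq1_nonneg (A : Fin 3 → E →ₗ[ℝ] E) (x : E) : 0 ≤ sq1 A x := sq_nonneg _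

theorem Om_of_sq1 (hA : IsSU2 A) {x : E} (h : 0 < sq1 A x) : x ∈ Om A := by
  change LinearIndependent ℝ (fun a => A a x)
  rw [Fintype.linearIndependent_iff]
  intro u hu
  have h1 : ∑ a, u a • A a (p1 A x) = 0 := by
    have := congrArg (p1 A) hu
    simpa only [map_sum, map_smul, p1_comm hA, map_zero] using this
  have h2 := norm_comb_V1 hA (p1_mem x) u
  rw [h1] at h2
  have h3 : ∑ a, u a ^ 2 = 0 := by
    rcases mul_eq_zero.1 (h2.symm.trans (by simp)) with h4 | h4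
    · exact h4
    · exact absurd h4 h.ne'
  intro i
  have := (Finset.sum_eq_zero_iff_of_nonneg (fun b _ => sq_nonneg (u b))).1 h3 i
    (Finset.mem_univ i)
  exact pow_eq_zero_iff (two_ne_zero) |>.1 this

theorem phi_nonneg (hA : IsSU2 A) (x : E) : 0 ≤ phi A x := by
  rw [phi, inner_cas hA]
  exact Finset.sum_nonneg fun _ _ => sq_nonneg _

theorem norm_p2_le (hA : IsSU2 A) (x : E) : 8 * ‖p2 A x‖ ^ 2 ≤ phi A x :=
  cas_V2 hA (p2_mem x)

/-! ### the rotated frame -/

theorem rot_V0 (hR : IsRot R A B) : V0 B = V0 A := by rw [V0, V0, rot_cas hR]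
theorem rot_V1 (hR : IsRot R A B) : V1 B = V1 A := by rw [V1, V1, rot_cas hR]
theorem rot_V2 (hR : IsRot R A B) : V2 B = V2 A := by rw [V2, V2, rot_V0 hR, rot_V1 hR]
theorem rot_p0 (hR : IsRot R A B) : p0 B = p0 A := by
  unfold p0
  simp only [rot_V0 hR]
theorem rot_p1 (hR : IsRot R A B) : p1 B = p1 A := by
  unfold p1
  simp only [rot_V1 hR]
theorem rot_p2 (hR : IsRot R A B) : p2 B = p2 A := by
  unfold p2
  simp only [rot_V2 hR]
theorem rot_sq1 (hR : IsRot R A B) (x : E) : sq1 B x = sq1 A x := by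
  rw [sq1, sq1, rot_p1 hR]
theorem rot_phi (hR : IsRot R A B) (x : E) : phi B x = phi A x := by
  rw [phi, phi, rot_p2 hR, rot_cas hR]

theorem rot_inv (hR : IsRot R A B) (x : E) :
    (gram B x)⁻¹ = R * (gram A x)⁻¹ * R.transpose := by
  have h1 : R⁻¹ = R.transpose := Matrix.inv_eq_right_inv hR.1
  have h2 : (R.transpose)⁻¹ = R := Matrix.inv_eq_left_inv hR.1
  rw [rot_gram hR, Matrix.mul_inv_rev, Matrix.mul_inv_rev, h1, h2, Matrix.mul_assoc]

theorem rot_dop_gram (hR : IsRot R A B) (x : E) :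
    dop B (gram B x)⁻¹ = dop A (gram A x)⁻¹ := by
  rw [rot_inv hR, rot_dop hR]

theorem rot_trace_inv (hR : IsRot R A B) (x : E) :
    ((gram B x)⁻¹).trace = ((gram A x)⁻¹).trace := by
  have h3 : R.transpose * R = 1 := mul_eq_one_comm.1 hR.1
  rw [rot_inv hR, Matrix.trace_mul_comm, ← Matrix.mul_assoc, h3, Matrix.one_mul]

/-- The data of a good frame at `x`. -/
theorem good_frame (hA : IsSU2 A) {x : E} (hx : x ∈ Om A) :
    ∃ (R : Matrix (Fin 3) (Fin 3) ℝ) (B : Fin 3 → E →ₗ[ℝ] E) (d : Fin 3 → ℝ),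
      IsRot R A B ∧ IsSU2 B ∧ gram B x = Matrix.diagonal d ∧ 0 < d 2 ∧ d 2 ≤ d 0 ∧ d 2 ≤ d 1 ∧
      (gram B x)⁻¹ = Matrix.diagonal (fun i => 1 / d i) ∧
      ((gram A x)⁻¹).trace = 1 / d 0 + 1 / d 1 + 1 / d 2 ∧
      d 0 + d 1 + d 2 = 3 * sq1 A x + phi A x ∧ sq1 A x ≤ d 2 := by
  obtain ⟨R, B, d, hR, hd, h2, h20, h21⟩ := exists_frame A hx
  have hB := rot_isSU2 hR hA
  have hinv : (gram B x)⁻¹ = Matrix.diagonal (fun i => 1 / d i) := by
    rw [hd]
    refine Matrix.inv_eq_right_inv ?_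
    rw [Matrix.diagonal_mul_diagonal, ← Matrix.diagonal_one]
    congr 1
    ext i
    fin_cases i
    · exact mul_one_div_cancel (by simpa using (h2.trans_le h20).ne')
    · exact mul_one_div_cancel (by simpa using (h2.trans_le h21).ne')
    · exact mul_one_div_cancel (by simpa using h2.ne')
  refine ⟨R, B, d, hR, hB, hd, h2, h20, h21, hinv, ?_, ?_, ?_⟩
  · rw [← rot_trace_inv hR, hinv, Matrix.trace_diagonal, Fin.sum_univ_three]
  · have := gram_trace hB x
    rw [hd, Matrix.trace_diagonal, Fin.sum_univ_three, rot_sq1 hR, rot_phi hR] at this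
    exact this
  · have h : gram B x 2 2 = d 2 := by rw [hd, Matrix.diagonal_apply_eq]
    have h' : gram B x 2 2 = inner ℝ (B 2 x) (B 2 x) := rfl
    rw [← h, h', inner_A_split hB, gram_V1 hB (p1_mem x), if_pos rfl, rot_p1 hR]
    have := real_inner_self_nonneg (x := B 2 (p2 B x))
    unfold sq1
    linarith

/-- The spectral gap. -/
theorem gap (hA : IsSU2 A) {x : E} (hs : 0 < sq1 A x) (hphi : phi A x < 10 * sq1 A x) :
    (((gram A x)⁻¹).trace + (12 / (phi A x / sq1 A x + 2) - 1) / sq1 A x) * phi A x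
      ≤ inner ℝ (dop A (gram A x)⁻¹ (p2 A x)) (cas A (p2 A x)) := by
  obtain ⟨R, B, d, hR, hB, hd, h2, h20, h21, hinv, htr, hsum, hsd⟩ :=
    good_frame hA (Om_of_sq1 hA hs)
  have h0 : 0 < d 0 := h2.trans_le h20
  have h1 : 0 < d 1 := h2.trans_le h21
  have hg := gap_ineq hs hsd h20 h21 (by linarith)
  have hc := dop_cas_V2 hB (q := fun i => 1 / d i) (one_div_nonneg.2 h0.le)
    (one_div_nonneg.2 h1.le) (one_div_le_one_div_of_le h2 h20) (one_div_le_one_div_of_le h2 h21)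
    (x := p2 A x) (by rw [← rot_p2 hR]; exact p2_mem x)
  rw [← hinv, rot_dop_gram hR, rot_cas hR] at hc
  have e : (d 0 + d 1 + d 2) / sq1 A x - 1 = phi A x / sq1 A x + 2 := by
    rw [hsum]
    field_simp
    ring
  rw [e, ← htr] at hg
  refine le_trans (mul_le_mul_of_nonneg_right hg (phi_nonneg hA x)) ?_
  exact hc

/-- The pinching condition controls the part of spin at least one. -/
theorem static (hA : IsSU2 A) {P : E × ℝ} (hP : IsPoint c P)
    (h : LinearIndependent ℝ (fun a => A a P.1)) (hp : Pinched c A P) :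
    0 < sq1 A P.1 ∧ phi A P.1 < 10 * sq1 A P.1 := by
  obtain ⟨R, B, d, hR, hB, hd, h2, h20, h21, hinv, htr, hsum, hsd⟩ :=
    good_frame hA (x := P.1) h
  have h0 : 0 < d 0 := h2.trans_le h20
  have h1 : 0 < d 1 := h2.trans_le h21
  have hBl := rot_linInd hR h
  have hX : (Pi.single 2 1 : Fin 3 → ℝ) ≠ 0 := by
    intro h
    have := congrFun h 2
    simp at this
  have hpin := rot_pinched hR hp (Pi.single 2 1) hX
  have hpos : ∀ i, 0 < d i := by
    intro i
    fin_cases i <;> assumption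
  rw [ric_diag hB hP hd hpos, form_mcv hB hP hBl] at hpin
  have hlen : lenSq B P (Pi.single 2 1) = d 2 := by
    rw [lenSq, hd]
    simp [Fin.sum_univ_three]
  rw [hlen] at hpin
  have hD : dop B (gram B P.1)⁻¹ = dop A (gram A P.1)⁻¹ := rot_dop_gram hR P.1
  rw [hD] at hpin
  set x := P.1 with hx
  set D := dop A (gram A x)⁻¹ with hDdef
  set T := ((gram A x)⁻¹).trace with hT
  -- decomposition of `D x`
  have hD1 : D (p1 A x) = T • p1 A x := dop_V1 hA (gram_inv_symm A x) (p1_mem x)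
  have hD0 : D (p0 A x) = 0 := dop_V0 hA _ (p0_mem x)
  have hDx : D x = T • p1 A x + D (p2 A x) := by
    conv_lhs => rw [← p_sum hA x]
    rw [map_add, map_add, hD0, hD1, zero_add]
  have hD2m : D (p2 A x) ∈ V2 A := dop_mem (fun a x hx => A_mem_V2 hA a hx) _ (p2_mem x)
  have o12 : inner ℝ (p1 A x) (D (p2 A x)) = 0 := inner_12 (p1_mem x) hD2m
  have hn : ‖D x‖ ^ 2 = T ^ 2 * sq1 A x + ‖D (p2 A x)‖ ^ 2 := by
    rw [hDx, norm_add_sq_real, real_inner_smul_left, o12, norm_smul, mul_pow, sq1,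
      Real.norm_eq_abs, sq_abs]
    ring
  have h3 : T * sq1 A x + inner ℝ (D (p2 A x)) (p2 A x) = 3 := by
    have h4 := inner_dop_self hA h
    rw [← hDdef, hDx] at h4
    have o1 : inner ℝ (p1 A x) x = sq1 A x := by
      rw [inner_psum hA, real_inner_comm (p0 A x) (p1 A x), inner_01 hA (p0_mem x) (p1_mem x),
        inner_12 (p1_mem x) (p2_mem x), real_inner_self_eq_norm_sq, sq1]
      ring
    have o2 : inner ℝ (D (p2 A x)) x = inner ℝ (D (p2 A x)) (p2 A x) := by
      rw [inner_psum hA, real_inner_comm (p0 A x), inner_02 (p0_mem x) hD2m,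
        real_inner_comm (p1 A x), inner_12 (p1_mem x) hD2m]
      ring
    rw [inner_add_left, real_inner_smul_left, o1, o2] at h4
    exact h4
  have hlow := dop_dop_V2 hB (q := fun i => 1 / d i) (one_div_nonneg.2 h0.le)
    (one_div_nonneg.2 h1.le) (one_div_le_one_div_of_le h2 h20) (one_div_le_one_div_of_le h2 h21)
    (x := p2 A x) (by rw [← rot_p2 hR]; exact p2_mem x)
  rw [← hinv, hD] at hlow
  have key := pinch_ineq (u := d 0) (v := d 1) (z := d 2) (s := sq1 A x) h2 h20 h21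
    (sq1_nonneg A x) hsd (by
      rw [← htr]
      have e1 : 4 * (1 / d 0 + 1 / d 1) * (3 - T * sq1 A x) ≤ ‖D (p2 A x)‖ ^ 2 := by
        have : 3 - T * sq1 A x = inner ℝ (D (p2 A x)) (p2 A x) := by linarith
        rw [this]
        exact hlow
      have e2 : ‖D x‖ ^ 2 < 20 * (d 2 ^ 2 - (d 0 - d 1) ^ 2) / (d 0 * d 1 * d 2) := by
        have e3 : 20 * (d 2 ^ 2 - (d 0 - d 1) ^ 2) / (d 0 * d 1 * d 2)
            = (2 * (d 2 ^ 2 - (d 0 - d 1) ^ 2) / (d 0 * d 1)) * (10 / d 2) := by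
          field_simp
          ring
        have e4 : ‖D x‖ ^ 2
            = (9 / 10 * (c + (‖D x‖ ^ 2 - 9 * c) / 9) * d 2) * (10 / d 2) := by
          field_simp
          ring
        rw [e3, e4]
        exact mul_lt_mul_of_pos_right hpin (by positivity)
      calc _ ≤ T ^ 2 * sq1 A x + ‖D (p2 A x)‖ ^ 2 := by linarith
        _ = ‖D x‖ ^ 2 := hn.symm
        _ < _ := e2)
  exact ⟨key.1, by linarith [key.2]⟩

end Pool.Agent.H4ac
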