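import Pool.Agent.H.MP_4ac55f_gt.Flow

/-! Limits of the flow. -/

open scoped InnerProductSpace Topology
open Filter Set

namespace Pool.Agent.H4ac

variable {E : Type} [NormedAddCommGroup E] [InnerProductSpace ℝ E] [FiniteDimensional ℝ E]
variable {A : Fin 3 → E →ₗ[ℝ] E} {c : ℝ}
set_option linter.unusedSectionVars false

theorem isRound_of_V1 (hA : IsSU2 A) {v : E} (hv : v ∈ V1 A) (h0 : v ≠ 0) :
    IsRound A (‖v‖⁻¹ • v) := by
  have hw : ‖v‖⁻¹ • v ∈ V1 A := (V1 A).smul_mem _ hv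
  set w := ‖v‖⁻¹ • v with hwd
  refine ⟨?_, fun u => ?_⟩
  · rw [hwd, norm_smul, norm_inv, norm_norm, inv_mul_cancel₀ (norm_ne_zero_iff.2 h0)]
  · have h00 := V1_anti hA hw 0 0
    have h11 := V1_anti hA hw 1 1
    have h22 := V1_anti hA hw 2 2
    have h01 := V1_anti hA hw 0 1
    have h02 := V1_anti hA hw 0 2
    have h12 := V1_anti hA hw 1 2
    rw [if_pos rfl] at h00 h11 h22
    rw [if_neg (by decide)] at h01 h02 h12
    simp only [Fin.sum_univ_three, map_add, map_smul]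
    linear_combination (norm := module) (u 0 ^ 2 / 2) • h00 + (u 1 ^ 2 / 2) • h11
      + (u 2 ^ 2 / 2) • h22 + (u 0 * u 1) • h01 + (u 0 * u 2) • h02 + (u 1 * u 2) • h12

theorem tendsto_dir {l : Filter ℝ} {n : ℝ → ℝ} {D : ℝ → E × ℝ} {w : E} (hw : ‖w‖ = 1)
    (hn : ∀ᶠ t in l, 0 < n t) (h : Tendsto (fun t => (n t)⁻¹ • D t) l (𝓝 (w, 0))) :
    Tendsto (fun t => ‖(D t).1‖⁻¹ • D t) l (𝓝 (w, 0)) := by
  have h1 : Tendsto (fun t => ‖((n t)⁻¹ • D t).1‖⁻¹) l (𝓝 1) := by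
    have : Tendsto (fun t => ‖((n t)⁻¹ • D t).1‖) l (𝓝 1) := by
      rw [← hw]
      exact ((continuous_fst.norm).tendsto ((w, 0) : E × ℝ)).comp h
    simpa using this.inv₀ one_ne_zero
  have h2 := h1.smul h
  rw [one_smul] at h2
  refine h2.congr' ?_
  filter_upwards [hn] with t ht
  rw [Prod.smul_fst, norm_smul, norm_inv, Real.norm_eq_abs, abs_of_pos ht, smul_smul, mul_inv,
    inv_inv, mul_comm (n t), mul_assoc, mul_inv_cancel₀ ht.ne', mul_one]

/-- The decay of the quotient at a finite extinction time. -/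
theorem tendsto_a {c δ w0 ρ0 T : ℝ} (hδ : 0 < δ) (hT : ∀ t, 0 < rhoF c ρ0 t ↔ t < T)
    (h0 : Tendsto (rhoF c ρ0) (𝓝[<] T) (𝓝 0)) :
    Tendsto (fun t => w0 * Real.exp (-(2 * c * δ) * t
      + δ / 3 * (Real.log (rhoF c ρ0 t) - Real.log ρ0))) (𝓝[<] T) (𝓝 0) := by
  have h1 : Tendsto (rhoF c ρ0) (𝓝[<] T) (𝓝[>] 0) := by
    refine tendsto_nhdsWithin_iff.2 ⟨h0, ?_⟩
    filter_upwards [self_mem_nhdsWithin] with t ht
    exact (hT t).2 ht
  have h2 : Tendsto (fun t => Real.log (rhoF c ρ0 t)) (𝓝[<] T) atBot :=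
    Real.tendsto_log_nhdsGT_zero.comp h1
  have h3 : Tendsto (fun t => δ / 3 * (Real.log (rhoF c ρ0 t) - Real.log ρ0)) (𝓝[<] T) atBot :=
    (tendsto_atBot_add_const_right _ (-Real.log ρ0) h2).const_mul_atBot (by positivity)
  have h4 : Tendsto (fun t : ℝ => -(2 * c * δ) * t) (𝓝[<] T) (𝓝 (-(2 * c * δ) * T)) :=
    (tendsto_id.mono_left nhdsWithin_le_nhds).const_mul _
  have h5 := Real.tendsto_exp_atBot.comp (h4.add_atBot h3)
  simpa using h5.const_mul w0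

theorem tendsto_b {c δ w0 : ℝ} (hc : 0 < c) (hδ : 0 < δ) :
    Tendsto (fun t => w0 * Real.exp (-(2 * c * δ) * t)) atTop (𝓝 0) := by
  have h1 : Tendsto (fun t : ℝ => -(2 * c * δ) * t) atTop atBot :=
    tendsto_id.const_mul_atTop_of_neg (by nlinarith [mul_pos hc hδ])
  have h5 := Real.tendsto_exp_atBot.comp h1
  simpa using h5.const_mul w0

end Pool.Agent.H4ac
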