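import Mathlib

/-! Linear scalar-type equations `y' = a y`: explicit solution. -/

open Set Filter Topology

namespace Pool.Agent.H4ac

theorem LinA_gen {F : Type} [NormedAddCommGroup F] [NormedSpace ℝ F] {τ : ℝ}
    {B β : ℝ → ℝ} (hB0 : B 0 = 0) (hB : ∀ t ∈ Icc 0 τ, HasDerivWithinAt B (β t) (Icc 0 τ) t)
    {y : ℝ → F} (hy : ∀ t ∈ Icc 0 τ, HasDerivWithinAt y (β t • y t) (Icc 0 τ) t) :
    ∀ t ∈ Icc 0 τ, y t = Real.exp (B t) • y 0 := by
  have hz : ∀ t ∈ Icc 0 τ, HasDerivWithinAt (fun s => Real.exp (-B s) • y s) 0 (Icc 0 τ) t := by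
    intro t ht
    have h1 := ((hB t ht).neg.exp).smul (hy t ht)
    refine h1.congr_deriv ?_
    rw [smul_smul, ← add_smul, Pi.neg_apply]
    have h2 : Real.exp (-B t) * β t + Real.exp (-B t) * -β t = 0 := by ring
    rw [h2, zero_smul]
  have hconst := constant_of_derivWithin_zero (f := fun s => Real.exp (-B s) • y s) (a := 0)
    (b := τ) (fun t ht => (hz t ht).differentiableWithinAt) (fun t ht => by
      have h0 : (0 : ℝ) < τ := lt_of_le_of_lt ht.1 ht.2
      exact (hz t ⟨ht.1, ht.2.le⟩).derivWithin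
        (uniqueDiffOn_Icc h0 t ⟨ht.1, ht.2.le⟩))
  intro t ht
  have h1 := hconst t ht
  simp only [hB0, neg_zero, Real.exp_zero, one_smul] at h1
  rw [← h1, smul_smul, ← Real.exp_add, add_neg_cancel, Real.exp_zero, one_smul]

theorem lin_sol {F : Type} [NormedAddCommGroup F] [NormedSpace ℝ F] {τ : ℝ} (hτ : 0 ≤ τ)
    {a : ℝ → ℝ} (ha : ContinuousOn a (Icc 0 τ)) {y : ℝ → F}
    (hy : ∀ t ∈ Icc 0 τ, HasDerivWithinAt y (a t • y t) (Icc 0 τ) t) :
    ∃ b : ℝ → ℝ, ∀ t ∈ Icc 0 τ, 0 < b t ∧ y t = b t • y 0 := by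
  set a' : ℝ → ℝ := IccExtend hτ ((Icc 0 τ).domRestrict a) with ha'
  have hc : Continuous a' := (continuousOn_iff_continuous_domRestrict.1 ha).Icc_extend'
  have heq : ∀ t ∈ Icc 0 τ, a' t = a t := by
    intro t ht
    rw [ha', IccExtend_of_mem hτ _ ht]
    rfl
  set B : ℝ → ℝ := fun t => ∫ s in (0 : ℝ)..t, a' s with hBd
  have hB0 : B 0 = 0 := by
    rw [hBd]
    exact intervalIntegral.integral_same
  have hB : ∀ t ∈ Icc 0 τ, HasDerivWithinAt B (a t) (Icc 0 τ) t := by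
    intro t ht
    rw [← heq t ht]
    exact (intervalIntegral.integral_hasDerivAt_right (hc.intervalIntegrable _ _)
      hc.aestronglyMeasurable.stronglyMeasurableAtFilter hc.continuousAt).hasDerivWithinAt
  refine ⟨fun t => Real.exp (B t), fun t ht => ⟨Real.exp_pos _, ?_⟩⟩
  exact LinA_gen hB0 hB hy t ht

/-- The case of a constant coefficient. -/
theorem lin_sol_const {F : Type} [NormedAddCommGroup F] [NormedSpace ℝ F] {τ k : ℝ}
    {y : ℝ → F} (hy : ∀ t ∈ Icc 0 τ, HasDerivWithinAt y (k • y t) (Icc 0 τ) t) :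
    ∀ t ∈ Icc 0 τ, y t = Real.exp (k * t) • y 0 := by
  refine LinA_gen (B := fun t => k * t) (β := fun _ => k) (mul_zero k) ?_ hy
  intro t _
  have h := ((hasDerivAt_id t).const_mul k).hasDerivWithinAt (s := Icc 0 τ)
  rwa [mul_one] at h

end Pool.Agent.H4ac
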