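import Mathlib

/-! Cutoff lemma and uniqueness for an autonomous differential equation on an open set. -/

open Set Filter Topology
open scoped ContDiff Manifold

namespace Pool.Agent.H4ac

variable {F : Type} [NormedAddCommGroup F] [NormedSpace ℝ F] [FiniteDimensional ℝ F]

/-- `p` solves `p' = f(p)` on `I` and stays in `W`. -/
def Sol (W : Set F) (f : F → F) (I : Set ℝ) (p : ℝ → F) : Prop :=
  ∀ t ∈ I, p t ∈ W ∧ HasDerivWithinAt p (f (p t)) I t

/-- a Lipschitz bounded vector field which agrees with the given one near a compact set -/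
theorem cutoff {W : Set F} (hW : IsOpen W) {f : F → F} (hf : ContDiffOn ℝ 1 f W) {K : Set F}
    (hK : IsCompact K) (hKW : K ⊆ W) :
    ∃ (g : F → F) (C L : NNReal) (U : Set F), LipschitzWith C g ∧ (∀ x, ‖g x‖ ≤ L) ∧ IsOpen U ∧
      K ⊆ U ∧ U ⊆ W ∧ ∀ x ∈ U, g x = f x := by
  have : ProperSpace F := FiniteDimensional.proper ℝ F
  obtain ⟨K', hK'c, hKK', hK'W⟩ := exists_compact_between hK hW hKW
  obtain ⟨χ, hχ1, hχ0, -⟩ := exists_contMDiffMap_one_nhds_of_subset_interior (n := 1)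
    𝓘(ℝ, F) (M := F) hK.isClosed hKK'
  have hχs : ContDiff ℝ 1 χ := χ.contMDiff.contDiff
  set g : F → F := fun x => χ x • f x with hg
  have hgsm : ContDiff ℝ 1 g := by
    rw [contDiff_iff_contDiffAt]
    intro x
    by_cases hx : x ∈ W
    · exact hχs.contDiffAt.smul (hf.contDiffAt (hW.mem_nhds hx))
    · have hx' : x ∈ K'ᶜ := fun h => hx (hK'W h)
      have h0 : g =ᶠ[𝓝 x] fun _ => 0 := by
        filter_upwards [hK'c.isClosed.isOpen_compl.mem_nhds hx'] with y hy
        simp only [hg]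
        rw [hχ0 y hy, zero_smul]
      exact contDiffAt_const.congr_of_eventuallyEq h0
  have hcs : HasCompactSupport g := by
    apply HasCompactSupport.intro hK'c
    intro x hx
    simp only [hg]
    rw [hχ0 x hx, zero_smul]
  obtain ⟨C, hC⟩ := ContDiff.lipschitzWith_of_hasCompactSupport hcs hgsm one_ne_zero
  obtain ⟨L, hL⟩ := hcs.exists_bound_of_continuous hgsm.continuous
  rw [eventually_nhdsSet_iff_exists] at hχ1
  obtain ⟨U, hU, hKU, hU1⟩ := hχ1
  refine ⟨g, C, ⟨max L 0, le_max_right _ _⟩, U ∩ W, hC, fun x => (hL x).trans (le_max_left _ _),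
    hU.inter hW, subset_inter hKU hKW, inter_subset_right, ?_⟩
  intro x hx
  simp only [hg]
  rw [hU1 x hx.1, one_smul]

theorem sol_unique {W : Set F} (hW : IsOpen W) {f : F → F} (hf : ContDiffOn ℝ 1 f W)
    {τ : ℝ} (_ : 0 ≤ τ) {p q : ℝ → F} (hp : Sol W f (Icc 0 τ) p) (hq : Sol W f (Icc 0 τ) q)
    (h0 : p 0 = q 0) : ∀ t ∈ Icc 0 τ, p t = q t := by
  have hpc : ContinuousOn p (Icc 0 τ) := fun t ht => (hp t ht).2.continuousWithinAt
  have hqc : ContinuousOn q (Icc 0 τ) := fun t ht => (hq t ht).2.continuousWithinAt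
  have hKc : IsCompact (p '' Icc 0 τ ∪ q '' Icc 0 τ) :=
    (isCompact_Icc.image_of_continuousOn hpc).union (isCompact_Icc.image_of_continuousOn hqc)
  have hKW : p '' Icc 0 τ ∪ q '' Icc 0 τ ⊆ W := by
    rintro x (⟨t, ht, rfl⟩ | ⟨t, ht, rfl⟩)
    · exact (hp t ht).1
    · exact (hq t ht).1
  obtain ⟨g, C, L, U, hC, -, -, hKU, -, hgf⟩ := cutoff hW hf hKc hKW
  have key : ∀ r : ℝ → F, Sol W f (Icc 0 τ) r →
      r '' Icc 0 τ ⊆ p '' Icc 0 τ ∪ q '' Icc 0 τ →
      ∀ t ∈ Ico 0 τ, HasDerivWithinAt r (g (r t)) (Ici t) t := by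
    intro r hr hrs t ht
    have ht' : t ∈ Icc 0 τ := Ico_subset_Icc_self ht
    have h1 : g (r t) = f (r t) := hgf _ (hKU (hrs ⟨t, ht', rfl⟩))
    rw [h1]
    have h2 := (hr t ht').2
    apply h2.mono_of_mem_nhdsWithin
    have h3 : Icc t τ ∈ 𝓝[≥] t := Icc_mem_nhdsGE ht.2
    exact mem_of_superset h3 (Icc_subset_Icc_left ht.1)
  have := ODE_solution_unique_of_mem_Icc_right (v := fun _ => g) (s := fun _ => univ) (K := C)
    (a := 0) (b := τ) (f := p) (g := q) (fun t _ => hC.lipschitzOnWith) hpc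
    (key p hp subset_union_left) (fun _ _ => mem_univ _) hqc (key q hq subset_union_right)
    (fun _ _ => mem_univ _) h0
  exact fun t ht => this ht

end Pool.Agent.H4ac
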