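import Pool.Agent.H.MP_4ac55f_gt.OdeA

/-! Existence for an autonomous differential equation on an open set, with a priori bounds. -/

open Set Filter Topology Metric

namespace Pool.Agent.H4ac

variable {F : Type} [NormedAddCommGroup F] [NormedSpace ℝ F] [FiniteDimensional ℝ F]

omit [NormedSpace ℝ F] [FiniteDimensional ℝ F] in
theorem mem_of_Ico {q : ℝ → F} {τ x : ℝ} {K : Set F} (hK : IsClosed K)
    (hq : ContinuousOn q (Icc 0 τ)) (h0 : q 0 ∈ K) (hx : x ∈ Icc 0 τ)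
    (h : ∀ u, 0 ≤ u → u < x → q u ∈ K) : q x ∈ K := by
  rcases hx.1.eq_or_lt with h1 | h1
  · rw [← h1]; exact h0
  · have h2 : ContinuousWithinAt q (Ico 0 x) x :=
      (hq x hx).mono (fun u hu => ⟨hu.1, hu.2.le.trans hx.2⟩)
    have h3 : x ∈ closure (Ico 0 x) := by
      rw [closure_Ico h1.ne]; exact ⟨h1.le, le_rfl⟩
    have h4 := h2.mem_closure h3 (t := K) (fun u hu => h u hu.1 hu.2)
    rwa [hK.closure_eq] at h4

/-- existence on a compact interval, with an a priori bound -/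
theorem sol_exists_Icc {W : Set F} (hW : IsOpen W) {f : F → F} (hf : ContDiffOn ℝ 1 f W)
    {x0 : F} (hx0 : x0 ∈ W) {τ : ℝ} (hτ : 0 ≤ τ)
    {K : Set F} (hK : IsCompact K) (hKW : K ⊆ W)
    (hap : ∀ τ' ∈ Icc 0 τ, ∀ p : ℝ → F, p 0 = x0 → Sol W f (Icc 0 τ') p →
      ∀ t ∈ Icc 0 τ', p t ∈ K) :
    ∃ p : ℝ → F, p 0 = x0 ∧ Sol W f (Icc 0 τ) p := by
  have hxK : x0 ∈ K := by
    refine hap 0 ⟨le_rfl, hτ⟩ (fun _ => x0) rfl ?_ 0 ⟨le_rfl, le_rfl⟩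
    intro t ht
    refine ⟨hx0, ?_⟩
    rw [Icc_self, hasDerivWithinAt_iff_hasFDerivWithinAt]
    exact HasFDerivWithinAt.of_finite (finite_singleton _)
  obtain ⟨g, C, L, U, hC, hL, hU, hKU, hUW, hgf⟩ := cutoff hW hf hK hKW
  have hPL : IsPicardLindelof (fun _ : ℝ => g) (tmin := 0) (tmax := τ) ⟨0, le_rfl, hτ⟩ x0
      (L * ⟨τ, hτ⟩) 0 L C := by
    apply IsPicardLindelof.of_time_independent
    · intro x _; exact hL x
    · exact hC.lipschitzOnWith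
    · simp only [sub_zero, sub_self, NNReal.coe_mul, NNReal.coe_zero]
      rw [max_eq_left hτ]
      exact le_rfl
  obtain ⟨q, hq0, hq⟩ := hPL.exists_eq_forall_mem_Icc_hasDerivWithinAt₀
  simp only at hq0 hq
  have hqc : ContinuousOn q (Icc 0 τ) := fun t ht => (hq t ht).continuousWithinAt
  have hsol : ∀ τ' ∈ Icc 0 τ, (∀ t ∈ Icc 0 τ', q t ∈ U) → Sol W f (Icc 0 τ') q := by
    intro τ' hτ' hu t ht
    refine ⟨hUW (hu t ht), ?_⟩
    have h1 := (hq t ⟨ht.1, ht.2.trans hτ'.2⟩).mono (Icc_subset_Icc_right hτ'.2)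
    rwa [hgf _ (hu t ht)] at h1
  have hcl : IsClosed {t : ℝ | ∀ u, 0 ≤ u → u < t → q u ∈ K} := by
    have : {t : ℝ | ∀ u, 0 ≤ u → u < t → q u ∈ K} = ⋂ u : {u : ℝ // 0 ≤ u ∧ q u ∉ K}, Iic u.1 := by
      ext t
      simp only [mem_ofPred_eq, mem_iInter, mem_Iic, Subtype.forall]
      constructor
      · rintro h u ⟨hu0, huK⟩
        by_contra hlt
        exact huK (h u hu0 (not_le.1 hlt))
      · intro h u hu0 hut
        by_contra huK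
        exact absurd (h u ⟨hu0, huK⟩) (not_le.2 hut)
    rw [this]
    exact isClosed_iInter fun _ => isClosed_Iic
  have hsub : Icc 0 τ ⊆ {t : ℝ | ∀ u, 0 ≤ u → u < t → q u ∈ K} := by
    apply IsClosed.Icc_subset_of_forall_exists_gt (hcl.inter isClosed_Icc)
    · intro u hu0 hu; exact absurd hu (not_lt.2 hu0)
    · rintro x ⟨hxs, hx⟩ y hy
      have hx' : x ∈ Icc 0 τ := Ico_subset_Icc_self hx
      have hqx : q x ∈ K := mem_of_Ico hK.isClosed hqc (by rw [hq0]; exact hxK) hx' hxs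
      have h1 : ∀ᶠ u in 𝓝[Icc 0 τ] x, q u ∈ U := (hqc x hx') (hU.mem_nhds (hKU hqx))
      rw [eventually_nhdsWithin_iff, Metric.eventually_nhds_iff] at h1
      obtain ⟨δ, hδ, h1⟩ := h1
      set τ' := min (min (x + δ / 2) y) τ with hτ'
      have hxτ' : x < τ' := lt_min (lt_min (by linarith) hy) hx.2
      have hτ'm : τ' ∈ Icc 0 τ := ⟨hx.1.trans hxτ'.le, min_le_right _ _⟩
      have hu : ∀ t ∈ Icc 0 τ', q t ∈ U := by
        intro t ht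
        rcases lt_or_ge t x with htx | htx
        · exact hKU (hxs t ht.1 htx)
        · apply h1
          · rw [Real.dist_eq, abs_of_nonneg (by linarith)]
            have : τ' ≤ x + δ / 2 := (min_le_left _ _).trans (min_le_left _ _)
            linarith [ht.2]
          · exact ⟨ht.1, ht.2.trans hτ'm.2⟩
      have h2 := hap τ' hτ'm q hq0 (hsol τ' hτ'm hu)
      exact ⟨τ', fun u hu0 hut => h2 u ⟨hu0, hut.le⟩, hxτ',
        (min_le_left _ _).trans (min_le_right _ _)⟩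
  have hKall : ∀ t ∈ Icc 0 τ, q t ∈ K := fun t ht =>
    mem_of_Ico hK.isClosed hqc (by rw [hq0]; exact hxK) ht (hsub ht)
  exact ⟨q, hq0, hsol τ ⟨hτ, le_rfl⟩ fun t ht => hKU (hKall t ht)⟩

theorem sol_exists {W : Set F} (hW : IsOpen W) {f : F → F} (hf : ContDiffOn ℝ 1 f W)
    {x0 : F} (hx0 : x0 ∈ W) {J : Set ℝ} (hJ0 : (0 : ℝ) ∈ J)
    (hJ : ∀ t ∈ J, 0 ≤ t ∧ Icc 0 t ⊆ J) (hJn : ∀ t ∈ J, ∃ τ ∈ J, t < τ)
    (K : ℝ → Set F) (hK : ∀ τ ∈ J, IsCompact (K τ) ∧ K τ ⊆ W)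
    (hap : ∀ τ ∈ J, ∀ τ' ∈ Icc 0 τ, ∀ p : ℝ → F, p 0 = x0 → Sol W f (Icc 0 τ') p →
      ∀ t ∈ Icc 0 τ', p t ∈ K τ) :
    ∃ p : ℝ → F, p 0 = x0 ∧ Sol W f J p := by
  have hex : ∀ τ : ℝ, ∃ p : ℝ → F, τ ∈ J → p 0 = x0 ∧ Sol W f (Icc 0 τ) p := by
    intro τ
    by_cases hτ : τ ∈ J
    · obtain ⟨p, hp⟩ := sol_exists_Icc hW hf hx0 (hJ τ hτ).1 (hK τ hτ).1 (hK τ hτ).2 (hap τ hτ)
      exact ⟨p, fun _ => hp⟩
    · exact ⟨fun _ => x0, fun h => absurd h hτ⟩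
  choose P hP using hex
  have hs : ∀ t : ℝ, ∃ τ : ℝ, t ∈ J → τ ∈ J ∧ t < τ := by
    intro t
    by_cases ht : t ∈ J
    · obtain ⟨τ, h1, h2⟩ := hJn t ht
      exact ⟨τ, fun _ => ⟨h1, h2⟩⟩
    · exact ⟨0, fun h => absurd h ht⟩
  choose σ hσ using hs
  have hagree : ∀ τ ∈ J, ∀ τ' ∈ J, τ ≤ τ' → ∀ t ∈ Icc 0 τ, P τ t = P τ' t := by
    intro τ hτ τ' hτ' hle
    apply sol_unique hW hf (hJ τ hτ).1 (hP τ hτ).2
    · intro t ht
      have h1 := (hP τ' hτ').2 t ⟨ht.1, ht.2.trans hle⟩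
      exact ⟨h1.1, h1.2.mono (Icc_subset_Icc_right hle)⟩
    · rw [(hP τ hτ).1, (hP τ' hτ').1]
  have hag2 : ∀ τ ∈ J, ∀ τ' ∈ J, ∀ t, 0 ≤ t → t ≤ τ → t ≤ τ' → P τ t = P τ' t := by
    intro τ hτ τ' hτ' t h0 h1 h2
    rcases le_total τ τ' with h | h
    · exact hagree τ hτ τ' hτ' h t ⟨h0, h1⟩
    · exact (hagree τ' hτ' τ hτ h t ⟨h0, h2⟩).symm
  refine ⟨fun t => P (σ t) t, ?_, ?_⟩
  · exact (hP _ (hσ 0 hJ0).1).1
  · intro t ht
    obtain ⟨h1, h2⟩ := hσ t ht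
    have h0 : 0 ≤ t := (hJ t ht).1
    have h3 := (hP (σ t) h1).2 t ⟨h0, h2.le⟩
    refine ⟨h3.1, ?_⟩
    have h4 : HasDerivWithinAt (P (σ t)) (f (P (σ t) t)) J t := by
      apply h3.2.mono_of_mem_nhdsWithin
      have : J ∩ Iio (σ t) ⊆ Icc 0 (σ t) := fun u hu => ⟨(hJ u hu.1).1, hu.2.le⟩
      apply mem_of_superset _ this
      exact inter_mem self_mem_nhdsWithin (mem_nhdsWithin_of_mem_nhds (Iio_mem_nhds h2))
    refine HasDerivWithinAt.congr_of_eventuallyEq (f := P (σ t)) ?_ ?_ rfl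
    · exact h4
    have h5 : ∀ᶠ u in 𝓝[J] t, u < σ t := mem_nhdsWithin_of_mem_nhds (Iio_mem_nhds h2)
    filter_upwards [h5, self_mem_nhdsWithin] with u hu huJ
    obtain ⟨h6, h7⟩ := hσ u huJ
    exact hag2 _ h6 _ h1 u (hJ u huJ).1 h7.le hu.le

end Pool.Agent.H4ac
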