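import Pool.Agent.H.MP_4ac55f_gt.Cas

/-! The decomposition of `E` into the fixed vectors, spin one half, and the rest. -/

open scoped InnerProductSpace Topology
open Filter

namespace Pool.Agent.H4ac

variable {E : Type} [NormedAddCommGroup E] [InnerProductSpace ℝ E] [FiniteDimensional ℝ E]
variable {A : Fin 3 → E →ₗ[ℝ] E}
set_option linter.unusedSectionVars false

theorem mem_V0 {x : E} : x ∈ V0 A ↔ cas A x = 0 := LinearMap.mem_ker

theorem mem_V1 {x : E} : x ∈ V1 A ↔ cas A x = (3 : ℝ) • x := by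
  rw [V1, LinearMap.mem_ker]
  simp [sub_eq_zero]

theorem mem_V2 {x : E} :
    x ∈ V2 A ↔ (∀ y ∈ V0 A, inner ℝ y x = 0) ∧ ∀ y ∈ V1 A, inner ℝ y x = 0 := by
  rw [V2, ← Submodule.inf_orthogonal, Submodule.mem_inf]
  rfl

theorem V0_ortho_V1 (hA : IsSU2 A) {x y : E} (hx : x ∈ V0 A) (hy : y ∈ V1 A) :
    inner ℝ x y = 0 := by
  have h := cas_symm hA x y
  rw [mem_V0.1 hx, mem_V1.1 hy, inner_zero_left, real_inner_smul_right] at h
  linarith

theorem A_mem_V0 (hA : IsSU2 A) (a : Fin 3) {x : E} (hx : x ∈ V0 A) : A a x ∈ V0 A := by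
  rw [mem_V0, cas_comm hA, mem_V0.1 hx, map_zero]

theorem A_mem_V1 (hA : IsSU2 A) (a : Fin 3) {x : E} (hx : x ∈ V1 A) : A a x ∈ V1 A := by
  rw [mem_V1, cas_comm hA, mem_V1.1 hx, map_smul]

theorem A_mem_V2 (hA : IsSU2 A) (a : Fin 3) {x : E} (hx : x ∈ V2 A) : A a x ∈ V2 A := by
  rw [mem_V2] at hx ⊢
  refine ⟨fun y hy => ?_, fun y hy => ?_⟩
  · rw [skew' hA, hx.1 _ (A_mem_V0 hA a hy), neg_zero]
  · rw [skew' hA, hx.2 _ (A_mem_V1 hA a hy), neg_zero]

/-- `S` is stable under all `A_a`. -/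
theorem dop_mem {S : Submodule ℝ E} (hS : ∀ a, ∀ x ∈ S, A a x ∈ S)
    (Q : Matrix (Fin 3) (Fin 3) ℝ) {x : E} (hx : x ∈ S) : dop A Q x ∈ S := by
  rw [dop_apply]
  refine S.neg_mem (S.sum_mem fun a _ => S.sum_mem fun b _ => S.smul_mem _ ?_)
  exact hS _ _ (hS _ _ hx)

theorem cas_mem {S : Submodule ℝ E} (hS : ∀ a, ∀ x ∈ S, A a x ∈ S) {x : E} (hx : x ∈ S) :
    cas A x ∈ S := by
  rw [cas_eq_dop]
  exact dop_mem hS _ hx

theorem p0_mem (x : E) : p0 A x ∈ V0 A := Submodule.starProjection_apply_mem _ _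
theorem p1_mem (x : E) : p1 A x ∈ V1 A := Submodule.starProjection_apply_mem _ _
theorem p2_mem (x : E) : p2 A x ∈ V2 A := Submodule.starProjection_apply_mem _ _

theorem p2_eq (hA : IsSU2 A) (x : E) : p2 A x = x - p0 A x - p1 A x := by
  refine Submodule.eq_starProjection_of_mem_orthogonal (K := V2 A) ?_ ?_
  · rw [mem_V2]
    refine ⟨fun y hy => ?_, fun y hy => ?_⟩
    · rw [inner_sub_right, V0_ortho_V1 hA hy (p1_mem x), sub_zero, real_inner_comm]
      exact Submodule.starProjection_inner_eq_zero (K := V0 A) x y hy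
    · have h1 : inner ℝ y (x - p1 A x) = 0 := by
        rw [real_inner_comm]
        exact Submodule.starProjection_inner_eq_zero (K := V1 A) x y hy
      have h2 : inner ℝ y (p0 A x) = 0 := by
        rw [real_inner_comm]
        exact V0_ortho_V1 hA (p0_mem x) hy
      rw [sub_right_comm, inner_sub_right, h1, h2, sub_zero]
  · rw [V2, Submodule.orthogonal_orthogonal]
    have : x - (x - p0 A x - p1 A x) = p0 A x + p1 A x := by abel
    rw [this]
    exact Submodule.add_mem_sup (p0_mem x) (p1_mem x)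

theorem p_sum (hA : IsSU2 A) (x : E) : p0 A x + p1 A x + p2 A x = x := by
  rw [p2_eq hA]; abel

theorem p_comm_aux {S : Submodule ℝ E} (hA : IsSU2 A) (hS : ∀ a, ∀ x ∈ S, A a x ∈ S)
    (a : Fin 3) (x : E) : S.starProjection (A a x) = A a (S.starProjection x) := by
  refine Submodule.eq_starProjection_of_mem_of_inner_eq_zero (K := S)
    (hS _ _ (Submodule.starProjection_apply_mem _ _)) fun w hw => ?_
  rw [← map_sub, hA.skew, Submodule.starProjection_inner_eq_zero x _ (hS a w hw), neg_zero]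

theorem p0_comm (hA : IsSU2 A) (a : Fin 3) (x : E) : p0 A (A a x) = A a (p0 A x) :=
  p_comm_aux hA (fun a _ hx => A_mem_V0 hA a hx) a x
theorem p1_comm (hA : IsSU2 A) (a : Fin 3) (x : E) : p1 A (A a x) = A a (p1 A x) :=
  p_comm_aux hA (fun a _ hx => A_mem_V1 hA a hx) a x
theorem p2_comm (hA : IsSU2 A) (a : Fin 3) (x : E) : p2 A (A a x) = A a (p2 A x) :=
  p_comm_aux hA (fun a _ hx => A_mem_V2 hA a hx) a x

theorem p0_dop (hA : IsSU2 A) (Q : Matrix (Fin 3) (Fin 3) ℝ) (x : E) :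
    p0 A (dop A Q x) = dop A Q (p0 A x) := by
  simp only [dop_apply, map_neg, map_sum, map_smul, p0_comm hA]
theorem p1_dop (hA : IsSU2 A) (Q : Matrix (Fin 3) (Fin 3) ℝ) (x : E) :
    p1 A (dop A Q x) = dop A Q (p1 A x) := by
  simp only [dop_apply, map_neg, map_sum, map_smul, p1_comm hA]
theorem p2_dop (hA : IsSU2 A) (Q : Matrix (Fin 3) (Fin 3) ℝ) (x : E) :
    p2 A (dop A Q x) = dop A Q (p2 A x) := by
  simp only [dop_apply, map_neg, map_sum, map_smul, p2_comm hA]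

theorem inner_01 (hA : IsSU2 A) {x y : E} (hx : x ∈ V0 A) (hy : y ∈ V1 A) :
    inner ℝ x y = 0 := V0_ortho_V1 hA hx hy
theorem inner_02 {x y : E} (hx : x ∈ V0 A) (hy : y ∈ V2 A) : inner ℝ x y = 0 :=
  (mem_V2.1 hy).1 x hx
theorem inner_12 {x y : E} (hx : x ∈ V1 A) (hy : y ∈ V2 A) : inner ℝ x y = 0 :=
  (mem_V2.1 hy).2 x hx

/-- On fixed vectors all generators vanish. -/
theorem A_V0 (hA : IsSU2 A) {x : E} (hx : x ∈ V0 A) (a : Fin 3) : A a x = 0 := by
  have h := inner_cas hA x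
  rw [mem_V0.1 hx, inner_zero_left] at h
  have h2 : ‖A a x‖ ^ 2 = 0 := by
    have := (Finset.sum_eq_zero_iff_of_nonneg (fun b _ => sq_nonneg ‖A b x‖)).1 h.symm a
      (Finset.mem_univ a)
    exact this
  simpa using h2

/-- Splitting of the induced metric. -/
theorem inner_A_split (hA : IsSU2 A) (a b : Fin 3) (x : E) :
    inner ℝ (A a x) (A b x)
      = inner ℝ (A a (p1 A x)) (A b (p1 A x)) + inner ℝ (A a (p2 A x)) (A b (p2 A x)) := by
  have h : ∀ a, A a x = A a (p1 A x) + A a (p2 A x) := fun a => by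
    conv_lhs => rw [← p_sum hA x]
    rw [map_add, map_add, A_V0 hA (p0_mem x) a, zero_add]
  have e1 := inner_12 (A_mem_V1 hA a (p1_mem x)) (A_mem_V2 hA b (p2_mem x))
  have e2 := inner_12 (A_mem_V1 hA b (p1_mem x)) (A_mem_V2 hA a (p2_mem x))
  rw [real_inner_comm] at e2
  rw [h a, h b, inner_add_left, inner_add_right, inner_add_right, e1, e2]
  ring

end Pool.Agent.H4ac
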