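import Pool.Agent.H.MP_4ac55f_gt.Cas

/-! The mean curvature vector of an orbit.

Notation: `g = gram A x`, `Q = g^-1`.
* `gram_det_pos`: the Gram matrix of independent vectors is positive definite.
* `mcv_eq`: (i) `sum_ab Q_ab <A_a A_b x, A_e x> = 0` for each `e`: the part with `A_e A_a x` is
  antisymmetric in (a, b) (skewness of A_e), so its sum against the symmetric Q vanishes; the part
  with the commutator is `+- 2 g_bf` with `f` the third index, and `sum_b Q_ab g_bf = delta_af = 0`.
  Hence the projection of `sum Q_ab A_a A_b x` to the tangent space vanishes (starProjection is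
  linear).  (ii) `sum_ab Q_ab g_ab = 3`.
* `inner_dop_self`: `inner_dop` gives `sum_ab Q_ab g_ba = 3`.
* `form_mcv`: expand with `inner_dop_self`; the terms are
  `|D x|^2 - 2 * 3c * 3 + 9 c^2 form P P = |D x|^2 - 18 c + 9 c`. -/

open scoped InnerProductSpace Topology
open Filter

namespace Pool.Agent.H4ac

variable {E : Type} [NormedAddCommGroup E] [InnerProductSpace ℝ E] [FiniteDimensional ℝ E]
variable {A : Fin 3 → E →ₗ[ℝ] E}
set_option linter.unusedSectionVars false

theorem gram_symm (A : Fin 3 → E →ₗ[ℝ] E) (x : E) : (gram A x).transpose = gram A x := by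
  ext a b
  simp [gram, real_inner_comm]

theorem gram_inv_symm (A : Fin 3 → E →ₗ[ℝ] E) (x : E) :
    ((gram A x)⁻¹).transpose = (gram A x)⁻¹ := by
  rw [Matrix.transpose_nonsing_inv, gram_symm]

/-- The Gram matrix of independent vectors is invertible. -/
theorem gram_det_pos {x : E} (h : LinearIndependent ℝ (fun a => A a x)) :
    0 < (gram A x).det := by
  have h1 : gram A x = Matrix.gram ℝ (fun a => A a x) := rfl
  rw [h1]
  exact (Matrix.posDef_gram_of_linearIndependent h).det_pos

private theorem inv_mul_gram {x : E} (h : LinearIndependent ℝ (fun a => A a x)) :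
    (gram A x)⁻¹ * gram A x = 1 := by
  apply Matrix.nonsing_inv_mul
  exact isUnit_iff_ne_zero.mpr (gram_det_pos h).ne'

private theorem inv_gram_entry {x : E} (h : LinearIndependent ℝ (fun a => A a x))
    (a d : Fin 3) :
    ∑ b, (gram A x)⁻¹ a b * inner ℝ (A b x) (A d x) = (1 : Matrix (Fin 3) (Fin 3) ℝ) a d := by
  rw [← inv_mul_gram h, Matrix.mul_apply]
  rfl

private theorem inv_symm_entry (A : Fin 3 → E →ₗ[ℝ] E) (x : E) (a b : Fin 3) :
    (gram A x)⁻¹ a b = (gram A x)⁻¹ b a := by
  conv_lhs => rw [← gram_inv_symm A x]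
  rfl

private theorem anti_sum (hA : IsSU2 A) (x : E) (e : Fin 3) :
    ∑ a, ∑ b, (gram A x)⁻¹ a b * inner ℝ (A b x) (A e (A a x)) = 0 := by
  have h1 : ∑ a, ∑ b, (gram A x)⁻¹ a b * inner ℝ (A b x) (A e (A a x))
      = -∑ a, ∑ b, (gram A x)⁻¹ a b * inner ℝ (A b x) (A e (A a x)) := by
    conv_lhs => rw [Finset.sum_comm]
    rw [← Finset.sum_neg_distrib]
    refine Finset.sum_congr rfl fun a _ => ?_
    rw [← Finset.sum_neg_distrib]
    refine Finset.sum_congr rfl fun b _ => ?_
    rw [inv_symm_entry A x b a, skew' hA, real_inner_comm]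
    ring
  linarith

private theorem comm_sum {x : E} (h : LinearIndependent ℝ (fun a => A a x)) (hA : IsSU2 A)
    (e : Fin 3) :
    ∑ a, ∑ b, (gram A x)⁻¹ a b * inner ℝ (A b x) (A a (A e x) - A e (A a x)) = 0 := by
  have key : ∀ a d : Fin 3, ∀ r : ℝ, a ≠ d → A a (A e x) - A e (A a x) = r • A d x →
      ∑ b, (gram A x)⁻¹ a b * inner ℝ (A b x) (A a (A e x) - A e (A a x)) = 0 := by
    intro a d r had hr
    rw [hr]
    have h2 := inv_gram_entry h a d
    rw [Matrix.one_apply_ne had] at h2
    calc ∑ b, (gram A x)⁻¹ a b * inner ℝ (A b x) (r • A d x)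
        = r * ∑ b, (gram A x)⁻¹ a b * inner ℝ (A b x) (A d x) := by
          rw [Finset.mul_sum]
          refine Finset.sum_congr rfl fun b _ => ?_
          rw [real_inner_smul_right]
          ring
      _ = 0 := by rw [h2, mul_zero]
  apply Finset.sum_eq_zero
  intro a _
  have e01 := hA.c01 x
  have e12 := hA.c12 x
  have e20 := hA.c20 x
  have f01 : A 1 (A 0 x) - A 0 (A 1 x) = (-2 : ℝ) • A 2 x := by
    rw [neg_smul, ← e01]; abel
  have f12 : A 2 (A 1 x) - A 1 (A 2 x) = (-2 : ℝ) • A 0 x := by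
    rw [neg_smul, ← e12]; abel
  have f20 : A 0 (A 2 x) - A 2 (A 0 x) = (-2 : ℝ) • A 1 x := by
    rw [neg_smul, ← e20]; abel
  fin_cases a <;> fin_cases e
  · exact key 0 1 0 (by decide) (by simp)
  · exact key 0 2 2 (by decide) e01
  · exact key 0 1 (-2) (by decide) f20
  · exact key 1 2 (-2) (by decide) f01
  · exact key 1 0 0 (by decide) (by simp)
  · exact key 1 0 2 (by decide) e12
  · exact key 2 1 2 (by decide) e20
  · exact key 2 0 (-2) (by decide) f12
  · exact key 2 0 0 (by decide) (by simp)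

private theorem inner_dop_A (hA : IsSU2 A) {x : E} (h : LinearIndependent ℝ (fun a => A a x))
    (e : Fin 3) : inner ℝ (dop A (gram A x)⁻¹ x) (A e x) = 0 := by
  rw [inner_dop hA]
  have h1 : ∑ a, ∑ b, (gram A x)⁻¹ a b * inner ℝ (A b x) (A a (A e x))
      = ∑ a, ∑ b, (gram A x)⁻¹ a b * inner ℝ (A b x) (A a (A e x) - A e (A a x))
        + ∑ a, ∑ b, (gram A x)⁻¹ a b * inner ℝ (A b x) (A e (A a x)) := by
    rw [← Finset.sum_add_distrib]
    refine Finset.sum_congr rfl fun a _ => ?_
    rw [← Finset.sum_add_distrib]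
    refine Finset.sum_congr rfl fun b _ => ?_
    rw [inner_sub_right]
    ring
  rw [h1, comm_sum h hA, anti_sum hA, add_zero]

private theorem proj_dop (hA : IsSU2 A) {x : E} (h : LinearIndependent ℝ (fun a => A a x)) :
    (tangent A x).starProjection (dop A (gram A x)⁻¹ x) = 0 := by
  rw [Submodule.starProjection_apply_eq_zero_iff, Submodule.mem_orthogonal]
  intro u hu
  unfold tangent at hu
  induction hu using Submodule.span_induction with
  | mem y hy =>
    obtain ⟨e, rfl⟩ := hy
    rw [real_inner_comm]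
    exact inner_dop_A hA h e
  | zero => simp
  | add y z _ _ hy hz => rw [inner_add_left, hy, hz, add_zero]
  | smul r y _ hy => rw [real_inner_smul_left, hy, mul_zero]

private theorem sum_inv_gram {x : E} (h : LinearIndependent ℝ (fun a => A a x)) :
    ∑ a, ∑ b, (gram A x)⁻¹ a b * inner ℝ (A b x) (A a x) = 3 := by
  have h1 : ∀ a : Fin 3, ∑ b, (gram A x)⁻¹ a b * inner ℝ (A b x) (A a x) = 1 := by
    intro a
    rw [inv_gram_entry h a a, Matrix.one_apply_eq]
  simp [h1]

theorem mcv_eq (hA : IsSU2 A) (c : ℝ) (P : E × ℝ)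
    (h : LinearIndependent ℝ (fun a => A a P.1)) :
    mcv c A P = (-(dop A (gram A P.1)⁻¹ P.1) + (3 * c) • P.1, 3 * c * P.2) := by
  have h3 : ∑ a, ∑ b, (gram A P.1)⁻¹ a b * gram A P.1 a b = 3 := by
    rw [← sum_inv_gram h]
    refine Finset.sum_congr rfl fun a _ => Finset.sum_congr rfl fun b _ => ?_
    rw [real_inner_comm]
    rfl
  have hp := proj_dop hA h
  rw [dop_apply, map_neg, neg_eq_zero, map_sum] at hp
  have hp' : ∑ a, ∑ b, (gram A P.1)⁻¹ a b •
      (tangent A P.1).starProjection (A a (A b P.1)) = 0 := by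
    rw [← hp]
    refine Finset.sum_congr rfl fun a _ => ?_
    rw [map_sum]
    refine Finset.sum_congr rfl fun b _ => ?_
    rw [map_smul]
  unfold mcv
  apply Prod.ext
  · rw [Prod.fst_sum]
    have e1 : ∀ a : Fin 3, (∑ b, (gram A P.1)⁻¹ a b • sff c A P a b).1
        = ∑ b, (gram A P.1)⁻¹ a b • A a (A b P.1)
          - ∑ b, (gram A P.1)⁻¹ a b • (tangent A P.1).starProjection (A a (A b P.1))
          + (c * ∑ b, (gram A P.1)⁻¹ a b * gram A P.1 a b) • P.1 := by
      intro a
      rw [Prod.fst_sum, ← Finset.sum_sub_distrib, Finset.mul_sum, Finset.sum_smul,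
        ← Finset.sum_add_distrib]
      refine Finset.sum_congr rfl fun b _ => ?_
      simp only [sff, Prod.smul_fst]
      module
    rw [Finset.sum_congr rfl fun a _ => e1 a, Finset.sum_add_distrib, Finset.sum_sub_distrib,
      hp', sub_zero, ← Finset.sum_smul, ← Finset.mul_sum, h3, dop_apply, neg_neg, mul_comm]
  · rw [Prod.snd_sum]
    have e1 : ∀ a : Fin 3, (∑ b, (gram A P.1)⁻¹ a b • sff c A P a b).2
        = c * P.2 * ∑ b, (gram A P.1)⁻¹ a b * gram A P.1 a b := by
      intro a
      rw [Prod.snd_sum, Finset.mul_sum]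
      refine Finset.sum_congr rfl fun b _ => ?_
      simp only [sff, Prod.smul_snd, smul_eq_mul]
      ring
    rw [Finset.sum_congr rfl fun a _ => e1 a, ← Finset.mul_sum, h3]
    ring

theorem inner_dop_self (hA : IsSU2 A) {x : E} (h : LinearIndependent ℝ (fun a => A a x)) :
    inner ℝ (dop A (gram A x)⁻¹ x) x = 3 := by
  rw [inner_dop hA, ← sum_inv_gram h]

theorem form_mcv (hA : IsSU2 A) {c : ℝ} {P : E × ℝ} (hP : IsPoint c P)
    (h : LinearIndependent ℝ (fun a => A a P.1)) :
    form (mcv c A P) (mcv c A P) = ‖dop A (gram A P.1)⁻¹ P.1‖ ^ 2 - 9 * c := by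
  rw [mcv_eq hA c P h]
  have h1 := inner_dop_self hA h
  set D := dop A (gram A P.1)⁻¹ P.1 with hD
  have h2 : c ^ 2 * form P P = c := by
    by_cases hc : c = 0
    · simp [hc]
    · have := hP.1 hc
      rw [pow_two, mul_assoc, this, mul_one]
  unfold form at h2 ⊢
  simp only
  have h4 : inner ℝ (-D + (3 * c) • P.1) (-D + (3 * c) • P.1)
      = ‖D‖ ^ 2 - 6 * c * inner ℝ D P.1 + 9 * c ^ 2 * inner ℝ P.1 P.1 := by
    rw [← real_inner_self_eq_norm_sq]
    simp only [inner_add_left, inner_add_right, inner_neg_left, inner_neg_right,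
      real_inner_smul_left, real_inner_smul_right]
    rw [real_inner_comm D P.1]
    ring
  rw [h4, h1]
  linear_combination 9 * h2

end Pool.Agent.H4ac
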