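import Pool.Agent.H.MP_4ac55f_gt.Proj

/-! Integrality of the spin (up to spin one).

Proof of `spin_gap`.  Let `W = ker (cas A - mu)`, nonzero, stable under all `A_a` (cas_comm).  Choose
an eigenvector `x` of the symmetric operator `- A_0 A_0` on `W` with LARGEST eigenvalue `nu^2`
(`nu >= 0`; the operator is symmetric and nonnegative since `<-A_0 A_0 x, x> = |A_0 x|^2`; W is finite
dimensional and nonzero; `LinearMap.IsSymmetric.hasEigenvalue_iSup_of_finiteDimensional` on the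
restriction to `W`).
Work with PAIRS `(x, y)` in `W x W` standing for `x + i y`.  Say that the pair has weight `m` if
`A_0 x = - m y` and `A_0 y = m x`.  If `nu > 0`: `y := - (1/nu) A_0 x` gives weight `nu`.  If `nu = 0`
then `A_0 x = 0`, take `y = 0` (weight 0).
* raise `(x, y)` to `(A_1 x + A_2 y, A_1 y - A_2 x)`: it has weight `m + 2`; lower `(x, y)` to
  `(A_1 x - A_2 y, A_1 y + A_2 x)`: weight `m - 2` (both by c01, c20).  A nonzero pair of weight `m`
  has a nonzero entry which is an eigenvector of `- A_0 A_0` with eigenvalue `m^2`; so `m^2 <= nu^2`.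
* norms: with `n(x,y) = |x|^2 + |y|^2`, for a pair of weight `m` in `W x W`:
  `n(raise) = (mu - m^2 - 2 m) n`,  `n(lower) = (mu - m^2 + 2 m) n`
  (expand; `|A_1 x|^2 + |A_2 x|^2 = <cas x, x> - |A_0 x|^2 = (mu - m^2 ...)`, sum over x and y, cross
  term `+- 4 <A_0 x, y>`, `<A_0 x, y> = - m |y|^2 `, `|x|`-part symmetric: `<A_0 x, y> = -<x, A_0 y> =
  - m |x|^2`).
* maximality: raise of the top pair is zero, so `mu = nu^2 + 2 nu`.
* lower the top pair three times: norms `n1 = 4 nu n0`, `n2 = (8 nu - 8) n1`, `n3 = (12 nu - 24) n2`,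
  all nonnegative.  `nu = 0` gives `mu = 0`.  If `nu > 0` then `n1 > 0`, so `nu >= 1`; `nu = 1` gives
  `mu = 3`; `nu > 1` gives `n2 > 0`, so `nu >= 2` and `mu >= 8`.

Proof of `V1_anti`.  `x` in `V1`, `mu = 3`.  First `A_a A_a x = - x` for each `a`: on `V1` (stable)
the symmetric operator `N = - A_a A_a` has all eigenvalues `nu^2` with `3 >= nu^2 + 2 nu` (same norm
formula of raise, which is `>= 0`; use the cyclic symmetry of the hypotheses: the triple
`A_1, A_2, A_0` is again IsSU2), so `nu <= 1` and `|A_a x|^2 <= |x|^2`; the sum over `a` is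
`<cas x, x> = 3 |x|^2`, hence equality for each `a` and each `x` in `V1`; the symmetric operator
`1 - N >= 0` on `V1` with `<(1-N) x, x> = 0` for all x vanishes, i.e. `A_a A_a x = - x`.
For `a /= b`: let `T = A_a A_b + A_b A_a` (symmetric). From `A_a A_a = A_b A_b = -1` on `V1` and
`[A_a, A_b] = +- 2 A_c`: `A_a (A_a A_b - A_b A_a) = +- 2 A_a A_c`, i.e. `- A_b - A_a A_b A_a = +- 2 A_a A_c`,
and `(A_a A_b - A_b A_a) A_a = +- 2 A_c A_a`, i.e. `A_a A_b A_a + A_b = +- 2 A_c A_a`; add: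
`A_a A_c + A_c A_a = 0`.  This gives all three pairs.
(Any other proof is fine.)

Proof of `joint_gap`.  `eta >= 0` since `eta |z|^2 = |A_a z|^2`.  If `eta <= 4`: `mu - eta >= 4`.
If `eta > 4` put `nu = sqrt eta > 2`, `y = - (1/nu) A_a z` (for `a = 0`; cyclic for the others): the pair
`(z, y)` has weight `nu`, and `n(raise) >= 0` gives `mu - eta >= 2 nu > 4`. -/

open scoped InnerProductSpace Topology
open Filter

namespace Pool.Agent.H4ac

variable {E : Type} [NormedAddCommGroup E] [InnerProductSpace ℝ E] [FiniteDimensional ℝ E]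
variable {A : Fin 3 → E →ₗ[ℝ] E}
set_option linter.unusedSectionVars false

/-- three generators in cyclic order on the stable subspace `W`, where the Casimir operator is `μ` -/
private structure Spin_T (P Q R : E →ₗ[ℝ] E) (W : Submodule ℝ E) (μ : ℝ) : Prop where
  sP : ∀ x y, inner ℝ (P x) y = -inner ℝ x (P y)
  sQ : ∀ x y, inner ℝ (Q x) y = -inner ℝ x (Q y)
  sR : ∀ x y, inner ℝ (R x) y = -inner ℝ x (R y)
  c1 : ∀ x, P (Q x) - Q (P x) = (2 : ℝ) • R x
  c2 : ∀ x, Q (R x) - R (Q x) = (2 : ℝ) • P x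
  c3 : ∀ x, R (P x) - P (R x) = (2 : ℝ) • Q x
  wP : ∀ x ∈ W, P x ∈ W
  wQ : ∀ x ∈ W, Q x ∈ W
  wR : ∀ x ∈ W, R x ∈ W
  cs : ∀ x ∈ W, P (P x) + Q (Q x) + R (R x) = -(μ • x)

/-- a pair of weight `m` -/
private def Spin_W (P : E →ₗ[ℝ] E) (W : Submodule ℝ E) (m : ℝ) (x y : E) : Prop :=
  x ∈ W ∧ y ∈ W ∧ P x = -(m • y) ∧ P y = m • x

private theorem Spin_mem {W : Submodule ℝ E} {μ : ℝ} (hW : W = LinearMap.ker (cas A - μ • LinearMap.id))
    {x : E} : x ∈ W ↔ cas A x = μ • x := by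
  rw [hW, LinearMap.mem_ker]
  simp [sub_eq_zero]

/-- the three cyclic orders -/
private theorem Spin_tri (hA : IsSU2 A) (a : Fin 3) {W : Submodule ℝ E} {μ : ℝ}
    (hW : W = LinearMap.ker (cas A - μ • LinearMap.id)) :
    ∃ b c, Spin_T (A a) (A b) (A c) W μ ∧ ((a = 0 ∧ b = 1 ∧ c = 2) ∨ (a = 1 ∧ b = 2 ∧ c = 0) ∨
      (a = 2 ∧ b = 0 ∧ c = 1)) := by
  have hw : ∀ a, ∀ x ∈ W, A a x ∈ W := by
    intro a x hx
    rw [Spin_mem hW] at hx ⊢
    rw [cas_comm hA, hx, map_smul]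
  have hc : ∀ x ∈ W, A 0 (A 0 x) + A 1 (A 1 x) + A 2 (A 2 x) = -(μ • x) := by
    intro x hx
    rw [Spin_mem hW, cas_apply, Fin.sum_univ_three] at hx
    rw [← hx, neg_neg]
  fin_cases a
  · refine ⟨1, 2, ⟨hA.skew 0, hA.skew 1, hA.skew 2, hA.c01, hA.c12, hA.c20, hw 0, hw 1, hw 2,
      hc⟩, ?_⟩
    simp
  · refine ⟨2, 0, ⟨hA.skew 1, hA.skew 2, hA.skew 0, hA.c12, hA.c20, hA.c01, hw 1, hw 2, hw 0,
      fun x hx => ?_⟩, ?_⟩
    · rw [← hc x hx]
      show A 1 (A 1 x) + A 2 (A 2 x) + A 0 (A 0 x) = _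
      abel
    · simp
  · refine ⟨0, 1, ⟨hA.skew 2, hA.skew 0, hA.skew 1, hA.c20, hA.c01, hA.c12, hw 2, hw 0, hw 1,
      fun x hx => ?_⟩, ?_⟩
    · rw [← hc x hx]
      show A 2 (A 2 x) + A 0 (A 0 x) + A 1 (A 1 x) = _
      abel
    · simp

/-- the raised pair -/
private theorem Spin_raise {P Q R : E →ₗ[ℝ] E} {W : Submodule ℝ E} {μ : ℝ}
    (T : Spin_T P Q R W μ) {m : ℝ} {x y : E} (h : Spin_W P W m x y) :
    Spin_W P W (m + 2) (Q x + R y) (Q y - R x) := by
  obtain ⟨hx, hy, h1, h2⟩ := h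
  refine ⟨W.add_mem (T.wQ x hx) (T.wR y hy), W.sub_mem (T.wQ y hy) (T.wR x hx), ?_, ?_⟩
  · have e1 := T.c1 x
    have e2 := T.c3 y
    rw [h1, map_neg, map_smul] at e1
    rw [h2, map_smul] at e2
    rw [map_add]
    linear_combination (norm := module) e1 - e2
  · have e1 := T.c1 y
    have e2 := T.c3 x
    rw [h2, map_smul] at e1
    rw [h1, map_neg, map_smul] at e2
    rw [map_sub]
    linear_combination (norm := module) e1 + e2

private theorem Spin_norm {P Q R : E →ₗ[ℝ] E} {W : Submodule ℝ E} {μ : ℝ}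
    (T : Spin_T P Q R W μ) {m : ℝ} {x y : E} (h : Spin_W P W m x y) :
    ‖Q x + R y‖ ^ 2 + ‖Q y - R x‖ ^ 2 = (μ - m ^ 2 - 2 * m) * (‖x‖ ^ 2 + ‖y‖ ^ 2) := by
  obtain ⟨hx, hy, h1, h2⟩ := h
  have n1 := norm_add_sq_real (Q x) (R y)
  have n2 := norm_sub_sq_real (Q y) (R x)
  have q : ∀ z ∈ W, ‖P z‖ ^ 2 + ‖Q z‖ ^ 2 + ‖R z‖ ^ 2 = μ * ‖z‖ ^ 2 := by
    intro z hz
    have e1 := congrArg (fun u => inner ℝ z u) (T.cs z hz)
    simp only [inner_add_right, inner_neg_right, real_inner_smul_right,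
      real_inner_self_eq_norm_sq] at e1
    have a1 := T.sP z (P z)
    have a2 := T.sQ z (Q z)
    have a3 := T.sR z (R z)
    rw [real_inner_self_eq_norm_sq] at a1 a2 a3
    linarith
  have c1 : inner ℝ (Q x) (R y) = -inner ℝ x (Q (R y)) := T.sQ x (R y)
  have c2 : inner ℝ (Q y) (R x) = -inner ℝ x (R (Q y)) := by
    rw [real_inner_comm, T.sR]
  have c3 := congrArg (fun u => inner ℝ x u) (T.c2 y)
  simp only [inner_sub_right, real_inner_smul_right] at c3
  have c4 : inner ℝ x (P y) = m * ‖x‖ ^ 2 := by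
    rw [h2, real_inner_smul_right, real_inner_self_eq_norm_sq]
  have c5 : inner ℝ (P x) y = -(m * ‖y‖ ^ 2) := by
    rw [h1, inner_neg_left, real_inner_smul_left, real_inner_self_eq_norm_sq]
  have c6 := T.sP x y
  have p1 : ‖P x‖ ^ 2 = m ^ 2 * ‖y‖ ^ 2 := by
    rw [h1, norm_neg, norm_smul, mul_pow, Real.norm_eq_abs, sq_abs]
  have p2 : ‖P y‖ ^ 2 = m ^ 2 * ‖x‖ ^ 2 := by
    rw [h2, norm_smul, mul_pow, Real.norm_eq_abs, sq_abs]
  have q1 := q x hx
  have q2 := q y hy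
  rw [n1, n2]
  rw [c4] at c3 c6
  rw [c5] at c6
  linarith

private theorem Spin_pos {x y : E} (h : x ≠ 0 ∨ y ≠ 0) : 0 < ‖x‖ ^ 2 + ‖y‖ ^ 2 := by
  rcases h with h | h
  · have := norm_pos_iff.2 h
    positivity
  · have := norm_pos_iff.2 h
    positivity

private theorem Spin_ne {x y : E} (h : 0 < ‖x‖ ^ 2 + ‖y‖ ^ 2) : x ≠ 0 ∨ y ≠ 0 := by
  by_contra hcon
  push Not at hcon
  rw [hcon.1, hcon.2] at h
  simp at h

private theorem Spin_flip {P : E →ₗ[ℝ] E} {W : Submodule ℝ E} {m : ℝ} {x y : E}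
    (h : Spin_W P W m x y) : Spin_W P W (-m) x (-y) := by
  obtain ⟨hx, hy, h1, h2⟩ := h
  refine ⟨hx, W.neg_mem hy, ?_, ?_⟩
  · rw [h1]
    module
  · rw [map_neg, h2]
    module

/-- an eigenvector of `P P` gives a pair -/
private theorem Spin_pair {P Q R : E →ₗ[ℝ] E} {W : Submodule ℝ E} {μ : ℝ}
    (T : Spin_T P Q R W μ) {w : E} (hw : w ∈ W) (h0 : w ≠ 0) {l : ℝ} (hl : P (P w) = l • w) :
    ∃ ν, 0 ≤ ν ∧ l = -ν ^ 2 ∧ ∃ y, Spin_W P W ν w y := by
  have hn : 0 < ‖w‖ ^ 2 := by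
    have := norm_pos_iff.2 h0
    positivity
  have e1 : ‖P w‖ ^ 2 = -l * ‖w‖ ^ 2 := by
    have a1 := T.sP w (P w)
    rw [real_inner_self_eq_norm_sq, hl, real_inner_smul_right, real_inner_self_eq_norm_sq] at a1
    linarith
  have hl0 : 0 ≤ -l := by
    by_contra hcon
    push Not at hcon
    nlinarith [sq_nonneg ‖P w‖]
  have hsq : Real.sqrt (-l) ^ 2 = -l := Real.sq_sqrt hl0
  refine ⟨Real.sqrt (-l), Real.sqrt_nonneg _, by rw [hsq, neg_neg], ?_⟩
  rcases (Real.sqrt_nonneg (-l)).eq_or_lt with h1 | h1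
  · refine ⟨0, hw, W.zero_mem, ?_, ?_⟩
    · have h2 : l = 0 := by
        rw [← h1] at hsq
        linarith
      rw [h2] at e1
      have h3 : ‖P w‖ = 0 := by
        have : ‖P w‖ ^ 2 = 0 := by rw [e1]; ring
        exact pow_eq_zero_iff (two_ne_zero) |>.1 this
      rw [smul_zero, neg_zero]
      exact norm_eq_zero.1 h3
    · rw [← h1, zero_smul, map_zero]
  · refine ⟨-((Real.sqrt (-l))⁻¹ • P w), hw, W.neg_mem (W.smul_mem _ (T.wP w hw)), ?_, ?_⟩
    · rw [smul_neg, neg_neg, smul_smul, mul_inv_cancel₀ h1.ne', one_smul]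
    · rw [map_neg, map_smul, hl, smul_smul, ← neg_smul]
      congr 1
      have h3 : l = -(Real.sqrt (-l) * Real.sqrt (-l)) := by
        rw [← sq, hsq, neg_neg]
      have h4 : (Real.sqrt (-l))⁻¹ * l = -Real.sqrt (-l) := by
        calc (Real.sqrt (-l))⁻¹ * l
            = (Real.sqrt (-l))⁻¹ * -(Real.sqrt (-l) * Real.sqrt (-l)) := by rw [← h3]
          _ = -Real.sqrt (-l) := by
            field_simp
      rw [h4, neg_neg]

/-- a symmetric operator has an eigenvector in each nonzero stable subspace -/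
private theorem Spin_eig {S : E →ₗ[ℝ] E} (hS : ∀ x y, inner ℝ (S x) y = inner ℝ x (S y))
    {W : Submodule ℝ E} (hW : ∀ x ∈ W, S x ∈ W) {x : E} (hx : x ∈ W) (h0 : x ≠ 0) :
    ∃ w ∈ W, w ≠ 0 ∧ ∃ l : ℝ, S w = l • w := by
  by_contra hcon
  push Not at hcon
  have hsym : (S.restrict hW).IsSymmetric := by
    intro u v
    exact hS u v
  have h1 : ∀ l : ℝ, Module.End.eigenspace (S.restrict hW) l = ⊥ := by
    intro l
    rw [eq_bot_iff]
    intro u hu
    rw [Module.End.mem_eigenspace_iff] at hu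
    rw [Submodule.mem_bot]
    by_contra hu0
    have h2 : (u : E) ≠ 0 := fun h => hu0 (Subtype.ext h)
    refine hcon u u.2 h2 l ?_
    have h3 := congrArg (Subtype.val) hu
    exact h3
  have h2 : Subsingleton W := hsym.subsingleton_of_no_eigenvalue_finiteDimensional h1
  have h3 : (⟨x, hx⟩ : W) = 0 := Subsingleton.elim _ _
  exact h0 (congrArg Subtype.val h3)

private theorem Spin_PP {P Q R : E →ₗ[ℝ] E} {W : Submodule ℝ E} {μ : ℝ}
    (T : Spin_T P Q R W μ) (x y : E) :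
    inner ℝ ((P ∘ₗ P) x) y = inner ℝ x ((P ∘ₗ P) y) := by
  rw [LinearMap.comp_apply, LinearMap.comp_apply, T.sP, T.sP, neg_neg]

/-- the top pair -/
private theorem Spin_top {P Q R : E →ₗ[ℝ] E} {W : Submodule ℝ E} {μ : ℝ}
    (T : Spin_T P Q R W μ) {m : ℝ} (hm : 0 ≤ m) {x y : E} (h : Spin_W P W m x y)
    (h0 : x ≠ 0 ∨ y ≠ 0) :
    ∃ ν, 0 ≤ ν ∧ μ = ν ^ 2 + 2 * ν ∧ ∃ x y, Spin_W P W ν x y ∧ (x ≠ 0 ∨ y ≠ 0) := by
  by_contra hcon
  push Not at hcon
  have key : ∀ k : ℕ, ∃ x y, Spin_W P W (m + 2 * k) x y ∧ (x ≠ 0 ∨ y ≠ 0) := by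
    intro k
    induction k with
    | zero => exact ⟨x, y, by simpa using h, h0⟩
    | succ k ih =>
      obtain ⟨u, v, huv, hne⟩ := ih
      refine ⟨Q u + R v, Q v - R u, ?_, ?_⟩
      · have := Spin_raise T huv
        push_cast
        rw [mul_add, mul_one, ← add_assoc]
        exact this
      · have hk : 0 ≤ m + 2 * (k : ℝ) := by positivity
        have hmu : μ ≠ (m + 2 * (k : ℝ)) ^ 2 + 2 * (m + 2 * (k : ℝ)) := by
          intro hmu
          have h3 := hcon _ hk hmu u v huv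
          rcases hne with h4 | h4
          · exact h4 h3.1
          · exact h4 h3.2
        have hn := Spin_norm T huv
        have hpos := Spin_pos hne
        apply Spin_ne
        rw [hn]
        have h5 : 0 ≤ (μ - (m + 2 * (k : ℝ)) ^ 2 - 2 * (m + 2 * (k : ℝ))) *
            (‖u‖ ^ 2 + ‖v‖ ^ 2) := by
          rw [← hn]
          positivity
        refine lt_of_le_of_ne h5 ?_
        intro h6
        rcases mul_eq_zero.1 h6.symm with h7 | h7
        · exact hmu (by linarith)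
        · exact hpos.ne' h7
  obtain ⟨k, hk⟩ := exists_nat_gt μ
  obtain ⟨u, v, huv, hne⟩ := key k
  have hn := Spin_norm T huv
  have hpos := Spin_pos hne
  have h5 : 0 ≤ (μ - (m + 2 * (k : ℝ)) ^ 2 - 2 * (m + 2 * (k : ℝ))) * (‖u‖ ^ 2 + ‖v‖ ^ 2) := by
    rw [← hn]
    positivity
  have h6 : 0 ≤ μ - (m + 2 * (k : ℝ)) ^ 2 - 2 * (m + 2 * (k : ℝ)) :=
    nonneg_of_mul_nonneg_left h5 hpos
  have hk0 : (0 : ℝ) ≤ k := Nat.cast_nonneg k
  nlinarith [sq_nonneg (m + 2 * (k : ℝ))]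

/-- The Casimir eigenvalues are 0, 3 or at least 8. -/
theorem spin_gap (hA : IsSU2 A) {x : E} {μ : ℝ} (hx : cas A x = μ • x) (h0 : x ≠ 0) :
    μ = 0 ∨ μ = 3 ∨ 8 ≤ μ := by
  obtain ⟨b, c, T, -⟩ := Spin_tri hA 0 (μ := μ) rfl
  have hxW : x ∈ LinearMap.ker (cas A - μ • LinearMap.id) := (Spin_mem rfl).2 hx
  obtain ⟨w, hw, hw0, l, hl⟩ := Spin_eig (Spin_PP T)
    (fun x hx => T.wP _ (T.wP x hx)) hxW h0
  obtain ⟨m, hm, -, y, hy⟩ := Spin_pair T hw hw0 (l := l) hl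
  obtain ⟨ν, hν, hμ, u, v, huv, hne⟩ := Spin_top T hm hy (Or.inl hw0)
  have f0 := Spin_flip huv
  have n0 : 0 < ‖u‖ ^ 2 + ‖-v‖ ^ 2 := by
    rw [norm_neg]
    exact Spin_pos hne
  have f1 := Spin_raise T f0
  have e1 := Spin_norm T f0
  have f2 := Spin_raise T f1
  have e2 := Spin_norm T f1
  have e3 := Spin_norm T f2
  set N0 : ℝ := ‖u‖ ^ 2 + ‖-v‖ ^ 2
  set x1 : E := A b u + A c (-v)
  set y1 : E := A b (-v) - A c u
  set x2 : E := A b x1 + A c y1
  set y2 : E := A b y1 - A c x1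
  set N1 : ℝ := ‖x1‖ ^ 2 + ‖y1‖ ^ 2
  set N2 : ℝ := ‖x2‖ ^ 2 + ‖y2‖ ^ 2
  have g1 : N1 = 4 * ν * N0 := by
    rw [e1, hμ]
    ring
  have g2 : N2 = (8 * ν - 8) * N1 := by
    rw [e2, hμ]
    ring
  have g3 : 0 ≤ (12 * ν - 24) * N2 := by
    have h1 : (12 * ν - 24) * N2 =
        ‖A b x2 + A c y2‖ ^ 2 + ‖A b y2 - A c x2‖ ^ 2 := by
      rw [e3, hμ]
      ring
    rw [h1]
    positivity
  have p1 : 0 ≤ N1 := by positivity
  have p2 : 0 ≤ N2 := by positivity
  rcases hν.eq_or_lt with h1 | h1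
  · left
    rw [hμ, ← h1]
    ring
  · right
    have q1 : 0 < N1 := by
      rw [g1]
      positivity
    rw [g2] at p2
    have q2 : 0 ≤ 8 * ν - 8 := nonneg_of_mul_nonneg_left p2 q1
    rcases eq_or_ne ν 1 with h2 | h2
    · left
      rw [hμ, h2]
      ring
    · right
      have h3 : 1 < ν := lt_of_le_of_ne (by linarith) h2.symm
      have q3 : 0 < N2 := by
        rw [g2]
        exact mul_pos (by linarith) q1
      have q4 : 0 ≤ 12 * ν - 24 := nonneg_of_mul_nonneg_left g3 q3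
      nlinarith

/-- if all eigenvectors in `W` have the eigenvalue `c`, the operator is `c` on `W` -/
private theorem Spin_all {S : E →ₗ[ℝ] E} (hS : ∀ x y, inner ℝ (S x) y = inner ℝ x (S y))
    {W : Submodule ℝ E} (hW : ∀ x ∈ W, S x ∈ W) {c : ℝ}
    (hc : ∀ w ∈ W, w ≠ 0 → ∀ l : ℝ, S w = l • w → l = c) {x : E} (hx : x ∈ W) : S x = c • x := by
  let K : Submodule ℝ E := W ⊓ LinearMap.ker (S - c • LinearMap.id)
  have hK : ∀ u, u ∈ K ↔ u ∈ W ∧ S u = c • u := by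
    intro u
    rw [Submodule.mem_inf, LinearMap.mem_ker]
    simp [sub_eq_zero]
  let W' : Submodule ℝ E := W ⊓ Kᗮ
  have hW' : ∀ u ∈ W', S u ∈ W' := by
    intro u hu
    obtain ⟨h1, h2⟩ := Submodule.mem_inf.1 hu
    refine Submodule.mem_inf.2 ⟨hW u h1, ?_⟩
    rw [Submodule.mem_orthogonal] at h2 ⊢
    intro v hv
    rw [← hS, ((hK v).1 hv).2, real_inner_smul_left, h2 v hv, mul_zero]
  have hbot : ∀ u ∈ W', u = 0 := by
    intro u hu
    by_contra hu0
    obtain ⟨w, hw, hw0, l, hl⟩ := Spin_eig hS hW' hu hu0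
    obtain ⟨h1, h2⟩ := Submodule.mem_inf.1 hw
    have h3 := hc w h1 hw0 l hl
    have h4 : w ∈ K := (hK w).2 ⟨h1, by rw [hl, h3]⟩
    have h5 := (Submodule.mem_orthogonal K w).1 h2 w h4
    exact hw0 (inner_self_eq_zero.1 h5)
  have h1 : K.starProjection x ∈ K := Submodule.starProjection_apply_mem _ _
  have h2 : x - K.starProjection x ∈ W' := by
    refine Submodule.mem_inf.2 ⟨W.sub_mem hx ((hK _).1 h1).1, ?_⟩
    rw [Submodule.mem_orthogonal]
    intro v hv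
    rw [real_inner_comm]
    exact Submodule.starProjection_inner_eq_zero (K := K) x v hv
  have h3 := hbot _ h2
  have h4 : x = K.starProjection x := sub_eq_zero.1 h3
  rw [← h4] at h1
  exact ((hK x).1 h1).2

/-- on the part of spin one half each generator squares to `-1` -/
private theorem Spin_sq {P Q R : E →ₗ[ℝ] E} {W : Submodule ℝ E}
    (T : Spin_T P Q R W 3) {x : E} (hx : x ∈ W) : P (P x) = -x := by
  have h := Spin_all (S := P ∘ₗ P) (Spin_PP T) (W := W) (fun x hx => T.wP _ (T.wP x hx))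
    (c := -1) ?_ hx
  · rw [LinearMap.comp_apply] at h
    rw [h, neg_one_smul]
  · intro w hw hw0 l hl
    obtain ⟨m, hm, hlm, y, hy⟩ := Spin_pair T hw hw0 (l := l) hl
    have hne : w ≠ 0 ∨ y ≠ 0 := Or.inl hw0
    have n0 := Spin_pos hne
    have e1 := Spin_norm T hy
    have f1 := Spin_raise T hy
    have e2 := Spin_norm T f1
    have h1 : 0 ≤ (3 - m ^ 2 - 2 * m) * (‖w‖ ^ 2 + ‖y‖ ^ 2) := by
      rw [← e1]
      positivity
    have h2 : 0 ≤ 3 - m ^ 2 - 2 * m := nonneg_of_mul_nonneg_left h1 n0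
    have h3 : 3 - m ^ 2 - 2 * m = 0 := by
      by_contra hcon
      have h4 : 0 < 3 - m ^ 2 - 2 * m := lt_of_le_of_ne h2 (Ne.symm hcon)
      have h5 : 0 < ‖Q w + R y‖ ^ 2 + ‖Q y - R w‖ ^ 2 := by
        rw [e1]
        positivity
      have h6 : 0 ≤ (3 - (m + 2) ^ 2 - 2 * (m + 2)) *
          (‖Q w + R y‖ ^ 2 + ‖Q y - R w‖ ^ 2) := by
        rw [← e2]
        positivity
      have h7 := nonneg_of_mul_nonneg_left h6 h5
      nlinarith
    have h4 : (m - 1) * (m + 3) = 0 := by linarith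
    rcases mul_eq_zero.1 h4 with h5 | h5
    · have : m = 1 := by linarith
      rw [hlm, this]
      norm_num
    · exfalso
      linarith

private theorem Spin_anti {P Q R : E →ₗ[ℝ] E} {W : Submodule ℝ E}
    (T : Spin_T P Q R W 3) (hP : ∀ x ∈ W, P (P x) = -x) {x : E} (hx : x ∈ W) :
    P (R x) + R (P x) = 0 := by
  have e1 := congrArg P (T.c1 x)
  have e2 := T.c1 (P x)
  rw [map_sub, map_smul, hP _ (T.wQ x hx)] at e1
  rw [hP x hx, map_neg] at e2
  have h : (2 : ℝ) • (P (R x) + R (P x)) = 0 := by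
    rw [smul_add, ← e1, ← e2]
    abel
  exact (smul_eq_zero.1 h).resolve_left two_ne_zero

/-- On the part of spin one half the generators anticommute like quaternions. -/
theorem V1_anti (hA : IsSU2 A) {x : E} (hx : x ∈ V1 A) (a b : Fin 3) :
    A a (A b x) + A b (A a x) = (if a = b then (-2 : ℝ) else 0) • x := by
  have hW : V1 A = LinearMap.ker (cas A - (3 : ℝ) • LinearMap.id) := rfl
  have hsq : ∀ a, ∀ x ∈ V1 A, A a (A a x) = -x := by
    intro a x hx
    obtain ⟨b, c, T, -⟩ := Spin_tri hA a hW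
    exact Spin_sq T hx
  have key : ∀ a c : Fin 3, ((a = 0 ∧ c = 2) ∨ (a = 1 ∧ c = 0) ∨ (a = 2 ∧ c = 1)) →
      A a (A c x) + A c (A a x) = 0 := by
    intro a c hac
    obtain ⟨b, c', T, h⟩ := Spin_tri hA a hW
    have hc : c' = c := by
      rcases hac with ⟨rfl, rfl⟩ | ⟨rfl, rfl⟩ | ⟨rfl, rfl⟩
      · rcases h with h | h | h
        · exact h.2.2
        · exact absurd h.1 (by decide)
        · exact absurd h.1 (by decide)
      · rcases h with h | h | h
        · exact absurd h.1 (by decide)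
        · exact h.2.2
        · exact absurd h.1 (by decide)
      · rcases h with h | h | h
        · exact absurd h.1 (by decide)
        · exact absurd h.1 (by decide)
        · exact h.2.2
    rw [← hc]
    exact Spin_anti T (hsq a) hx
  by_cases hab : a = b
  · rw [if_pos hab, hab, hsq b x hx]
    module
  · rw [if_neg hab, zero_smul]
    have h1 : ((a = 0 ∧ b = 2) ∨ (a = 1 ∧ b = 0) ∨ (a = 2 ∧ b = 1)) ∨
        ((b = 0 ∧ a = 2) ∨ (b = 1 ∧ a = 0) ∨ (b = 2 ∧ a = 1)) := by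
      revert hab
      revert a b
      decide
    rcases h1 with h1 | h1
    · exact key a b h1
    · rw [add_comm]
      exact key b a h1

/-- The uncertainty inequality for joint eigenvectors. -/
theorem joint_gap (hA : IsSU2 A) {z : E} {μ η : ℝ} (a : Fin 3) (hz : cas A z = μ • z)
    (hN : A a (A a z) = -η • z) (h0 : z ≠ 0) (h8 : 8 ≤ μ) : 4 ≤ μ - η := by
  obtain ⟨b, c, T, -⟩ := Spin_tri hA a (μ := μ) rfl
  have hzW : z ∈ LinearMap.ker (cas A - μ • LinearMap.id) := (Spin_mem rfl).2 hz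
  obtain ⟨ν, hν, hl, y, hy⟩ := Spin_pair T hzW h0 hN
  have e1 := Spin_norm T hy
  have n0 := Spin_pos (x := z) (y := y) (Or.inl h0)
  have h1 : 0 ≤ (μ - ν ^ 2 - 2 * ν) * (‖z‖ ^ 2 + ‖y‖ ^ 2) := by
    rw [← e1]
    positivity
  have h2 : 0 ≤ μ - ν ^ 2 - 2 * ν := nonneg_of_mul_nonneg_left h1 n0
  have h3 : η = ν ^ 2 := by linarith
  by_cases h4 : ν ≤ 2
  · nlinarith
  · push Not at h4
    linarith

end Pool.Agent.H4ac
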