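import Pool.Agent.H.MP_4ac55f_gt.Spin

/-! Lower bounds for `dop` on the part of spin at least one. -/

open scoped InnerProductSpace Topology
open Filter

namespace Pool.Agent.H4ac

variable {E : Type} [NormedAddCommGroup E] [InnerProductSpace ℝ E] [FiniteDimensional ℝ E]
variable {A : Fin 3 → E →ₗ[ℝ] E}
set_option linter.unusedSectionVars false

/-- A symmetric operator with nonnegative eigenvalues on an invariant subspace is nonnegative. -/
theorem nonneg_of_eig {W : Submodule ℝ E} {T : E →ₗ[ℝ] E}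
    (hT : ∀ x y, inner ℝ (T x) y = inner ℝ x (T y)) (hW : ∀ x ∈ W, T x ∈ W)
    (h : ∀ z ∈ W, z ≠ 0 → ∀ m : ℝ, T z = m • z → 0 ≤ m) :
    ∀ x ∈ W, 0 ≤ inner ℝ (T x) x := by
  intro x hx
  let R : W →ₗ[ℝ] W := T.restrict hW
  have hR : R.IsSymmetric := fun u v => hT u v
  have key : 0 ≤ inner ℝ (R ⟨x, hx⟩) (⟨x, hx⟩ : W) := by
    rw [← (hR.eigenvectorBasis rfl).sum_inner_mul_inner]
    refine Finset.sum_nonneg fun i _ => ?_
    have he := hR.apply_eigenvectorBasis rfl i
    have hz : (hR.eigenvectorBasis rfl i) ≠ 0 := (hR.eigenvectorBasis rfl).orthonormal.ne_zero i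
    have hm : 0 ≤ hR.eigenvalues rfl i := by
      refine h (hR.eigenvectorBasis rfl i : W) (hR.eigenvectorBasis rfl i).2 ?_ _ ?_
      · simpa using hz
      · exact congrArg Subtype.val he
    rw [hR, he, inner_smul_right, real_inner_comm, mul_assoc]
    exact mul_nonneg (by simpa using hm) (mul_self_nonneg _)
  exact key

/-- A symmetric operator has an eigenvector in every nonzero invariant subspace. -/
theorem exists_eig {W : Submodule ℝ E} {T : E →ₗ[ℝ] E}
    (hT : ∀ x y, inner ℝ (T x) y = inner ℝ x (T y)) (hW : ∀ x ∈ W, T x ∈ W)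
    {w : E} (hw : w ∈ W) (hw0 : w ≠ 0) :
    ∃ z ∈ W, z ≠ 0 ∧ ∃ m : ℝ, T z = m • z := by
  let R : W →ₗ[ℝ] W := T.restrict hW
  have hR : R.IsSymmetric := fun u v => hT u v
  have : Nontrivial W := ⟨⟨⟨w, hw⟩, 0, by simpa using hw0⟩⟩
  have hpos : 0 < Module.finrank ℝ W := Module.finrank_pos
  have he := hR.apply_eigenvectorBasis rfl ⟨0, hpos⟩
  have hz := (hR.eigenvectorBasis rfl).orthonormal.ne_zero ⟨0, hpos⟩
  refine ⟨(hR.eigenvectorBasis rfl ⟨0, hpos⟩ : W), (hR.eigenvectorBasis rfl ⟨0, hpos⟩).2, ?_,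
    hR.eigenvalues rfl ⟨0, hpos⟩, ?_⟩
  · simpa using hz
  · exact congrArg Subtype.val he

/-- Nonnegativity on joint eigenvectors suffices. -/
theorem nonneg_of_joint {S : Submodule ℝ E} {Y C : E →ₗ[ℝ] E}
    (hYs : ∀ x y, inner ℝ (Y x) y = inner ℝ x (Y y))
    (hCs : ∀ x y, inner ℝ (C x) y = inner ℝ x (C y))
    (hYS : ∀ x ∈ S, Y x ∈ S) (hCS : ∀ x ∈ S, C x ∈ S)
    (hYC : ∀ x, Y (C x) = C (Y x))
    (h : ∀ z ∈ S, z ≠ 0 → ∀ μ m : ℝ, C z = μ • z → Y z = m • z → 0 ≤ m) :
    ∀ x ∈ S, 0 ≤ inner ℝ (Y x) x := by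
  refine nonneg_of_eig hYs hYS fun z hz hz0 m hm => ?_
  let W : Submodule ℝ E := S ⊓ LinearMap.ker (Y - m • LinearMap.id)
  have mem : ∀ y, y ∈ W ↔ y ∈ S ∧ Y y = m • y := fun y => by
    rw [Submodule.mem_inf, LinearMap.mem_ker]
    simp [sub_eq_zero]
  have hCW : ∀ y ∈ W, C y ∈ W := fun y hy => by
    rw [mem] at hy ⊢
    exact ⟨hCS y hy.1, by rw [hYC, hy.2, map_smul]⟩
  obtain ⟨y, hy, hy0, μ, hμ⟩ := exists_eig hCs hCW ((mem z).2 ⟨hz, hm⟩) hz0
  exact h y ((mem y).1 hy).1 hy0 μ m hμ ((mem y).1 hy).2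

/-- An eigenvalue of the Casimir operator on the part of spin at least one is at least 8. -/
theorem eig_V2 (hA : IsSU2 A) {z : E} (hz : z ∈ V2 A) (h0 : z ≠ 0) {μ : ℝ}
    (h : cas A z = μ • z) : 8 ≤ μ := by
  rcases spin_gap hA h h0 with h1 | h1 | h1
  · exfalso
    have : z ∈ V0 A := by rw [mem_V0, h, h1, zero_smul]
    exact h0 (inner_self_eq_zero.1 (inner_02 this hz))
  · exfalso
    have : z ∈ V1 A := by rw [mem_V1, h, h1]
    exact h0 (inner_self_eq_zero.1 (inner_12 this hz))
  · exact h1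

theorem AA_symm (hA : IsSU2 A) (a : Fin 3) (x y : E) :
    inner ℝ (A a (A a x)) y = inner ℝ x (A a (A a y)) := by
  rw [hA.skew, skew' hA a x (A a y)]

theorem cas_V2 (hA : IsSU2 A) {x : E} (hx : x ∈ V2 A) :
    8 * ‖x‖ ^ 2 ≤ inner ℝ (cas A x) x := by
  have key := nonneg_of_joint (S := V2 A) (Y := cas A - (8 : ℝ) • LinearMap.id) (C := cas A)
    (fun x y => by
      simp only [LinearMap.sub_apply, LinearMap.smul_apply, LinearMap.id_apply, inner_sub_left,
        inner_sub_right, real_inner_smul_left, real_inner_smul_right, cas_symm hA])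
    (cas_symm hA)
    (fun x hx => by
      simp only [LinearMap.sub_apply, LinearMap.smul_apply, LinearMap.id_apply]
      exact (V2 A).sub_mem (cas_mem (fun a x hx => A_mem_V2 hA a hx) hx) ((V2 A).smul_mem _ hx))
    (fun x hx => cas_mem (fun a x hx => A_mem_V2 hA a hx) hx)
    (fun x => by
      simp only [LinearMap.sub_apply, LinearMap.smul_apply, LinearMap.id_apply, map_sub,
        map_smul])
    (fun z hz h0 μ m hμ hm => by
      have h8 := eig_V2 hA hz h0 hμ
      simp only [LinearMap.sub_apply, LinearMap.smul_apply, LinearMap.id_apply, hμ] at hm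
      have : (μ - 8 - m) • z = 0 := by
        linear_combination (norm := module) hm
      rcases smul_eq_zero.1 this with h | h
      · linarith
      · exact absurd h h0) x hx
  simp only [LinearMap.sub_apply, LinearMap.smul_apply, LinearMap.id_apply, inner_sub_left,
    real_inner_smul_left, real_inner_self_eq_norm_sq] at key
  linarith

theorem joint_V2 (hA : IsSU2 A) (a : Fin 3) {x : E} (hx : x ∈ V2 A) :
    4 * ‖x‖ ^ 2 ≤ inner ℝ (cas A x) x - ‖A a x‖ ^ 2 := by
  have key := nonneg_of_joint (S := V2 A)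
    (Y := cas A + A a ∘ₗ A a - (4 : ℝ) • LinearMap.id) (C := cas A)
    (fun x y => by
      simp only [LinearMap.sub_apply, LinearMap.add_apply, LinearMap.comp_apply,
        LinearMap.smul_apply, LinearMap.id_apply, inner_sub_left, inner_add_left,
        inner_sub_right, inner_add_right, real_inner_smul_left, real_inner_smul_right,
        cas_symm hA, AA_symm hA])
    (cas_symm hA)
    (fun x hx => by
      simp only [LinearMap.sub_apply, LinearMap.add_apply, LinearMap.comp_apply,
        LinearMap.smul_apply, LinearMap.id_apply]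
      exact (V2 A).sub_mem ((V2 A).add_mem (cas_mem (fun a x hx => A_mem_V2 hA a hx) hx)
        (A_mem_V2 hA a (A_mem_V2 hA a hx))) ((V2 A).smul_mem _ hx))
    (fun x hx => cas_mem (fun a x hx => A_mem_V2 hA a hx) hx)
    (fun x => by
      simp only [LinearMap.sub_apply, LinearMap.add_apply, LinearMap.comp_apply,
        LinearMap.smul_apply, LinearMap.id_apply, map_sub, map_add, map_smul, cas_comm hA])
    (fun z hz h0 μ m hμ hm => by
      have h8 := eig_V2 hA hz h0 hμ
      simp only [LinearMap.sub_apply, LinearMap.add_apply, LinearMap.comp_apply,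
        LinearMap.smul_apply, LinearMap.id_apply, hμ] at hm
      have hN : A a (A a z) = -(μ - 4 - m) • z := by
        linear_combination (norm := module) hm
      have := joint_gap hA a hμ hN h0 h8
      linarith) x hx
  have e : inner ℝ (A a (A a x)) x = -‖A a x‖ ^ 2 := by
    rw [hA.skew, real_inner_self_eq_norm_sq]
  simp only [LinearMap.sub_apply, LinearMap.add_apply, LinearMap.comp_apply,
    LinearMap.smul_apply, LinearMap.id_apply, inner_sub_left, inner_add_left,
    real_inner_smul_left, real_inner_self_eq_norm_sq, e] at key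
  linarith

/-- The operator in a diagonal frame. -/
theorem dop_diag_inner (hA : IsSU2 A) (q : Fin 3 → ℝ) (x : E) :
    inner ℝ (dop A (Matrix.diagonal q) x) x = ∑ a, q a * ‖A a x‖ ^ 2 := by
  rw [inner_dop hA]
  refine Finset.sum_congr rfl fun a _ => ?_
  rw [Finset.sum_eq_single a]
  · rw [Matrix.diagonal_apply_eq, real_inner_self_eq_norm_sq]
  · intro b _ hb
    rw [Matrix.diagonal_apply_ne _ (Ne.symm hb), zero_mul]
  · simp

/-- The lower bound of the operator on the part of spin at least one. -/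
theorem dop_V2 (hA : IsSU2 A) {q : Fin 3 → ℝ} (hq0 : 0 ≤ q 0) (hq1 : 0 ≤ q 1)
    (h02 : q 0 ≤ q 2) (h12 : q 1 ≤ q 2) {x : E} (hx : x ∈ V2 A) :
    4 * (q 0 + q 1) * ‖x‖ ^ 2 ≤ inner ℝ (dop A (Matrix.diagonal q) x) x := by
  rw [dop_diag_inner hA]
  have h8 := cas_V2 hA hx
  have j0 := joint_V2 hA 0 hx
  have j1 := joint_V2 hA 1 hx
  have j2 := joint_V2 hA 2 hx
  rw [inner_cas hA] at h8 j0 j1 j2
  simp only [Fin.sum_univ_three] at h8 j0 j1 j2 ⊢
  have k2 : 0 ≤ ‖A 2 x‖ ^ 2 := sq_nonneg _
  generalize ‖A 0 x‖ ^ 2 = n0 at *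
  generalize ‖A 1 x‖ ^ 2 = n1 at *
  generalize ‖A 2 x‖ ^ 2 = n2 at *
  generalize ‖x‖ ^ 2 = n at *
  rcases le_total (q 0) (q 1) with h | h
  · linarith [mul_nonneg hq0 (by linarith : 0 ≤ n0 + n1 + n2 - 8 * n),
      mul_nonneg (sub_nonneg.2 h) (by linarith : 0 ≤ n1 + n2 - 4 * n),
      mul_nonneg (sub_nonneg.2 h12) k2]
  · linarith [mul_nonneg hq1 (by linarith : 0 ≤ n0 + n1 + n2 - 8 * n),
      mul_nonneg (sub_nonneg.2 h) (by linarith : 0 ≤ n0 + n2 - 4 * n),
      mul_nonneg (sub_nonneg.2 h02) k2]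

/-- The lower bound in the form needed for the Casimir energy. -/
theorem dop_cas_V2 (hA : IsSU2 A) {q : Fin 3 → ℝ} (hq0 : 0 ≤ q 0) (hq1 : 0 ≤ q 1)
    (h02 : q 0 ≤ q 2) (h12 : q 1 ≤ q 2) {x : E} (hx : x ∈ V2 A) :
    4 * (q 0 + q 1) * inner ℝ (cas A x) x
      ≤ inner ℝ (dop A (Matrix.diagonal q) x) (cas A x) := by
  have hsy : (Matrix.diagonal q).transpose = Matrix.diagonal q := Matrix.diagonal_transpose q
  have key := nonneg_of_joint (S := V2 A)
    (Y := dop A (Matrix.diagonal q) ∘ₗ cas A - (4 * (q 0 + q 1)) • cas A) (C := cas A)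
    (fun x y => by
      simp only [LinearMap.sub_apply, LinearMap.comp_apply, LinearMap.smul_apply, inner_sub_left,
        inner_sub_right, real_inner_smul_left, real_inner_smul_right]
      rw [dop_symm hA hsy, cas_symm hA, cas_symm hA, dop_cas hA])
    (cas_symm hA)
    (fun x hx => by
      simp only [LinearMap.sub_apply, LinearMap.comp_apply, LinearMap.smul_apply]
      have h1 := cas_mem (fun a x hx => A_mem_V2 hA a hx) hx
      exact (V2 A).sub_mem (dop_mem (fun a x hx => A_mem_V2 hA a hx) _ h1)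
        ((V2 A).smul_mem _ h1))
    (fun x hx => cas_mem (fun a x hx => A_mem_V2 hA a hx) hx)
    (fun x => by
      simp only [LinearMap.sub_apply, LinearMap.comp_apply, LinearMap.smul_apply, map_sub,
        map_smul, dop_cas hA])
    (fun z hz h0 μ m hμ hm => by
      have h8 := eig_V2 hA hz h0 hμ
      have hb := dop_V2 hA hq0 hq1 h02 h12 hz
      have hpos : 0 < ‖z‖ ^ 2 := by positivity
      simp only [LinearMap.sub_apply, LinearMap.comp_apply, LinearMap.smul_apply, hμ,
        map_smul] at hm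
      have h2 := congrArg (fun v => inner ℝ v z) hm
      simp only [inner_sub_left, real_inner_smul_left, real_inner_self_eq_norm_sq] at h2
      have h3 : 0 ≤ m * ‖z‖ ^ 2 := by
        rw [← h2]
        have : 0 ≤ μ * (inner ℝ (dop A (Matrix.diagonal q) z) z
            - 4 * (q 0 + q 1) * ‖z‖ ^ 2) := mul_nonneg (by linarith) (by linarith)
        linarith
      exact nonneg_of_mul_nonneg_left h3 hpos) x hx
  simp only [LinearMap.sub_apply, LinearMap.comp_apply, LinearMap.smul_apply, inner_sub_left,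
    real_inner_smul_left] at key
  rw [dop_symm hA hsy, real_inner_comm] at key
  linarith

/-- The lower bound in the form needed for the mean curvature. -/
theorem dop_dop_V2 (hA : IsSU2 A) {q : Fin 3 → ℝ} (hq0 : 0 ≤ q 0) (hq1 : 0 ≤ q 1)
    (h02 : q 0 ≤ q 2) (h12 : q 1 ≤ q 2) {x : E} (hx : x ∈ V2 A) :
    4 * (q 0 + q 1) * inner ℝ (dop A (Matrix.diagonal q) x) x
      ≤ ‖dop A (Matrix.diagonal q) x‖ ^ 2 := by
  have hsy : (Matrix.diagonal q).transpose = Matrix.diagonal q := Matrix.diagonal_transpose q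
  set D := dop A (Matrix.diagonal q) with hD
  have hDs : ∀ x y, inner ℝ (D x) y = inner ℝ x (D y) := dop_symm hA hsy
  have hDm : ∀ x ∈ V2 A, D x ∈ V2 A := fun x hx =>
    dop_mem (fun a x hx => A_mem_V2 hA a hx) _ hx
  have key := nonneg_of_joint (S := V2 A)
    (Y := D ∘ₗ D - (4 * (q 0 + q 1)) • D) (C := D)
    (fun x y => by
      simp only [LinearMap.sub_apply, LinearMap.comp_apply, LinearMap.smul_apply, inner_sub_left,
        inner_sub_right, real_inner_smul_left, real_inner_smul_right, hDs])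
    hDs
    (fun x hx => by
      simp only [LinearMap.sub_apply, LinearMap.comp_apply, LinearMap.smul_apply]
      exact (V2 A).sub_mem (hDm _ (hDm _ hx)) ((V2 A).smul_mem _ (hDm _ hx)))
    hDm
    (fun x => by
      simp only [LinearMap.sub_apply, LinearMap.comp_apply, LinearMap.smul_apply, map_sub,
        map_smul])
    (fun z hz h0 μ m hμ hm => by
      have hb := dop_V2 hA hq0 hq1 h02 h12 hz
      have hpos : 0 < ‖z‖ ^ 2 := by positivity
      rw [← hD, hμ, real_inner_smul_left, real_inner_self_eq_norm_sq] at hb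
      have h4 : 4 * (q 0 + q 1) ≤ μ := le_of_mul_le_mul_right hb hpos
      simp only [LinearMap.sub_apply, LinearMap.comp_apply, LinearMap.smul_apply, hμ,
        map_smul] at hm
      have : (μ * μ - 4 * (q 0 + q 1) * μ - m) • z = 0 := by
        linear_combination (norm := module) hm
      rcases smul_eq_zero.1 this with h | h
      · have : 0 ≤ (μ - 4 * (q 0 + q 1)) * μ := mul_nonneg (by linarith) (by linarith)
        linarith
      · exact absurd h h0) x hx
  simp only [LinearMap.sub_apply, LinearMap.comp_apply, LinearMap.smul_apply, inner_sub_left,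
    real_inner_smul_left] at key
  rw [hDs, real_inner_self_eq_norm_sq] at key
  linarith

end Pool.Agent.H4ac
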